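import Mathlib

set_option autoImplicit false

namespace Pool.Agent.Helper25

open Finset

/-- sum of reciprocals of the integers up to n coprime to m -/
noncomputable def S (m n : ℕ) : ℝ := ∑ a ∈ (Icc 1 n).filter (fun a => Nat.Coprime m a), (1 : ℝ) / a

/-- integer lower bound for the sum -/
def Si (m n K : ℕ) : ℕ := ∑ a ∈ (Icc 1 n).filter (fun a => Nat.Coprime m a), K / a

lemma Si_le (m n K : ℕ) (hK : 0 < K) : ((Si m n K : ℕ) : ℝ) / K ≤ S m n := by
  unfold Si S
  rw [Nat.cast_sum, Finset.sum_div]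
  apply Finset.sum_le_sum
  intro a ha
  have ha1 : 1 ≤ a := (Finset.mem_Icc.mp (Finset.mem_filter.mp ha).1).1
  have h : ((K / a : ℕ) : ℝ) ≤ (K : ℝ) / a := Nat.cast_div_le
  have hK' : (0:ℝ) < K := by exact_mod_cast hK
  rw [div_le_iff₀ hK']
  calc ((K / a : ℕ) : ℝ) ≤ (K : ℝ) / a := h
    _ = 1 / a * K := by ring

lemma S_mono (m : ℕ) {n n' : ℕ} (h : n ≤ n') : S m n ≤ S m n' := by
  unfold S
  apply Finset.sum_le_sum_of_subset_of_nonneg
  · intro a ha
    simp only [mem_filter, mem_Icc] at ha ⊢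
    exact ⟨⟨ha.1.1, ha.1.2.trans h⟩, ha.2⟩
  · intro a _ _
    positivity

lemma log_le_of_pow {t : ℝ} (ht : 0 < t) {k m : ℕ} (hk : 0 < k) (h : t ^ k ≤ 2 ^ m) :
    Real.log t ≤ m / k * 0.6931471808 := by
  have h1 : Real.log (t ^ k) ≤ Real.log (2 ^ m) := Real.log_le_log (by positivity) h
  rw [Real.log_pow, Real.log_pow] at h1
  have h2 : Real.log 2 < 0.6931471808 := Real.log_two_lt_d9
  have hk' : (0:ℝ) < k := by exact_mod_cast hk
  have h3 : Real.log t ≤ m / k * Real.log 2 := by
    rw [div_mul_eq_mul_div, le_div_iff₀ hk']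
    linarith
  have h4 : (m : ℝ) / k * Real.log 2 ≤ m / k * 0.6931471808 :=
    mul_le_mul_of_nonneg_left h2.le (by positivity)
  linarith

lemma Si_vals : Si 210 10 1000000 = 1000000 ∧ Si 210 11 1000000 = 1090909 ∧
    Si 210 16 1000000 = 1167832 ∧ Si 210 22 1000000 = 1279286 ∧ Si 210 37 1000000 = 1416531 ∧
    Si 210 66 1000000 = 1537661 ∧ Si 210 110 1000000 = 1664745 ∧ Si 210 198 1000000 = 1794321 ∧
    Si 210 352 1000000 = 1920988 ∧ Si 210 420 1000000 = 1962585 := by
  decide +kernel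

lemma card210 : ((Icc 1 210).filter (fun a => Nat.Coprime 210 a)).card = 48 := by
  decide +kernel

lemma small_range {A B : ℕ} {s : ℕ} (hs : Si 210 A 1000000 = s) {k m : ℕ} (hk : 0 < k)
    (hpow : (((B : ℝ) + 1) / 11) ^ k ≤ 2 ^ m)
    (hnum : 1 + 8 / 35 * ((m : ℝ) / k * 0.6931471808) ≤ (s : ℝ) / 1000000)
    {n : ℕ} (hA : A ≤ n) (hB : n ≤ B) : 1 + 8 / 35 * Real.log (((n : ℝ) + 1) / 11) ≤ S 210 n := by
  have h1 : ((Si 210 A 1000000 : ℕ) : ℝ) / (1000000 : ℕ) ≤ S 210 A := Si_le 210 A 1000000 (by norm_num)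
  rw [hs] at h1
  have h2 := S_mono 210 hA
  have h3 : Real.log (((n : ℝ) + 1) / 11) ≤ Real.log (((B : ℝ) + 1) / 11) := by
    apply Real.log_le_log (by positivity)
    have : (n : ℝ) ≤ B := by exact_mod_cast hB
    linarith
  have h4 := log_le_of_pow (t := ((B : ℝ) + 1) / 11) (by positivity) hk hpow
  push_cast at h1
  linarith

lemma S_small {n : ℕ} (h1 : 10 ≤ n) (h2 : n ≤ 419) :
    1 + 8 / 35 * Real.log (((n : ℝ) + 1) / 11) ≤ S 210 n := by
  obtain ⟨v10, v11, v16, v22, v37, v66, v110, v198, v352, v420⟩ := Si_vals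
  rcases Nat.lt_or_ge n 11 with h | h
  · exact small_range (A := 10) (B := 10) v10 (k := 1) (m := 0) (by norm_num) (by norm_num)
      (by norm_num) h1 (by omega)
  rcases Nat.lt_or_ge n 16 with h' | h'
  · exact small_range (A := 11) (B := 15) v11 (k := 24) (m := 13) (by norm_num) (by norm_num)
      (by norm_num) h (by omega)
  rcases Nat.lt_or_ge n 22 with h | h
  · exact small_range (A := 16) (B := 21) v16 (k := 1) (m := 1) (by norm_num) (by norm_num)
      (by norm_num) h' (by omega)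
  rcases Nat.lt_or_ge n 37 with h' | h'
  · exact small_range (A := 22) (B := 36) v22 (k := 25) (m := 44) (by norm_num) (by norm_num)
      (by norm_num) h (by omega)
  rcases Nat.lt_or_ge n 66 with h | h
  · exact small_range (A := 37) (B := 65) v37 (k := 5) (m := 13) (by norm_num) (by norm_num)
      (by norm_num) h' (by omega)
  rcases Nat.lt_or_ge n 110 with h' | h'
  · exact small_range (A := 66) (B := 109) v66 (k := 3) (m := 10) (by norm_num) (by norm_num)
      (by norm_num) h (by omega)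
  rcases Nat.lt_or_ge n 198 with h | h
  · exact small_range (A := 110) (B := 197) v110 (k := 11) (m := 46) (by norm_num) (by norm_num)
      (by norm_num) h' (by omega)
  rcases Nat.lt_or_ge n 352 with h' | h'
  · exact small_range (A := 198) (B := 351) v198 (k := 1) (m := 5) (by norm_num) (by norm_num)
      (by norm_num) h (by omega)
  · exact small_range (A := 352) (B := 419) v352 (k := 10) (m := 53) (by norm_num) (by norm_num)
      (by norm_num) h' h2

/-- one full period of residues -/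
lemma S_split (m k : ℕ) : S m (m * (k + 1)) = S m (m * k)
      + ∑ r ∈ (Icc 1 m).filter (fun a => Nat.Coprime m a), (1 : ℝ) / ((m * k + r : ℕ) : ℝ) := by
  unfold S
  have hun : (Icc 1 (m * (k + 1))).filter (fun a => Nat.Coprime m a)
      = (Icc 1 (m * k)).filter (fun a => Nat.Coprime m a)
        ∪ ((Icc 1 m).filter (fun a => Nat.Coprime m a)).image (fun r => m * k + r) := by
    have hmk : m * (k + 1) = m * k + m := by ring
    rw [hmk]
    ext a
    simp only [mem_filter, mem_Icc, mem_union, mem_image]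
    constructor
    · rintro ⟨⟨h1, h2⟩, h3⟩
      rcases Nat.lt_or_ge (m * k) a with h | h
      · right
        refine ⟨a - m * k, ⟨⟨by omega, by omega⟩, ?_⟩, by omega⟩
        have : a = (a - m * k) + m * k := by omega
        rw [this] at h3
        exact (Nat.coprime_add_mul_left_right m (a - m * k) k).mp h3
      · left; exact ⟨⟨h1, h⟩, h3⟩
    · rintro (⟨⟨h1, h2⟩, h3⟩ | ⟨r, ⟨⟨h1, h2⟩, h3⟩, rfl⟩)
      · exact ⟨⟨h1, by omega⟩, h3⟩
      · refine ⟨⟨by omega, by omega⟩, ?_⟩
        rw [add_comm]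
        exact (Nat.coprime_add_mul_left_right m r k).mpr h3
  have hdis : Disjoint ((Icc 1 (m * k)).filter (fun a => Nat.Coprime m a))
      (((Icc 1 m).filter (fun a => Nat.Coprime m a)).image (fun r => m * k + r)) := by
    rw [Finset.disjoint_left]
    intro a ha hb
    simp only [mem_filter, mem_Icc, mem_image] at ha hb
    obtain ⟨r, ⟨⟨h1, h2⟩, h3⟩, rfl⟩ := hb
    omega
  rw [hun, Finset.sum_union hdis, Finset.sum_image]
  intro x _ y _ hxy
  simpa using hxy

lemma coprime_compl {m r : ℕ} (h : r ≤ m) (hc : Nat.Coprime m r) : Nat.Coprime m (m - r) := by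
  rw [Nat.coprime_comm] at hc ⊢
  rwa [Nat.coprime_self_sub_left h]

lemma S_pair (m k : ℕ) (hm : 1 < m) :
    ((Icc 1 m).filter (fun a => Nat.Coprime m a)).card * ((2 : ℝ) / (2 * m * k + m))
      ≤ ∑ r ∈ (Icc 1 m).filter (fun a => Nat.Coprime m a), (1 : ℝ) / ((m * k + r : ℕ) : ℝ) := by
  have hne : ∀ r ∈ (Icc 1 m).filter (fun a => Nat.Coprime m a), 1 ≤ r ∧ r < m ∧ Nat.Coprime m r := by
    intro r hr
    simp only [mem_filter, mem_Icc] at hr
    obtain ⟨⟨h1, h2⟩, h3⟩ := hr
    refine ⟨h1, lt_of_le_of_ne h2 ?_, h3⟩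
    rintro rfl
    rw [Nat.coprime_self] at h3
    omega
  have hinv : ∑ r ∈ (Icc 1 m).filter (fun a => Nat.Coprime m a), (1 : ℝ) / ((m * k + r : ℕ) : ℝ)
      = ∑ r ∈ (Icc 1 m).filter (fun a => Nat.Coprime m a),
        (1 : ℝ) / ((m * k + (m - r) : ℕ) : ℝ) := by
    apply Finset.sum_nbij' (fun r => m - r) (fun r => m - r)
    · intro r hr
      obtain ⟨h1, h2, h3⟩ := hne r hr
      simp only [mem_filter, mem_Icc]
      exact ⟨⟨by omega, by omega⟩, coprime_compl h2.le h3⟩
    · intro r hr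
      obtain ⟨h1, h2, h3⟩ := hne r hr
      simp only [mem_filter, mem_Icc]
      exact ⟨⟨by omega, by omega⟩, coprime_compl h2.le h3⟩
    · intro r hr
      obtain ⟨h1, h2, h3⟩ := hne r hr
      omega
    · intro r hr
      obtain ⟨h1, h2, h3⟩ := hne r hr
      omega
    · intro r hr
      obtain ⟨h1, h2, h3⟩ := hne r hr
      have : m - (m - r) = r := by omega
      rw [this]
  have hge : ∑ r ∈ (Icc 1 m).filter (fun a => Nat.Coprime m a), 2 * ((2 : ℝ) / (2 * m * k + m))
      ≤ ∑ r ∈ (Icc 1 m).filter (fun a => Nat.Coprime m a),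
        ((1 : ℝ) / ((m * k + r : ℕ) : ℝ) + (1 : ℝ) / ((m * k + (m - r) : ℕ) : ℝ)) := by
    apply Finset.sum_le_sum
    intro r hr
    obtain ⟨h1, h2, h3⟩ := hne r hr
    have hk0 : (0 : ℝ) ≤ k := Nat.cast_nonneg k
    have hm0 : (1 : ℝ) < m := by exact_mod_cast hm
    have hr1 : (1 : ℝ) ≤ r := by exact_mod_cast h1
    have hr2 : (r : ℝ) < m := by exact_mod_cast h2
    have e1 : ((m * k + r : ℕ) : ℝ) = m * k + r := by push_cast; ring
    have e2 : ((m * k + (m - r) : ℕ) : ℝ) = m * k + (m - r) := by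
      rw [Nat.cast_add, Nat.cast_sub (by omega)]; push_cast; ring
    rw [e1, e2]
    have p1 : (0:ℝ) < m * k + r := by positivity
    have p2 : (0:ℝ) < m * k + (m - r) := by nlinarith [mul_nonneg (by linarith : (0:ℝ) ≤ m) hk0]
    have p3 : (0:ℝ) < 2 * m * k + m := by positivity
    have e3 : 2 * ((2 : ℝ) / (2 * m * k + m)) = 4 / (2 * m * k + m) := by ring
    rw [e3, div_add_div _ _ p1.ne' p2.ne', div_le_div_iff₀ p3 (mul_pos p1 p2)]
    nlinarith [sq_nonneg ((m * k + r : ℝ) - (m * k + (m - r)))]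
  rw [Finset.sum_const, nsmul_eq_mul, Finset.sum_add_distrib, ← hinv] at hge
  linarith

lemma S_block (k : ℕ) : S 210 (210 * k) + 48 / (210 * k + 105) ≤ S 210 (210 * (k + 1)) := by
  rw [S_split 210 k]
  have h := S_pair 210 k (by norm_num)
  rw [card210] at h
  have : ((48 : ℕ) : ℝ) * (2 / (2 * (210 : ℕ) * k + (210 : ℕ))) = 48 / (210 * k + 105) := by
    push_cast
    field_simp
    ring
  rw [this] at h
  linarith

lemma log_le_half {t : ℝ} (ht : 1 ≤ t) : Real.log t ≤ (t - t⁻¹) / 2 := by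
  have h0 : 0 < t := by linarith
  rw [← Real.sinh_log h0]
  exact Real.self_le_sinh_iff.mpr (Real.log_nonneg ht)

lemma S_period (k : ℕ) (hk : 2 ≤ k) :
    1 + 8 / 35 * Real.log (210 * k / 11) + 8 / 35 * (0.412 + 1 / (10 * k)) ≤ S 210 (210 * k) := by
  induction k, hk using Nat.le_induction with
  | base =>
    obtain ⟨v10, v11, v16, v22, v37, v66, v110, v198, v352, v420⟩ := Si_vals
    have h1 : ((Si 210 420 1000000 : ℕ) : ℝ) / (1000000 : ℕ) ≤ S 210 420 := Si_le 210 420 1000000 (by norm_num)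
    rw [v420] at h1
    have h4 := log_le_of_pow (t := (210 * ((2:ℕ):ℝ) / 11)) (by positivity) (k := 10) (m := 53)
      (by norm_num) (by norm_num)
    norm_num at h1 h4 ⊢
    linarith
  | succ k hk ih =>
    have hb := S_block k
    have hk0 : (2 : ℝ) ≤ k := by exact_mod_cast hk
    have hlog : Real.log (210 * ((k + 1 : ℕ) : ℝ) / 11) = Real.log (210 * k / 11)
        + Real.log (((k : ℝ) + 1) / k) := by
      rw [← Real.log_mul (by positivity) (by positivity)]
      congr 1
      push_cast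
      field_simp
    have h2 := log_le_half (t := ((k : ℝ) + 1) / k) (by rw [le_div_iff₀ (by linarith)]; linarith)
    rw [hlog]
    have h3 : (((k : ℝ) + 1) / k - (((k : ℝ) + 1) / k)⁻¹) / 2 = (2 * k + 1) / (2 * k * (k + 1)) := by
      field_simp
      ring
    rw [h3] at h2
    have h4 : (2 * (k:ℝ) + 1) / (2 * k * (k + 1)) + 1 / (10 * ((k + 1 : ℕ) : ℝ)) ≤ 1 / (10 * k)
        + 35 / 8 * (48 / (210 * k + 105)) := by
      push_cast
      rw [div_add_div _ _ (by positivity) (by positivity)]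
      have : (35 : ℝ) / 8 * (48 / (210 * k + 105)) = 2 / (2 * k + 1) := by
        field_simp; ring
      rw [this, div_add_div _ _ (by positivity) (by positivity), div_le_div_iff₀ (by positivity)
        (by positivity)]
      nlinarith [mul_nonneg (by linarith : (0:ℝ) ≤ k) (by linarith : (0:ℝ) ≤ k - 2), sq_nonneg ((k:ℝ)),
        mul_nonneg (mul_nonneg (by linarith : (0:ℝ) ≤ k) (by linarith : (0:ℝ) ≤ k)) (by linarith : (0:ℝ) ≤ (k:ℝ) - 2),
        mul_nonneg (mul_nonneg (mul_nonneg (by linarith : (0:ℝ) ≤ k) (by linarith : (0:ℝ) ≤ k)) (by linarith : (0:ℝ) ≤ (k:ℝ) - 2)) (by linarith : (0:ℝ) ≤ k)]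
    linarith

/-- the main lower bound for integers coprime to 210 -/
theorem S_lower {n : ℕ} (h1 : 10 ≤ n) :
    1 + 8 / 35 * Real.log (((n : ℝ) + 1) / 11) ≤ S 210 n := by
  rcases Nat.lt_or_ge n 420 with h | h
  · exact S_small h1 (by omega)
  · set k := n / 210 with hk
    have hk2 : 2 ≤ k := by omega
    have h2 := S_period k hk2
    have h3 : S 210 (210 * k) ≤ S 210 n := S_mono 210 (by omega)
    have hk0 : (2 : ℝ) ≤ k := by exact_mod_cast hk2
    have h4 : Real.log (((n : ℝ) + 1) / 11) ≤ Real.log (210 * k / 11) + Real.log (((k : ℝ) + 1) / k) := by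
      rw [← Real.log_mul (by positivity) (by positivity)]
      apply Real.log_le_log (by positivity)
      have : (n : ℝ) + 1 ≤ 210 * (k + 1) := by
        have : n + 1 ≤ 210 * (k + 1) := by omega
        exact_mod_cast this
      calc ((n : ℝ) + 1) / 11 ≤ 210 * (k + 1) / 11 := by linarith
        _ = 210 * k / 11 * (((k : ℝ) + 1) / k) := by field_simp
    have h5 : Real.log (((k : ℝ) + 1) / k) ≤ Real.log (3 / 2) := by
      apply Real.log_le_log (by positivity)
      rw [div_le_div_iff₀ (by linarith) (by norm_num)]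
      linarith
    have h6 := log_le_of_pow (t := 3 / 2) (by norm_num) (k := 17) (m := 10) (by norm_num) (by norm_num)
    have h7 : (0:ℝ) < 1 / (10 * k) := by positivity
    norm_num at h6
    linarith

end Pool.Agent.Helper25
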