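import Mathlib
import Pool.Agent.Helper25.Harm

set_option autoImplicit false

namespace Pool.Agent.Helper25

open Finset

/-- weighted sum over the integers coprime to m, on the logarithmic scale -/
noncomputable def conv (m : ℕ) (F : ℝ → ℝ) (x : ℝ) : ℝ :=
  ∑ a ∈ (Icc 1 ⌊Real.exp x⌋₊).filter (fun a => Nat.Coprime m a), 1 / (a : ℝ) * F (x - Real.log a)

/-- the unit step -/
noncomputable def step (x : ℝ) : ℝ := if 0 ≤ x then 1 else 0

lemma conv_neg (m : ℕ) (F : ℝ → ℝ) {x : ℝ} (hx : x < 0) : conv m F x = 0 := by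
  unfold conv
  have : ⌊Real.exp x⌋₊ = 0 := by
    rw [Nat.floor_eq_zero]
    rw [← Real.exp_zero]; exact Real.exp_lt_exp.mpr hx
  rw [this]
  simp

lemma mem_range_iff {x : ℝ} {a : ℕ} : a ∈ Icc 1 ⌊Real.exp x⌋₊ ↔ 1 ≤ a ∧ Real.log a ≤ x := by
  rw [mem_Icc]
  constructor
  · rintro ⟨h1, h2⟩
    refine ⟨h1, ?_⟩
    have h3 : (a : ℝ) ≤ Real.exp x := by
      have := Nat.floor_le (Real.exp_pos x).le
      have h4 : (a : ℝ) ≤ (⌊Real.exp x⌋₊ : ℝ) := by exact_mod_cast h2
      linarith
    have ha : (0:ℝ) < a := by exact_mod_cast h1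
    calc Real.log a ≤ Real.log (Real.exp x) := Real.log_le_log ha h3
      _ = x := Real.log_exp x
  · rintro ⟨h1, h2⟩
    refine ⟨h1, ?_⟩
    apply Nat.le_floor
    have ha : (0:ℝ) < a := by exact_mod_cast h1
    calc (a : ℝ) = Real.exp (Real.log a) := (Real.exp_log ha).symm
      _ ≤ Real.exp x := Real.exp_le_exp.mpr h2

lemma conv_mono_fun (m : ℕ) {F G : ℝ → ℝ} (h : ∀ y, 0 ≤ y → F y ≤ G y) (x : ℝ) :
    conv m F x ≤ conv m G x := by
  unfold conv
  apply Finset.sum_le_sum
  intro a ha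
  have h1 := mem_range_iff.mp (mem_filter.mp ha).1
  apply mul_le_mul_of_nonneg_left _ (by positivity)
  apply h
  linarith [h1.2]

lemma conv_nonneg (m : ℕ) {F : ℝ → ℝ} (h : ∀ y, 0 ≤ F y) (x : ℝ) : 0 ≤ conv m F x := by
  unfold conv
  apply Finset.sum_nonneg
  intro a _
  exact mul_nonneg (by positivity) (h _)

lemma conv_monotone (m : ℕ) {F : ℝ → ℝ} (hm : Monotone F) (h : ∀ y, 0 ≤ F y) :
    Monotone (conv m F) := by
  intro x y hxy
  unfold conv
  calc ∑ a ∈ (Icc 1 ⌊Real.exp x⌋₊).filter (fun a => Nat.Coprime m a), 1 / (a : ℝ) * F (x - Real.log a)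
      ≤ ∑ a ∈ (Icc 1 ⌊Real.exp x⌋₊).filter (fun a => Nat.Coprime m a),
          1 / (a : ℝ) * F (y - Real.log a) := by
        apply Finset.sum_le_sum
        intro a _
        apply mul_le_mul_of_nonneg_left _ (by positivity)
        apply hm
        linarith
    _ ≤ _ := by
        apply Finset.sum_le_sum_of_subset_of_nonneg
        · intro a ha
          rw [mem_filter, mem_range_iff] at ha ⊢
          exact ⟨⟨ha.1.1, ha.1.2.trans hxy⟩, ha.2⟩
        · intro a _ _
          exact mul_nonneg (by positivity) (h _)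

lemma step_mono : Monotone step := by
  intro x y h
  unfold step
  split_ifs with h1 h2
  · exact le_refl _
  · exact absurd (h1.trans h) h2
  · norm_num
  · exact le_refl _

lemma step_nonneg (x : ℝ) : 0 ≤ step x := by
  unfold step; split_ifs <;> norm_num

/-- splitting off a prime -/
lemma conv_split (m p : ℕ) (hp : p.Prime) (hmp : Nat.Coprime m p) (F : ℝ → ℝ) (x : ℝ) :
    conv m F x = conv (m * p) F x + 1 / (p : ℝ) * conv m F (x - Real.log p) := by
  unfold conv
  have hp0 : (0:ℝ) < p := by exact_mod_cast hp.pos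
  have hun : (Icc 1 ⌊Real.exp x⌋₊).filter (fun a => Nat.Coprime m a)
      = (Icc 1 ⌊Real.exp x⌋₊).filter (fun a => Nat.Coprime (m * p) a)
        ∪ ((Icc 1 ⌊Real.exp (x - Real.log p)⌋₊).filter (fun a => Nat.Coprime m a)).image
            (fun a => p * a) := by
    ext a
    simp only [mem_union, mem_filter, mem_image, mem_range_iff]
    constructor
    · rintro ⟨⟨h1, h2⟩, h3⟩
      by_cases hpa : p ∣ a
      · right
        obtain ⟨b, rfl⟩ := hpa
        have hb : 1 ≤ b := by
          rcases Nat.eq_zero_or_pos b with h | h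
          · subst h; simp at h1
          · exact h
        refine ⟨b, ⟨⟨hb, ?_⟩, Nat.Coprime.coprime_mul_left_right h3⟩, rfl⟩
        have hb0 : (0:ℝ) < b := by exact_mod_cast hb
        rw [Nat.cast_mul, Real.log_mul hp0.ne' hb0.ne'] at h2
        linarith
      · left
        refine ⟨⟨h1, h2⟩, ?_⟩
        exact Nat.Coprime.mul_left h3 ((Nat.Prime.coprime_iff_not_dvd hp).mpr hpa)
    · rintro (⟨⟨h1, h2⟩, h3⟩ | ⟨b, ⟨⟨h1, h2⟩, h3⟩, rfl⟩)
      · exact ⟨⟨h1, h2⟩, Nat.Coprime.coprime_mul_right h3⟩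
      · have hb0 : (0:ℝ) < b := by exact_mod_cast h1
        refine ⟨⟨?_, ?_⟩, ?_⟩
        · exact Nat.mul_pos hp.pos h1
        · rw [Nat.cast_mul, Real.log_mul hp0.ne' hb0.ne']
          linarith
        · exact Nat.Coprime.mul_right hmp h3
  have hdis : Disjoint ((Icc 1 ⌊Real.exp x⌋₊).filter (fun a => Nat.Coprime (m * p) a))
        (((Icc 1 ⌊Real.exp (x - Real.log p)⌋₊).filter (fun a => Nat.Coprime m a)).image
            (fun a => p * a)) := by
    rw [Finset.disjoint_left]
    intro a ha hb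
    simp only [mem_filter, mem_image] at ha hb
    obtain ⟨b, _, rfl⟩ := hb
    have h1 : Nat.Coprime p (p * b) := Nat.Coprime.coprime_mul_left ha.2
    have h2 : p ∣ 1 := by
      have := Nat.dvd_gcd (dvd_refl p) (Dvd.intro b rfl : p ∣ p * b)
      rwa [h1] at this
    exact hp.one_lt.ne' (Nat.dvd_one.mp h2)
  rw [hun, Finset.sum_union hdis, Finset.sum_image (fun a _ b _ hab => Nat.eq_of_mul_eq_mul_left hp.pos hab)]
  congr 1
  rw [Finset.mul_sum]
  apply Finset.sum_congr rfl
  intro a ha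
  have h1 := mem_range_iff.mp (mem_filter.mp ha).1
  have ha0 : (0:ℝ) < a := by exact_mod_cast h1.1
  rw [Nat.cast_mul, Real.log_mul hp0.ne' ha0.ne']
  have e : x - (Real.log p + Real.log a) = x - Real.log p - Real.log a := by ring
  rw [e]
  field_simp

/-- shift compatibility -/
lemma conv_add_shift (m : ℕ) {F G H : ℝ → ℝ} {c lam : ℝ} (hlam : 0 ≤ lam)
    (hH : ∀ y < 0, H y = 0) (hF : ∀ y, F y = G y + c * H (y - lam)) (x : ℝ) :
    conv m F x = conv m G x + c * conv m H (x - lam) := by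
  unfold conv
  have h1 : ∑ a ∈ (Icc 1 ⌊Real.exp (x - lam)⌋₊).filter (fun a => Nat.Coprime m a),
      1 / (a : ℝ) * H (x - lam - Real.log a)
      = ∑ a ∈ (Icc 1 ⌊Real.exp x⌋₊).filter (fun a => Nat.Coprime m a),
      1 / (a : ℝ) * H (x - lam - Real.log a) := by
    apply Finset.sum_subset
    · intro a ha
      rw [mem_filter, mem_range_iff] at ha ⊢
      exact ⟨⟨ha.1.1, by linarith [ha.1.2]⟩, ha.2⟩
    · intro a ha hb
      rw [mem_filter, mem_range_iff] at ha hb
      have : x - lam < Real.log a := by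
        by_contra h
        push Not at h
        exact hb ⟨⟨ha.1.1, h⟩, ha.2⟩
      rw [hH _ (by linarith)]
      ring
  rw [h1, Finset.mul_sum, ← Finset.sum_add_distrib]
  apply Finset.sum_congr rfl
  intro a _
  rw [hF]
  have e : x - Real.log a - lam = x - lam - Real.log a := by ring
  rw [e]
  ring

end Pool.Agent.Helper25
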