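import Mathlib
import Pool.Agent.Helper25.Conv

set_option autoImplicit false

namespace Pool.Agent.Helper25

open Finset MeasureTheory intervalIntegral

/-- the threshold log 11 -/
noncomputable def vv : ℝ := Real.log 11

lemma vv_pos : 0 < vv := Real.log_pos (by norm_num)

lemma conv_step_eq (m : ℕ) (x : ℝ) : conv m step x = S m ⌊Real.exp x⌋₊ := by
  unfold conv S
  apply Finset.sum_congr rfl
  intro a ha
  have h1 := mem_range_iff.mp (mem_filter.mp ha).1
  unfold step
  rw [if_pos (by linarith [h1.2])]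
  ring

lemma E_lower {x : ℝ} (hx : 0 ≤ x) : 1 + 8 / 35 * max (x - vv) 0 ≤ conv 210 step x := by
  rw [conv_step_eq]
  rcases le_or_gt vv x with h | h
  · have h11 : (11 : ℝ) ≤ Real.exp x := by
      calc (11:ℝ) = Real.exp vv := (Real.exp_log (by norm_num)).symm
        _ ≤ Real.exp x := Real.exp_le_exp.mpr h
    have hn : 10 ≤ ⌊Real.exp x⌋₊ := Nat.le_floor (by push_cast; linarith)
    have h2 := S_lower hn
    have h3 : x - vv ≤ Real.log (((⌊Real.exp x⌋₊ : ℝ) + 1) / 11) := by
      rw [Real.log_div (by positivity) (by norm_num)]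
      have h4 : x ≤ Real.log ((⌊Real.exp x⌋₊ : ℝ) + 1) := by
        rw [Real.le_log_iff_exp_le (by positivity)]
        exact (Nat.lt_floor_add_one _).le
      unfold vv
      linarith
    rw [max_eq_left (by linarith)]
    linarith
  · rw [max_eq_right (by linarith)]
    have hn : 1 ≤ ⌊Real.exp x⌋₊ := Nat.le_floor (by push_cast; exact Real.one_le_exp hx)
    have h2 := S_mono 210 hn
    have h3 : S 210 1 = 1 := by
      unfold S
      have : (Icc 1 1).filter (fun a => Nat.Coprime 210 a) = {1} := by decide +kernel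
      rw [this]; simp
    linarith

lemma int_ind {y c : ℝ} (h0 : 0 ≤ c) (hc : c ≤ y) {w : ℝ → ℝ} (hw : Continuous w) :
    ∫ u in (0:ℝ)..y, w u * (if c ≤ u then 1 else 0) = ∫ u in c..y, w u := by
  have hi1 : IntervalIntegrable (fun u => w u * (if c ≤ u then (1:ℝ) else 0)) volume 0 c := by
    apply IntervalIntegrable.continuousOn_mul _ hw.continuousOn
    apply Monotone.intervalIntegrable
    intro a b hab
    simp only
    split_ifs with h1 h2
    · exact le_refl _
    · exact absurd (h1.trans hab) h2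
    · norm_num
    · exact le_refl _
  have hi2 : IntervalIntegrable (fun u => w u * (if c ≤ u then (1:ℝ) else 0)) volume c y := by
    apply IntervalIntegrable.continuousOn_mul _ hw.continuousOn
    apply Monotone.intervalIntegrable
    intro a b hab
    simp only
    split_ifs with h1 h2
    · exact le_refl _
    · exact absurd (h1.trans hab) h2
    · norm_num
    · exact le_refl _
  rw [← integral_add_adjacent_intervals hi1 hi2]
  have e1 : ∫ u in (0:ℝ)..c, w u * (if c ≤ u then (1:ℝ) else 0) = 0 := by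
    rw [intervalIntegral.integral_congr_ae (g := fun _ => (0:ℝ))]
    · simp
    · filter_upwards [compl_mem_ae_iff.mpr (measure_singleton c)] with u hu hmem
      rw [Set.uIoc_of_le h0] at hmem
      have h1 : u ≠ c := fun h => hu (by simp [h])
      have h2 : u < c := lt_of_le_of_ne hmem.2 h1
      rw [if_neg (by linarith)]
      ring
  have e2 : ∫ u in c..y, w u * (if c ≤ u then (1:ℝ) else 0) = ∫ u in c..y, w u := by
    apply integral_congr
    intro u hu
    rw [Set.uIcc_of_le hc] at hu
    simp only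
    rw [if_pos hu.1]
    ring
  rw [e1, e2, zero_add]

lemma int_sum (m : ℕ) {y : ℝ} (hy : 0 ≤ y) {w : ℝ → ℝ} (hw : Continuous w) :
    ∑ a ∈ (Icc 1 ⌊Real.exp y⌋₊).filter (fun a => Nat.Coprime m a),
      1 / (a : ℝ) * ∫ u in (Real.log a)..y, w u = ∫ u in (0:ℝ)..y, w u * conv m step u := by
  have h1 : ∀ a ∈ (Icc 1 ⌊Real.exp y⌋₊).filter (fun a => Nat.Coprime m a),
      1 / (a : ℝ) * ∫ u in (Real.log a)..y, w u
        = ∫ u in (0:ℝ)..y, 1 / (a : ℝ) * (w u * (if Real.log a ≤ u then 1 else 0)) := by
    intro a ha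
    have h2 := mem_range_iff.mp (mem_filter.mp ha).1
    have hl : 0 ≤ Real.log a := Real.log_nonneg (by exact_mod_cast h2.1)
    rw [intervalIntegral.integral_const_mul, int_ind hl h2.2 hw]
  rw [Finset.sum_congr rfl h1, ← intervalIntegral.integral_finsetSum]
  · apply integral_congr
    intro u hu
    rw [Set.uIcc_of_le hy] at hu
    simp only
    unfold conv
    rw [Finset.mul_sum]
    symm
    have hs : ∑ a ∈ (Icc 1 ⌊Real.exp u⌋₊).filter (fun a => Nat.Coprime m a),
        w u * (1 / (a : ℝ) * step (u - Real.log a))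
        = ∑ a ∈ (Icc 1 ⌊Real.exp y⌋₊).filter (fun a => Nat.Coprime m a),
        w u * (1 / (a : ℝ) * step (u - Real.log a)) := by
      apply Finset.sum_subset
      · intro a ha
        rw [mem_filter, mem_range_iff] at ha ⊢
        exact ⟨⟨ha.1.1, ha.1.2.trans hu.2⟩, ha.2⟩
      · intro a ha hb
        rw [mem_filter, mem_range_iff] at ha hb
        have : u < Real.log a := by
          by_contra h
          push Not at h
          exact hb ⟨⟨ha.1.1, h⟩, ha.2⟩
        unfold step
        rw [if_neg (by linarith)]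
        ring
    rw [hs]
    apply Finset.sum_congr rfl
    intro a _
    unfold step
    by_cases h : Real.log a ≤ u
    · rw [if_pos h, if_pos (by linarith)]; ring
    · rw [if_neg h, if_neg (by linarith)]; ring
  · intro a _
    apply IntervalIntegrable.const_mul
    apply IntervalIntegrable.continuousOn_mul _ hw.continuousOn
    apply Monotone.intervalIntegrable
    intro b c hbc
    simp only
    split_ifs with h1 h2
    · exact le_refl _
    · exact absurd (h1.trans hbc) h2
    · norm_num
    · exact le_refl _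

lemma conv_step_ii (m : ℕ) (a b : ℝ) : IntervalIntegrable (conv m step) volume a b :=
  (conv_monotone m step_mono step_nonneg).intervalIntegrable

lemma int_lower {y : ℝ} (hy : 0 ≤ y) {w : ℝ → ℝ} (hw : Continuous w)
    (hw0 : ∀ u, u ≤ y → 0 ≤ w u) :
    (∫ u in (0:ℝ)..y, w u) + (if vv ≤ y then 8 / 35 * ∫ u in vv..y, w u * (u - vv) else 0)
      ≤ ∫ u in (0:ℝ)..y, w u * conv 210 step u := by
  have hwE : ∀ a b : ℝ, IntervalIntegrable (fun u => w u * conv 210 step u) volume a b :=
    fun a b => (conv_step_ii 210 a b).continuousOn_mul hw.continuousOn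
  have hwi : ∀ a b : ℝ, IntervalIntegrable w volume a b := fun a b => hw.intervalIntegrable a b
  split_ifs with h
  · rw [← integral_add_adjacent_intervals (hwi 0 vv) (hwi vv y),
      ← integral_add_adjacent_intervals (hwE 0 vv) (hwE vv y)]
    have h1 : ∫ u in (0:ℝ)..vv, w u ≤ ∫ u in (0:ℝ)..vv, w u * conv 210 step u := by
      apply intervalIntegral.integral_mono_on vv_pos.le (hwi _ _) (hwE _ _)
      intro u hu
      have h2 := E_lower hu.1
      have h3 : (0:ℝ) ≤ max (u - vv) 0 := le_max_right _ _
      have h4 := hw0 u (hu.2.trans h)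
      nlinarith
    have h2 : (∫ u in vv..y, w u) + 8 / 35 * ∫ u in vv..y, w u * (u - vv)
        ≤ ∫ u in vv..y, w u * conv 210 step u := by
      rw [← intervalIntegral.integral_const_mul, ← intervalIntegral.integral_add (hwi _ _)]
      · apply intervalIntegral.integral_mono_on h _ (hwE _ _)
        · intro u hu
          have h2 := E_lower (vv_pos.le.trans hu.1)
          rw [max_eq_left (by linarith [hu.1])] at h2
          have h4 := hw0 u hu.2
          nlinarith
        · apply IntervalIntegrable.add (hwi _ _)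
          apply Continuous.intervalIntegrable
          fun_prop
      · apply Continuous.intervalIntegrable
        fun_prop
    linarith
  · rw [add_zero]
    apply intervalIntegral.integral_mono_on hy (hwi _ _) (hwE _ _)
    intro u hu
    have h2 := E_lower hu.1
    have h3 : (0:ℝ) ≤ max (u - vv) 0 := le_max_right _ _
    have h4 := hw0 u hu.2
    nlinarith

/-- first moment -/
lemma D1_lower {y : ℝ} (hy : 0 ≤ y) :
    y + 8 / 35 * (max (y - vv) 0) ^ 2 / 2 ≤
      ∑ a ∈ (Icc 1 ⌊Real.exp y⌋₊).filter (fun a => Nat.Coprime 210 a),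
        1 / (a : ℝ) * (y - Real.log a) := by
  have h1 := int_lower hy (w := fun _ => (1:ℝ)) continuous_const (fun _ _ => by norm_num)
  have h2 := int_sum 210 hy (w := fun _ => (1:ℝ)) continuous_const
  rw [← h2] at h1
  have h3 : ∑ a ∈ (Icc 1 ⌊Real.exp y⌋₊).filter (fun a => Nat.Coprime 210 a),
      1 / (a : ℝ) * ∫ u in (Real.log a)..y, (1:ℝ)
      = ∑ a ∈ (Icc 1 ⌊Real.exp y⌋₊).filter (fun a => Nat.Coprime 210 a),
        1 / (a : ℝ) * (y - Real.log a) := by
    apply Finset.sum_congr rfl
    intro a _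
    rw [integral_one]
  rw [h3] at h1
  refine le_trans ?_ h1
  rw [integral_one]
  split_ifs with h
  · rw [max_eq_left (by linarith)]
    have h4 : ∫ u in vv..y, (1:ℝ) * (u - vv) = (y - vv) ^ 2 / 2 := by
      have : ∀ u ∈ Set.uIcc vv y, HasDerivAt (fun u => (u - vv) ^ 2 / 2) (1 * (u - vv)) u := by
        intro u _
        have h6 := ((hasDerivAt_id' u).sub_const vv).fun_pow 2
        refine (h6.div_const 2).congr_deriv ?_
        norm_num
      rw [integral_eq_sub_of_hasDerivAt this (by
        apply Continuous.intervalIntegrable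
        fun_prop)]
      ring
    rw [h4]
    linarith
  · rw [max_eq_right (by linarith)]
    linarith

/-- second moment -/
lemma D2_lower {y : ℝ} (hy : 0 ≤ y) :
    y ^ 2 / 2 + 8 / 35 * (max (y - vv) 0) ^ 3 / 6 ≤
      ∑ a ∈ (Icc 1 ⌊Real.exp y⌋₊).filter (fun a => Nat.Coprime 210 a),
        1 / (a : ℝ) * ((y - Real.log a) ^ 2 / 2) := by
  have hc : Continuous (fun u : ℝ => y - u) := by fun_prop
  have h1 := int_lower hy (w := fun u => y - u) hc (fun u hu => by linarith)
  have h2 := int_sum 210 hy (w := fun u => y - u) hc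
  rw [← h2] at h1
  have hI : ∀ a : ℝ, ∫ u in a..y, (y - u) = (y - a) ^ 2 / 2 := by
    intro a
    have : ∀ u ∈ Set.uIcc a y, HasDerivAt (fun u => -((y - u) ^ 2 / 2)) (y - u) u := by
      intro u _
      have h6 := ((hasDerivAt_id' u).const_sub y).fun_pow 2
      refine ((h6.div_const 2).fun_neg).congr_deriv ?_
      norm_num
      ring
    rw [integral_eq_sub_of_hasDerivAt this (by
      apply Continuous.intervalIntegrable
      fun_prop)]
    ring
  have h3 : ∑ a ∈ (Icc 1 ⌊Real.exp y⌋₊).filter (fun a => Nat.Coprime 210 a),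
      1 / (a : ℝ) * ∫ u in (Real.log a)..y, (y - u)
      = ∑ a ∈ (Icc 1 ⌊Real.exp y⌋₊).filter (fun a => Nat.Coprime 210 a),
        1 / (a : ℝ) * ((y - Real.log a) ^ 2 / 2) := by
    apply Finset.sum_congr rfl
    intro a _
    rw [hI]
  rw [h3] at h1
  refine le_trans ?_ h1
  rw [hI]
  split_ifs with h
  · rw [max_eq_left (by linarith)]
    have h4 : ∫ u in vv..y, (y - u) * (u - vv) = (y - vv) ^ 3 / 6 := by
      have : ∀ u ∈ Set.uIcc vv y, HasDerivAt (fun u => (y - vv) * (u - vv) ^ 2 / 2 - (u - vv) ^ 3 / 3)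
          ((y - u) * (u - vv)) u := by
        intro u _
        have e2 := (((hasDerivAt_id' u).sub_const vv).fun_pow 2).const_mul (y - vv)
        have e3 := ((hasDerivAt_id' u).sub_const vv).fun_pow 3
        refine ((e2.div_const 2).fun_sub (e3.div_const 3)).congr_deriv ?_
        norm_num
        ring
      rw [integral_eq_sub_of_hasDerivAt this (by
        apply Continuous.intervalIntegrable
        fun_prop)]
      ring
    rw [h4]
    ring_nf
    linarith
  · rw [max_eq_right (by linarith)]
    ring_nf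
    linarith

lemma conv_shift_le (m : ℕ) {F : ℝ → ℝ} {c x : ℝ} (hc : 0 ≤ c) (hF : ∀ y, 0 ≤ F y) :
    ∑ a ∈ (Icc 1 ⌊Real.exp (x - c)⌋₊).filter (fun a => Nat.Coprime m a),
        1 / (a : ℝ) * F (x - c - Real.log a)
      ≤ conv m (fun y => F (y - c)) x := by
  unfold conv
  have h : ∀ a : ℕ, F (x - c - Real.log a) = F (x - Real.log a - c) := by
    intro a; congr 1; ring
  simp only [h]
  apply Finset.sum_le_sum_of_subset_of_nonneg
  · intro a ha
    rw [mem_filter, mem_range_iff] at ha ⊢
    exact ⟨⟨ha.1.1, by linarith [ha.1.2]⟩, ha.2⟩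
  · intro a _ _
    exact mul_nonneg (by positivity) (hF _)

lemma conv_pos1 {c x : ℝ} (hc : 0 ≤ c) :
    max (x - c) 0 + 8 / 35 * (max (x - c - vv) 0) ^ 2 / 2
      ≤ conv 210 (fun y => max (y - c) 0) x := by
  have hv := vv_pos
  rcases lt_or_ge x c with h | h
  · rw [max_eq_right (by linarith), max_eq_right (by linarith)]
    have := conv_nonneg 210 (F := fun y => max (y - c) 0) (fun y => le_max_right _ _) x
    simpa using this
  · rw [max_eq_left (by linarith : (0:ℝ) ≤ x - c)]
    refine le_trans (D1_lower (by linarith : 0 ≤ x - c)) ?_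
    refine le_trans ?_ (conv_shift_le 210 (F := fun y => max y 0) hc (fun y => le_max_right _ _))
    apply Finset.sum_le_sum
    intro a _
    exact mul_le_mul_of_nonneg_left (le_max_left _ _) (by positivity)

lemma conv_pos2 {c x : ℝ} (hc : 0 ≤ c) :
    (max (x - c) 0) ^ 2 / 2 + 8 / 35 * (max (x - c - vv) 0) ^ 3 / 6
      ≤ conv 210 (fun y => (max (y - c) 0) ^ 2 / 2) x := by
  have hv := vv_pos
  rcases lt_or_ge x c with h | h
  · rw [max_eq_right (by linarith), max_eq_right (by linarith)]
    have := conv_nonneg 210 (F := fun y => (max (y - c) 0) ^ 2 / 2) (fun y => by positivity) x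
    simpa using this
  · rw [max_eq_left (by linarith : (0:ℝ) ≤ x - c)]
    refine le_trans (D2_lower (by linarith : 0 ≤ x - c)) ?_
    refine le_trans ?_ (conv_shift_le 210 (F := fun y => (max y 0) ^ 2 / 2) hc (fun y => by positivity))
    apply Finset.sum_le_sum
    intro a ha
    have h1 := mem_range_iff.mp (mem_filter.mp ha).1
    rw [max_eq_left (by linarith [h1.2])]

lemma conv_add (m : ℕ) (F G : ℝ → ℝ) (x : ℝ) :
    conv m (fun y => F y + G y) x = conv m F x + conv m G x := by
  unfold conv
  rw [← Finset.sum_add_distrib]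
  apply Finset.sum_congr rfl
  intro a _
  ring

lemma conv_smul (m : ℕ) (c : ℝ) (F : ℝ → ℝ) (x : ℝ) :
    conv m (fun y => c * F y) x = c * conv m F x := by
  unfold conv
  rw [Finset.mul_sum]
  apply Finset.sum_congr rfl
  intro a _
  ring

lemma conv_congr_nonneg (m : ℕ) {F G : ℝ → ℝ} (h : ∀ y, 0 ≤ y → F y = G y) (x : ℝ) :
    conv m F x = conv m G x :=
  le_antisymm (conv_mono_fun m (fun y hy => (h y hy).le) x)
    (conv_mono_fun m (fun y hy => (h y hy).ge) x)

lemma T2_lower {x : ℝ} (hx : 0 ≤ x) :
    1 + 2 * (8 / 35) * max (x - vv) 0 + (8 / 35) ^ 2 * ((max (x - 2 * vv) 0) ^ 2 / 2)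
      ≤ conv 210 (conv 210 step) x := by
  have h1 : conv 210 (fun y => step y + 8 / 35 * max (y - vv) 0) x ≤ conv 210 (conv 210 step) x := by
    apply conv_mono_fun
    intro y hy
    have := E_lower hy
    unfold step
    rw [if_pos hy]
    exact this
  rw [conv_add, conv_smul] at h1
  have h2 := E_lower hx
  have h3 := conv_pos1 (c := vv) (x := x) vv_pos.le
  have e : x - vv - vv = x - 2 * vv := by ring
  rw [e] at h3
  linarith

/-- the threefold sum -/
noncomputable def T3 (m1 m2 m3 : ℕ) (x : ℝ) : ℝ := conv m1 (conv m2 (conv m3 step)) x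

lemma T3_lower {x : ℝ} (hx : 0 ≤ x) :
    1 + 3 * (8 / 35) * max (x - vv) 0 + 3 / 2 * (8 / 35) ^ 2 * (max (x - 2 * vv) 0) ^ 2
      + (8 / 35) ^ 3 * (max (x - 3 * vv) 0) ^ 3 / 6
      ≤ T3 210 210 210 x := by
  unfold T3
  have h1 : conv 210 (fun y => (step y + 2 * (8 / 35) * max (y - vv) 0)
      + (8 / 35) ^ 2 * ((max (y - 2 * vv) 0) ^ 2 / 2)) x ≤ conv 210 (conv 210 (conv 210 step)) x := by
    apply conv_mono_fun
    intro y hy
    have := T2_lower hy
    unfold step at this ⊢
    rw [if_pos hy]
    exact this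
  rw [conv_add, conv_add, conv_smul, conv_smul] at h1
  have h2 := E_lower hx
  have h3 := conv_pos1 (c := vv) (x := x) vv_pos.le
  have h4 := conv_pos2 (c := 2 * vv) (x := x) (by linarith [vv_pos])
  have e : x - vv - vv = x - 2 * vv := by ring
  have e' : x - 2 * vv - vv = x - 3 * vv := by ring
  rw [e] at h3
  rw [e'] at h4
  linarith

end Pool.Agent.Helper25
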