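import Mathlib
import Pool.Agent.Helper25.Tri

set_option autoImplicit false

namespace Pool.Agent.Helper25

open Finset

/-- the comparison function -/
noncomputable def LL (x : ℝ) : ℝ := 122.1 * x + 17.79 * (max x 0) ^ 2 + (max x 0) ^ 3

lemma LL_nonpos {x : ℝ} (hx : x < 0) : LL x ≤ 0 := by
  unfold LL
  rw [max_eq_right hx.le]
  nlinarith

lemma LL_eq {x : ℝ} (hx : 0 ≤ x) : LL x = 122.1 * x + 17.79 * x ^ 2 + x ^ 3 := by
  unfold LL
  rw [max_eq_left hx]

lemma LL_convex : ConvexOn ℝ Set.univ LL := by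
  have h0 : ConvexOn ℝ Set.univ (fun x : ℝ => max x 0) :=
    (convexOn_id convex_univ).sup (convexOn_const 0 convex_univ)
  have h1 : ConvexOn ℝ Set.univ (fun x : ℝ => (max x 0) ^ 2) :=
    h0.pow (fun x _ => le_max_right _ _) 2
  have h2 : ConvexOn ℝ Set.univ (fun x : ℝ => (max x 0) ^ 3) :=
    h0.pow (fun x _ => le_max_right _ _) 3
  have h3 : ConvexOn ℝ Set.univ (fun x : ℝ => 122.1 * x) := by
    refine ⟨convex_univ, ?_⟩
    intro x _ y _ a b _ _ _
    simp only [smul_eq_mul]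
    apply le_of_eq
    ring
  have h4 := (h3.add (h1.smul (c := (17.79:ℝ)) (by norm_num))).add h2
  exact h4

lemma LL_mono : Monotone LL := by
  intro x y h
  unfold LL
  have h1 : max x 0 ≤ max y 0 := max_le_max h (le_refl _)
  have h2 : (0:ℝ) ≤ max x 0 := le_max_right _ _
  have h3 : (max x 0) ^ 2 ≤ (max y 0) ^ 2 := pow_le_pow_left₀ h2 h1 2
  have h4 : (max x 0) ^ 3 ≤ (max y 0) ^ 3 := pow_le_pow_left₀ h2 h1 3
  linarith

lemma vv_upper : vv < 2.39792 := by
  unfold vv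
  have := log_le_of_pow (t := 11) (by norm_num) (k := 37) (m := 128) (by norm_num) (by norm_num)
  norm_num at this ⊢
  linarith

lemma log_ge_of_pow {t : ℝ} (ht : 0 < t) {k m : ℕ} (hk : 0 < k) (h : 2 ^ m ≤ t ^ k) :
    m / k * 0.6931471803 ≤ Real.log t := by
  have h1 : Real.log (2 ^ m) ≤ Real.log (t ^ k) := Real.log_le_log (by positivity) h
  rw [Real.log_pow, Real.log_pow] at h1
  have h2 : 0.6931471803 < Real.log 2 := Real.log_two_gt_d9
  have hk' : (0:ℝ) < k := by exact_mod_cast hk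
  have h3 : m / k * Real.log 2 ≤ Real.log t := by
    rw [div_mul_eq_mul_div, div_le_iff₀ hk']
    linarith
  have h4 : (m : ℝ) / k * 0.6931471803 ≤ m / k * Real.log 2 :=
    mul_le_mul_of_nonneg_left h2.le (by positivity)
  linarith

lemma vv_lower : 2.3976 < vv := by
  unfold vv
  have := log_ge_of_pow (t := 11) (by norm_num) (k := 61) (m := 211) (by norm_num) (by norm_num)
  norm_num at this ⊢
  linarith

lemma poly_bound {x v : ℝ} (hx : 0 ≤ x) (hv1 : 2.3976 < v) (hv2 : v < 2.39792) :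
    x ^ 3 + 17.79 * x ^ 2 + 122.1 * x ≤ 6 * (35 / 8) ^ 3 + 18 * (35 / 8) ^ 2 * max (x - v) 0
      + 9 * (35 / 8) * (max (x - 2 * v) 0) ^ 2 + (max (x - 3 * v) 0) ^ 3 := by
  rcases le_or_gt x v with h1 | h1
  · rw [max_eq_right (by linarith), max_eq_right (by linarith), max_eq_right (by linarith)]
    have h2 : x < 2.39792 := by linarith
    have h3 : x ^ 2 ≤ 2.39792 ^ 2 := pow_le_pow_left₀ hx h2.le 2
    have h4 : x ^ 3 ≤ 2.39792 ^ 3 := pow_le_pow_left₀ hx h2.le 3
    norm_num at h3 h4 ⊢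
    linarith
  rcases le_or_gt x (2 * v) with h2 | h2
  · rw [max_eq_left (by linarith), max_eq_right (by linarith), max_eq_right (by linarith)]
    obtain ⟨t, rfl⟩ : ∃ t, x = v + t := ⟨x - v, by ring⟩
    have ht0 : 0 ≤ t := by linarith
    have ht1 : t ≤ 2.39792 := by linarith
    have hv3 : v ^ 2 ≤ 2.39792 ^ 2 := pow_le_pow_left₀ (by linarith) hv2.le 2
    have hv4 : v ^ 3 ≤ 2.39792 ^ 3 := pow_le_pow_left₀ (by linarith) hv2.le 3
    have e : (v + t - v) = t := by ring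
    rw [e]
    have k1 : 3 * v ^ 2 + 35.58 * v + 122.1 + (3 * v + 17.79) * t + t ^ 2 ≤ 18 * (35 / 8) ^ 2 := by
      nlinarith
    have k2 := mul_le_mul_of_nonneg_left k1 ht0
    norm_num at hv3 hv4 ⊢
    nlinarith
  · have h5 : (x - 3 * v) ^ 3 ≤ (max (x - 3 * v) 0) ^ 3 := by
      rcases le_or_gt 0 (x - 3 * v) with h | h
      · rw [max_eq_left h]
      · rw [max_eq_right h.le]
        have : (x - 3 * v) ^ 3 ≤ 0 := by
          have : (x - 3 * v) ^ 3 = (x - 3 * v) * (x - 3 * v) ^ 2 := by ring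
          rw [this]
          exact mul_nonpos_of_nonpos_of_nonneg h.le (sq_nonneg _)
        simpa using this
    rw [max_eq_left (by linarith), max_eq_left (by linarith)]
    have k1 : 0 ≤ -9 * v + 9 * (35 / 8) - 17.79 := by linarith
    have k2 : 0 ≤ 27 * v ^ 2 - 36 * (35 / 8) * v + 18 * (35 / 8) ^ 2 - 122.1 := by
      nlinarith
    have k3 : 0 ≤ -27 * v ^ 3 + 36 * (35 / 8) * v ^ 2 - 18 * (35 / 8) ^ 2 * v + 6 * (35 / 8) ^ 3 := by
      have hv4 : v ^ 3 ≤ 2.39792 ^ 3 := pow_le_pow_left₀ (by linarith) hv2.le 3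
      have hv5 : 2.3976 ^ 2 ≤ v ^ 2 := pow_le_pow_left₀ (by linarith) hv1.le 2
      norm_num at hv4 hv5 ⊢
      linarith
    have k4 := mul_nonneg k1 (sq_nonneg x)
    have k5 := mul_nonneg k2 hx
    nlinarith

theorem T3_poly (x : ℝ) : (8 / 35) ^ 3 / 6 * LL x ≤ T3 210 210 210 x := by
  rcases lt_or_ge x 0 with h | h
  · have h1 : T3 210 210 210 x = 0 := conv_neg _ _ h
    rw [h1]
    exact mul_nonpos_of_nonneg_of_nonpos (by norm_num) (LL_nonpos h)
  · refine le_trans ?_ (T3_lower h)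
    have h1 := poly_bound h vv_lower vv_upper
    rw [LL_eq h]
    have h2 := mul_le_mul_of_nonneg_left h1 (by norm_num : (0:ℝ) ≤ (8 / 35) ^ 3 / 6)
    refine le_trans (le_of_eq ?_) (le_trans h2 (le_of_eq ?_))
    · ring
    · ring

end Pool.Agent.Helper25
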