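import Mathlib

set_option autoImplicit false

namespace Pool.Agent.Helper25

open Finset

/-- convexity for two points, stated with weights -/
lemma convex_two {L : ℝ → ℝ} (hL : ConvexOn ℝ Set.univ L) {a b x y : ℝ} (ha : 0 ≤ a) (hb : 0 ≤ b)
    (hab : 0 < a + b) : (a + b) * L ((a * x + b * y) / (a + b)) ≤ a * L x + b * L y := by
  have h := hL.2 (Set.mem_univ x) (Set.mem_univ y)
    (show 0 ≤ a / (a + b) by positivity) (show 0 ≤ b / (a + b) by positivity)
    (show a / (a + b) + b / (a + b) = 1 by field_simp)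
  simp only [smul_eq_mul] at h
  have e1 : a / (a + b) * x + b / (a + b) * y = (a * x + b * y) / (a + b) := by
    field_simp
  rw [e1] at h
  have h2 := mul_le_mul_of_nonneg_left h hab.le
  calc (a + b) * L ((a * x + b * y) / (a + b)) ≤ (a + b) * (a / (a + b) * L x + b / (a + b) * L y) := h2
    _ = a * L x + b * L y := by field_simp

/-- lower bound for the geometric combination -/
lemma geom_lower {U L : ℝ → ℝ} (hL : ConvexOn ℝ Set.univ L) {A E lam r : ℝ}
    (hA : 0 < A) (hE : 0 ≤ E) (hlam : 0 < lam) (hr : 0 < r) (hr1 : r < 1)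
    (hneg : ∀ x < 0, L x ≤ 0) 
    (hU : ∀ x, A * L (x - E) ≤ U x) :
    ∀ n : ℕ, ∀ x : ℝ, x < n * lam →
      A / (1 - r) * L (x - E - r * lam / (1 - r)) ≤ ∑ i ∈ range n, r ^ i * U (x - i * lam) := by
  intro n
  induction n with
  | zero =>
    intro x hx
    simp only [Nat.cast_zero, zero_mul] at hx
    simp only [range_zero, sum_empty]
    have h1 : (0:ℝ) < 1 - r := by linarith
    have : L (x - E - r * lam / (1 - r)) ≤ 0 := by
      apply hneg
      have : 0 ≤ r * lam / (1 - r) := by positivity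
      linarith
    exact mul_nonpos_of_nonneg_of_nonpos (by positivity) this
  | succ n ih =>
    intro x hx
    have h1 : (0:ℝ) < 1 - r := by linarith
    have hx' : x - lam < n * lam := by push_cast at hx; linarith
    have ih' := ih (x - lam) hx'
    rw [Finset.sum_range_succ']
    simp only [pow_zero, Nat.cast_zero, zero_mul, sub_zero, one_mul]
    have e1 : ∑ k ∈ range n, r ^ (k + 1) * U (x - ((k + 1 : ℕ) : ℝ) * lam)
        = r * ∑ k ∈ range n, r ^ k * U (x - lam - k * lam) := by
      rw [Finset.mul_sum]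
      apply Finset.sum_congr rfl
      intro k _
      rw [pow_succ]
      have : x - ((k + 1 : ℕ) : ℝ) * lam = x - lam - k * lam := by push_cast; ring
      rw [this]; ring
    rw [e1]
    have h2 : r * (A / (1 - r) * L (x - lam - E - r * lam / (1 - r)))
        ≤ r * ∑ k ∈ range n, r ^ k * U (x - lam - k * lam) :=
      mul_le_mul_of_nonneg_left ih' hr.le
    have h3 := hU x
    have h4 := convex_two hL (a := A) (b := r * (A / (1 - r))) (x := x - E)
      (y := x - lam - E - r * lam / (1 - r)) hA.le (by positivity) (by positivity)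
    have e2 : A + r * (A / (1 - r)) = A / (1 - r) := by field_simp; ring
    rw [e2] at h4
    have e3 : (A * (x - E) + r * (A / (1 - r)) * (x - lam - E - r * lam / (1 - r))) / (A / (1 - r))
        = x - E - r * lam / (1 - r) := by
      field_simp; ring
    rw [e3] at h4
    linarith

lemma geom_id {U X2 X1 V : ℝ → ℝ} {a lam : ℝ} 
    (hU0 : ∀ x < 0, U x = 0)
    (h3 : ∀ x, U x = X2 x + a * U (x - lam)) (h2 : ∀ x, X2 x = X1 x + a * X2 (x - lam))
    (h1 : ∀ x, X1 x = V x + a * X1 (x - lam)) (hlam : 0 < lam) :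
    ∀ n : ℕ, ∀ x : ℝ, x < n * lam →
      ∑ i ∈ range n, (3 * a) ^ i * V (x - i * lam) =
        U x + 3 * a ^ 2 * U (x - 2 * lam)
          + 8 * a ^ 3 * ∑ i ∈ range n, (3 * a) ^ i * U (x - 3 * lam - i * lam) := by
  have hX2 : ∀ x, X2 x = U x - a * U (x - lam) := fun x => by rw [h3 x]; ring
  have hX1 : ∀ x, X1 x = U x - 2 * a * U (x - lam) + a ^ 2 * U (x - 2 * lam) := fun x => by
    have := h2 x
    rw [hX2 x, hX2 (x - lam)] at this
    have e : x - lam - lam = x - 2 * lam := by ring
    rw [e] at this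
    linear_combination -this
  have hV : ∀ x, V x = U x - 3 * a * U (x - lam) + 3 * a ^ 2 * U (x - 2 * lam)
      - a ^ 3 * U (x - 3 * lam) := fun x => by
    have := h1 x
    rw [hX1 x, hX1 (x - lam)] at this
    have e : x - lam - lam = x - 2 * lam := by ring
    have e' : x - lam - 2 * lam = x - 3 * lam := by ring
    rw [e, e'] at this
    linear_combination -this
  intro n
  induction n with
  | zero =>
    intro x hx
    simp only [Nat.cast_zero, zero_mul] at hx
    simp only [range_zero, sum_empty, mul_zero, add_zero]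
    rw [hU0 x hx, hU0 (x - 2 * lam) (by linarith)]
    ring
  | succ n ih =>
    intro x hx
    have hx' : x - lam < n * lam := by push_cast at hx; linarith
    have ih' := ih (x - lam) hx'
    rw [Finset.sum_range_succ', Finset.sum_range_succ']
    simp only [pow_zero, Nat.cast_zero, zero_mul, sub_zero, one_mul]
    have e1 : ∑ k ∈ range n, (3 * a) ^ (k + 1) * V (x - ((k + 1 : ℕ) : ℝ) * lam)
        = 3 * a * ∑ k ∈ range n, (3 * a) ^ k * V (x - lam - k * lam) := by
      rw [Finset.mul_sum]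
      apply Finset.sum_congr rfl
      intro k _
      rw [pow_succ]
      have : x - ((k + 1 : ℕ) : ℝ) * lam = x - lam - k * lam := by push_cast; ring
      rw [this]; ring
    have e2 : ∑ k ∈ range n, (3 * a) ^ (k + 1) * U (x - 3 * lam - ((k + 1 : ℕ) : ℝ) * lam)
        = 3 * a * ∑ k ∈ range n, (3 * a) ^ k * U (x - lam - 3 * lam - k * lam) := by
      rw [Finset.mul_sum]
      apply Finset.sum_congr rfl
      intro k _
      rw [pow_succ]
      have : x - 3 * lam - ((k + 1 : ℕ) : ℝ) * lam = x - lam - 3 * lam - k * lam := by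
        push_cast; ring
      rw [this]; ring
    rw [e1, e2, ih', hV x]
    have e3 : x - lam - 2 * lam = x - 3 * lam := by ring
    rw [e3]
    ring

/-- three point convexity -/
lemma convex_three {L : ℝ → ℝ} (hL : ConvexOn ℝ Set.univ L) {a b c x y z : ℝ} (ha : 0 < a)
    (hb : 0 < b) (hc : 0 < c) :
    (a + b + c) * L ((a * x + b * y + c * z) / (a + b + c)) ≤ a * L x + b * L y + c * L z := by
  have h1 := convex_two hL (a := a) (b := b) (x := x) (y := y) ha.le hb.le (by positivity)
  have h2 := convex_two hL (a := a + b) (b := c) (x := (a * x + b * y) / (a + b)) (y := z)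
    (by positivity) hc.le (by positivity)
  have e : ((a + b) * ((a * x + b * y) / (a + b)) + c * z) = a * x + b * y + c * z := by
    field_simp
  rw [e] at h2
  linarith

theorem switch {U X2 X1 V L : ℝ → ℝ} (hL : ConvexOn ℝ Set.univ L) {A E lam p : ℝ}
    (hA : 0 < A) (hp : 3 < p) (hlam : 0 < lam) (hE : 0 ≤ E)
    (hneg : ∀ x < 0, L x ≤ 0)
    (hU0 : ∀ x < 0, U x = 0)
    (h3 : ∀ x, U x = X2 x + 1 / p * U (x - lam)) (h2 : ∀ x, X2 x = X1 x + 1 / p * X2 (x - lam))
    (h1 : ∀ x, X1 x = V x + 1 / p * X1 (x - lam))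
    (hVm : Monotone V) (hV0 : ∀ x, 0 ≤ V x)
    (hU : ∀ x, A * L (x - E) ≤ U x) (x : ℝ) :
    A * ((1 - 1 / p) ^ 3 / (1 - 3 / p)) * L (x - E - 6 * lam / ((p - 1) * (p - 3)))
      ≤ V x + 3 / (p - 3) * V (x - lam) := by
  obtain ⟨n, hn⟩ := exists_nat_gt (x / lam)
  have hn' : x < n * lam := by rwa [div_lt_iff₀ hlam] at hn
  have hp0 : (0:ℝ) < p := by linarith
  have hp3 : (0:ℝ) < p - 3 := by linarith
  have hp1 : (0:ℝ) < p - 1 := by linarith
  have hr : (0:ℝ) < 3 / p := by positivity
  have hr1 : 3 / p < 1 := by rw [div_lt_one hp0]; exact hp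
  have key := geom_id (a := 1 / p) hU0 h3 h2 h1 hlam n x hn'
  have e0 : 3 * (1 / p) = 3 / p := by ring
  rw [e0] at key
  -- upper bound of the left side
  have hW : ∑ i ∈ range n, (3 / p) ^ i * V (x - i * lam) ≤ V x + 3 / (p - 3) * V (x - lam) := by
    rcases n with _ | n
    · simp only [range_zero, sum_empty]
      have := hV0 x
      have := hV0 (x - lam)
      positivity
    · rw [Finset.sum_range_succ']
      simp only [pow_zero, Nat.cast_zero, zero_mul, sub_zero, one_mul]
      have hle : ∑ k ∈ range n, (3 / p) ^ (k + 1) * V (x - ((k + 1 : ℕ) : ℝ) * lam)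
          ≤ ∑ k ∈ range n, (3 / p) ^ (k + 1) * V (x - lam) := by
        apply Finset.sum_le_sum
        intro k _
        apply mul_le_mul_of_nonneg_left _ (by positivity)
        apply hVm
        push_cast
        nlinarith [(Nat.cast_nonneg k : (0:ℝ) ≤ k)]
      have hgeo : ∑ k ∈ range n, (3 / p) ^ (k + 1) ≤ 3 / (p - 3) := by
        have : ∑ k ∈ range n, (3 / p) ^ (k + 1) = 3 / p * ∑ k ∈ range n, (3 / p) ^ k := by
          rw [Finset.mul_sum]; apply Finset.sum_congr rfl; intro k _; rw [pow_succ]; ring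
        rw [this]
        have h5 : ∑ k ∈ range n, (3 / p) ^ k ≤ (1 - 3 / p)⁻¹ := by
          have := geom_sum_eq (ne_of_lt hr1) n
          rw [this]
          have h6 : ((3 / p) ^ n - 1) / (3 / p - 1) = (1 - (3 / p) ^ n) * (1 - 3 / p)⁻¹ := by
            have g1 : (3:ℝ) / p - 1 ≠ 0 := by linarith
            have g2 : (1:ℝ) - 3 / p ≠ 0 := by linarith
            rw [div_eq_iff g1]
            have g3 : (1 - 3 / p)⁻¹ * (1 - 3 / p) = 1 := inv_mul_cancel₀ g2
            linear_combination (1 - (3 / p) ^ n) * g3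
          rw [h6]
          have h7 : (0:ℝ) ≤ (1 - 3 / p)⁻¹ := by
            apply inv_nonneg.mpr; linarith
          have h8 : (0:ℝ) ≤ (3 / p) ^ n := by positivity
          nlinarith
        calc 3 / p * ∑ k ∈ range n, (3 / p) ^ k ≤ 3 / p * (1 - 3 / p)⁻¹ :=
              mul_le_mul_of_nonneg_left h5 hr.le
          _ = 3 / (p - 3) := by
              have : (1:ℝ) - 3 / p ≠ 0 := by linarith
              field_simp
      rw [← Finset.sum_mul] at hle
      have := mul_le_mul_of_nonneg_right hgeo (hV0 (x - lam))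
      linarith
  have hZ := geom_lower (U := U) (L := L) hL (A := A) (E := E) (lam := lam) (r := 3 / p) hA hE
    hlam hr hr1 hneg hU n (x - 3 * lam) (by linarith)
  have hU1 := hU x
  have hU2 := hU (x - 2 * lam)
  have hB : A * L (x - E) + 3 * (1 / p) ^ 2 * (A * L (x - 2 * lam - E))
      + 8 * (1 / p) ^ 3 * (A / (1 - 3 / p) * L (x - 3 * lam - E - 3 / p * lam / (1 - 3 / p)))
      ≤ V x + 3 / (p - 3) * V (x - lam) := by
    refine le_trans ?_ hW
    rw [key]
    have q1 : 3 * (1 / p) ^ 2 * (A * L (x - 2 * lam - E)) ≤ 3 * (1 / p) ^ 2 * U (x - 2 * lam) :=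
      mul_le_mul_of_nonneg_left hU2 (by positivity)
    have q2 : 8 * (1 / p) ^ 3 * (A / (1 - 3 / p) * L (x - 3 * lam - E - 3 / p * lam / (1 - 3 / p)))
        ≤ 8 * (1 / p) ^ 3 * ∑ i ∈ range n, (3 / p) ^ i * U (x - 3 * lam - i * lam) :=
      mul_le_mul_of_nonneg_left hZ (by positivity)
    linarith
  refine le_trans ?_ hB
  have h13 : (0:ℝ) < 1 - 3 / p := by linarith
  have h4 := convex_three hL (a := A) (b := 3 * (1 / p) ^ 2 * A)
    (c := 8 * (1 / p) ^ 3 * (A / (1 - 3 / p))) (x := x - E) (y := x - 2 * lam - E)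
    (z := x - 3 * lam - E - 3 / p * lam / (1 - 3 / p)) hA (by positivity) (by positivity)
  have f1 : A + 3 * (1 / p) ^ 2 * A + 8 * (1 / p) ^ 3 * (A / (1 - 3 / p))
      = A * ((1 - 1 / p) ^ 3 / (1 - 3 / p)) := by
    have : p - 3 ≠ 0 := ne_of_gt hp3
    have h14 : (1:ℝ) - 3 / p = (p - 3) / p := by field_simp
    rw [h14]
    field_simp
    ring
  have f2 : (A * (x - E) + 3 * (1 / p) ^ 2 * A * (x - 2 * lam - E) + 8 * (1 / p) ^ 3
      * (A / (1 - 3 / p)) * (x - 3 * lam - E - 3 / p * lam / (1 - 3 / p))) /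
      (A * ((1 - 1 / p) ^ 3 / (1 - 3 / p))) = x - E - 6 * lam / ((p - 1) * (p - 3)) := by
    have h14 : (1:ℝ) - 3 / p = (p - 3) / p := by field_simp
    have h15 : (1:ℝ) - 1 / p = (p - 1) / p := by field_simp
    rw [h14, h15]
    have : p - 3 ≠ 0 := ne_of_gt hp3
    have : p - 1 ≠ 0 := ne_of_gt hp1
    field_simp
    ring
  rw [f1, f2] at h4
  linarith

end Pool.Agent.Helper25
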