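import Mathlib
import Pool.Agent.Helper25.Poly
import Pool.Agent.Helper25.Switch

set_option autoImplicit false

namespace Pool.Agent.Helper25

open Finset

/-- the local density g(p) = w(p)/(p-w(p)) of the sieve -/
noncomputable def gg (p : ℕ) : ℝ := if p = 2 then 1 else if p = 3 then 2 else 3 / ((p : ℝ) - 3)

lemma gg_pos {p : ℕ} (hp : p.Prime) : 0 < gg p := by
  unfold gg
  split_ifs with h1 h2
  · norm_num
  · norm_num
  · have : 3 < p := by
      have := hp.two_le
      omega
    have h3 : (3:ℝ) < p := by exact_mod_cast this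
    apply div_pos <;> linarith

/-- sum over the subsets of a set of primes -/
noncomputable def Gs (P : Finset ℕ) (F : ℝ → ℝ) (x : ℝ) : ℝ :=
  ∑ s ∈ P.powerset, (∏ p ∈ s, gg p) * F (x - ∑ p ∈ s, Real.log p)

lemma Gs_insert {P : Finset ℕ} {p : ℕ} (hp : p ∉ P) (F : ℝ → ℝ) (x : ℝ) :
    Gs (insert p P) F x = Gs P F x + gg p * Gs P F (x - Real.log p) := by
  unfold Gs
  rw [Finset.sum_powerset_insert hp, Finset.mul_sum]
  congr 1
  apply Finset.sum_congr rfl
  intro s hs
  have hps : p ∉ s := fun h => hp (Finset.mem_powerset.mp hs h)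
  rw [Finset.prod_insert hps, Finset.sum_insert hps]
  have : x - (Real.log p + ∑ q ∈ s, Real.log q) = x - Real.log p - ∑ q ∈ s, Real.log q := by ring
  rw [this]
  ring

lemma Gs_rel {P : Finset ℕ} {F G H : ℝ → ℝ} {c lam : ℝ} (h : ∀ y, F y = G y + c * H (y - lam)) (x : ℝ) :
    Gs P F x = Gs P G x + c * Gs P H (x - lam) := by
  unfold Gs
  rw [Finset.mul_sum, ← Finset.sum_add_distrib]
  apply Finset.sum_congr rfl
  intro s _
  rw [h]
  have : x - ∑ p ∈ s, Real.log p - lam = x - lam - ∑ p ∈ s, Real.log p := by ring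
  rw [this]
  ring

lemma Gs_nonneg {P : Finset ℕ} (hP : ∀ p ∈ P, p.Prime) {F : ℝ → ℝ} (hF : ∀ y, 0 ≤ F y) (x : ℝ) :
    0 ≤ Gs P F x := by
  unfold Gs
  apply Finset.sum_nonneg
  intro s hs
  apply mul_nonneg _ (hF _)
  apply Finset.prod_nonneg
  intro p hp
  exact (gg_pos (hP p (Finset.mem_powerset.mp hs hp))).le

lemma Gs_mono {P : Finset ℕ} (hP : ∀ p ∈ P, p.Prime) {F : ℝ → ℝ} (hF : Monotone F) :
    Monotone (Gs P F) := by
  intro x y hxy
  unfold Gs
  apply Finset.sum_le_sum
  intro s hs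
  apply mul_le_mul_of_nonneg_left
  · apply hF
    linarith
  · apply Finset.prod_nonneg
    intro p hp
    exact (gg_pos (hP p (Finset.mem_powerset.mp hs hp))).le

lemma Gs_zero {P : Finset ℕ} (hP : ∀ p ∈ P, p.Prime) {F : ℝ → ℝ} (hF : ∀ y < 0, F y = 0) {x : ℝ}
    (hx : x < 0) : Gs P F x = 0 := by
  unfold Gs
  apply Finset.sum_eq_zero
  intro s hs
  rw [hF, mul_zero]
  have : 0 ≤ ∑ p ∈ s, Real.log p := by
    apply Finset.sum_nonneg
    intro p hp
    apply Real.log_nonneg
    exact_mod_cast (hP p (Finset.mem_powerset.mp hs hp)).one_lt.le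
  linarith

lemma T3_nonneg (a b c : ℕ) (x : ℝ) : 0 ≤ T3 a b c x :=
  conv_nonneg a (conv_nonneg b (conv_nonneg c step_nonneg)) x

lemma T3_mono (a b c : ℕ) : Monotone (T3 a b c) :=
  conv_monotone a (conv_monotone b (conv_monotone c step_mono step_nonneg)
    (conv_nonneg c step_nonneg)) (conv_nonneg b (conv_nonneg c step_nonneg))

lemma T3_zero (a b c : ℕ) {x : ℝ} (hx : x < 0) : T3 a b c x = 0 := conv_neg a _ hx

lemma T3_rel3 {m p : ℕ} (hp : p.Prime) (hmp : Nat.Coprime m p) (x : ℝ) :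
    T3 m m m x = T3 (m * p) m m x + 1 / (p : ℝ) * T3 m m m (x - Real.log p) :=
  conv_split m p hp hmp _ x

lemma T3_rel2 {m p : ℕ} (hp : p.Prime) (hmp : Nat.Coprime m p) (x : ℝ) :
    T3 (m * p) m m x = T3 (m * p) (m * p) m x + 1 / (p : ℝ) * T3 (m * p) m m (x - Real.log p) := by
  unfold T3
  apply conv_add_shift (m * p) (Real.log_nonneg (by exact_mod_cast hp.one_lt.le))
  · intro y hy; exact conv_neg _ _ hy
  · intro y; exact conv_split m p hp hmp _ y

lemma T3_rel1 {m p : ℕ} (hp : p.Prime) (hmp : Nat.Coprime m p) (x : ℝ) :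
    T3 (m * p) (m * p) m x = T3 (m * p) (m * p) (m * p) x
      + 1 / (p : ℝ) * T3 (m * p) (m * p) m (x - Real.log p) := by
  have hl : 0 ≤ Real.log p := Real.log_nonneg (by exact_mod_cast hp.one_lt.le)
  unfold T3
  apply conv_add_shift (m * p) hl
  · intro y hy; exact conv_neg _ _ hy
  · intro y
    apply conv_add_shift (m * p) hl
    · intro y hy; exact conv_neg _ _ hy
    · intro y; exact conv_split m p hp hmp _ y

/-- the induction over large primes -/
theorem large_primes (P : Finset ℕ) : (∀ p ∈ P, p.Prime ∧ 11 ≤ p) → ∀ x : ℝ,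
    (8 / 35) ^ 3 / 6 * (∏ p ∈ P, (1 - 1 / (p : ℝ)) ^ 3 / (1 - 3 / (p : ℝ)))
      * LL (x - ∑ p ∈ P, 6 * Real.log p / (((p : ℝ) - 1) * ((p : ℝ) - 3)))
      ≤ Gs P (T3 (210 * ∏ p ∈ P, p) (210 * ∏ p ∈ P, p) (210 * ∏ p ∈ P, p)) x := by
  induction P using Finset.induction_on with
  | empty =>
    intro _ x
    have h := T3_poly x
    simp only [Finset.prod_empty, Finset.sum_empty, mul_one, sub_zero]
    have e : Gs ∅ (T3 210 210 210) x = T3 210 210 210 x := by
      unfold Gs
      simp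
    rw [e]
    exact h
  | insert p P hpP ih =>
    intro hall x
    have hP : ∀ q ∈ P, q.Prime ∧ 11 ≤ q := fun q hq => hall q (Finset.mem_insert_of_mem hq)
    have hP' : ∀ q ∈ P, q.Prime := fun q hq => (hP q hq).1
    obtain ⟨hp, hp11⟩ := hall p (Finset.mem_insert_self p P)
    have ih' := ih hP
    set M := 210 * ∏ q ∈ P, q with hM
    have hMp : 210 * ∏ q ∈ insert p P, q = M * p := by
      rw [Finset.prod_insert hpP, hM]; ring
    have hcop : Nat.Coprime M p := by
      rw [hM]
      apply Nat.Coprime.mul_left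
      · have h210 : (210 : ℕ) = 2 * 3 * 5 * 7 := by norm_num
        rw [h210]
        have aux : ∀ q : ℕ, q.Prime → q < 11 → Nat.Coprime q p := by
          intro q hq hq11
          rw [Nat.coprime_primes hq hp]
          omega
        exact Nat.Coprime.mul_left (Nat.Coprime.mul_left (Nat.Coprime.mul_left
          (aux 2 (by norm_num) (by norm_num)) (aux 3 (by norm_num) (by norm_num)))
          (aux 5 (by norm_num) (by norm_num))) (aux 7 (by norm_num) (by norm_num))
      · apply Nat.Coprime.prod_left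
        intro q hq
        rw [Nat.coprime_primes (hP' q hq) hp]
        rintro rfl
        exact hpP hq
    have hp11' : (11:ℝ) ≤ p := by exact_mod_cast hp11
    have hgg : gg p = 3 / ((p:ℝ) - 3) := by
      unfold gg
      rw [if_neg (by omega), if_neg (by omega)]
    have hA : (0:ℝ) < (8 / 35) ^ 3 / 6 * (∏ q ∈ P, (1 - 1 / (q : ℝ)) ^ 3 / (1 - 3 / (q : ℝ))) := by
      apply mul_pos (by norm_num)
      apply Finset.prod_pos
      intro q hq
      have h11 : (11:ℝ) ≤ q := by exact_mod_cast (hP q hq).2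
      have h1 : (0:ℝ) < 1 - 1 / (q : ℝ) := by
        rw [sub_pos, div_lt_one (by linarith)]; linarith
      have h2 : (0:ℝ) < 1 - 3 / (q : ℝ) := by
        rw [sub_pos, div_lt_one (by linarith)]; linarith
      positivity
    have hE : (0:ℝ) ≤ ∑ q ∈ P, 6 * Real.log q / (((q : ℝ) - 1) * ((q : ℝ) - 3)) := by
      apply Finset.sum_nonneg
      intro q hq
      have h11 : (11:ℝ) ≤ q := by exact_mod_cast (hP q hq).2
      have hl : 0 ≤ Real.log q := Real.log_nonneg (by linarith)
      have h1 : (0:ℝ) < (q : ℝ) - 1 := by linarith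
      have h2 : (0:ℝ) < (q : ℝ) - 3 := by linarith
      positivity
    have key := switch (U := Gs P (T3 M M M)) (X2 := Gs P (T3 (M * p) M M))
      (X1 := Gs P (T3 (M * p) (M * p) M)) (V := Gs P (T3 (M * p) (M * p) (M * p)))
      LL_convex (p := (p : ℝ)) (lam := Real.log p) hA (by linarith) (Real.log_pos (by linarith)) hE
      (fun x hx => LL_nonpos hx) (fun x hx => Gs_zero hP' (fun y hy => T3_zero _ _ _ hy) hx)
      (fun x => Gs_rel (fun y => T3_rel3 hp hcop y) x)
      (fun x => Gs_rel (fun y => T3_rel2 hp hcop y) x)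
      (fun x => Gs_rel (fun y => T3_rel1 hp hcop y) x)
      (Gs_mono hP' (T3_mono _ _ _)) (Gs_nonneg hP' (T3_nonneg _ _ _)) ih' x
    rw [hMp, Gs_insert hpP, hgg, Finset.prod_insert hpP, Finset.sum_insert hpP]
    refine le_trans (le_of_eq ?_) key
    have e : x - (6 * Real.log p / (((p:ℝ) - 1) * ((p:ℝ) - 3))
        + ∑ q ∈ P, 6 * Real.log q / (((q : ℝ) - 1) * ((q : ℝ) - 3)))
        = x - ∑ q ∈ P, 6 * Real.log q / (((q : ℝ) - 1) * ((q : ℝ) - 3))
          - 6 * Real.log p / (((p:ℝ) - 1) * ((p:ℝ) - 3)) := by ring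
    rw [e]
    ring

/-- adding one prime by plain convexity -/
lemma add_prime {P : Finset ℕ} {p : ℕ} (hpp : p.Prime) (hp : p ∉ P) {F : ℝ → ℝ} {A E : ℝ} (hA : 0 < A)
    (h : ∀ x, A * LL (x - E) ≤ Gs P F x) (x : ℝ) :
    A * (1 + gg p) * LL (x - (E + gg p * Real.log p / (1 + gg p))) ≤ Gs (insert p P) F x := by
  rw [Gs_insert hp]
  have hg := gg_pos hpp
  have h1 := h x
  have h2 := mul_le_mul_of_nonneg_left (h (x - Real.log p)) hg.le
  have h3 := convex_two LL_convex (a := A) (b := gg p * A) (x := x - E) (y := x - Real.log p - E)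
    hA.le (by positivity) (by positivity)
  have e1 : (A * (x - E) + gg p * A * (x - Real.log p - E)) / (A + gg p * A)
      = x - (E + gg p * Real.log p / (1 + gg p)) := by
    field_simp
    ring
  rw [e1] at h3
  linarith

end Pool.Agent.Helper25
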