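import Mathlib
import Pool.Agent.Helper25.Poly

set_option autoImplicit false

namespace Pool.Agent.Helper25

open Finset

/-- the logarithmic shift attached to a prime -/
noncomputable def ee (n : ℕ) : ℝ := 6 * Real.log n / (((n : ℝ) - 1) * ((n : ℝ) - 3))

lemma ee_nonneg {n : ℕ} (h : 4 ≤ n) : 0 ≤ ee n := by
  unfold ee
  have h1 : (4:ℝ) ≤ n := by exact_mod_cast h
  have h2 : 0 ≤ Real.log n := Real.log_nonneg (by linarith)
  have h3 : (0:ℝ) < (n:ℝ) - 1 := by linarith
  have h4 : (0:ℝ) < (n:ℝ) - 3 := by linarith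
  positivity

noncomputable def Phi (k : ℕ) : ℝ := (Real.log (6 * k) + 1) / (3 * ((k : ℝ) - 1))

lemma pair_bound {k : ℕ} (hk : 2 ≤ k) : ee (6 * k - 1) + ee (6 * k + 1) ≤ Phi k - Phi (k + 1) := by
  have hk' : (2:ℝ) ≤ k := by exact_mod_cast hk
  have hL0 : 0 ≤ Real.log (6 * k) := Real.log_nonneg (by linarith)
  have hlog1 : Real.log ((6 * k + 1 : ℕ) : ℝ) ≤ Real.log (6 * k) + 1 / (6 * k) := by
    have h1 : ((6 * k + 1 : ℕ) : ℝ) = 6 * k * (1 + 1 / (6 * k)) := by
      push_cast; field_simp
    rw [h1, Real.log_mul (by positivity) (by positivity)]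
    have := Real.log_le_sub_one_of_pos (x := 1 + 1 / (6 * (k:ℝ))) (by positivity)
    linarith
  have hlog0 : Real.log ((6 * k - 1 : ℕ) : ℝ) ≤ Real.log (6 * k) + 1 / (6 * k) := by
    have h1 : ((6 * k - 1 : ℕ) : ℝ) = 6 * k - 1 := by
      rw [Nat.cast_sub (by omega)]; push_cast; ring
    rw [h1]
    have h2 : Real.log (6 * (k:ℝ) - 1) ≤ Real.log (6 * k) := Real.log_le_log (by linarith) (by linarith)
    have : (0:ℝ) < 1 / (6 * k) := by positivity
    linarith
  set B := Real.log (6 * k) + 1 / (6 * (k:ℝ)) with hB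
  have hB0 : 0 ≤ B := by
    have : (0:ℝ) < 1 / (6 * k) := by positivity
    linarith
  have h1 : ee (6 * k - 1) ≤ 6 * B / ((6 * k - 2) * (6 * k - 4)) := by
    unfold ee
    have e1 : ((6 * k - 1 : ℕ) : ℝ) = 6 * k - 1 := by
      rw [Nat.cast_sub (by omega)]; push_cast; ring
    rw [e1] at hlog0 ⊢
    have e2 : (6 * (k:ℝ) - 1 - 1) * (6 * k - 1 - 3) = (6 * k - 2) * (6 * k - 4) := by ring
    rw [e2]
    apply div_le_div_of_nonneg_right _ (by nlinarith)
    linarith
  have h2 : ee (6 * k + 1) ≤ 6 * B / ((6 * k - 2) * (6 * k - 4)) := by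
    unfold ee
    have e1 : ((6 * k + 1 : ℕ) : ℝ) = 6 * k + 1 := by push_cast; ring
    rw [e1] at hlog1 ⊢
    have e2 : (6 * (k:ℝ) + 1 - 1) * (6 * k + 1 - 3) = (6 * k) * (6 * k - 2) := by ring
    rw [e2]
    have h3 : 6 * Real.log (6 * (k:ℝ) + 1) / (6 * k * (6 * k - 2)) ≤ 6 * B / (6 * k * (6 * k - 2)) := by
      apply div_le_div_of_nonneg_right _ (by nlinarith)
      linarith
    refine h3.trans ?_
    apply div_le_div_of_nonneg_left (by linarith) (by nlinarith) (by nlinarith)
  have h3 : 6 * B / ((6 * k - 2) * (6 * k - 4)) + 6 * B / ((6 * k - 2) * (6 * k - 4))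
      ≤ B / (3 * k * (k - 1)) := by
    have h4 : 6 * B / ((6 * k - 2) * (6 * k - 4)) ≤ 6 * B / (36 * k * (k - 1)) := by
      apply div_le_div_of_nonneg_left (by linarith) (by nlinarith) (by nlinarith)
    have h5 : 6 * B / (36 * k * ((k:ℝ) - 1)) + 6 * B / (36 * k * ((k:ℝ) - 1)) = B / (3 * k * (k - 1)) := by
      have : (k:ℝ) - 1 ≠ 0 := by linarith
      field_simp
      ring
    linarith
  have hlog2 : Real.log (6 * ((k + 1 : ℕ) : ℝ)) ≤ Real.log (6 * k) + 1 / k := by
    have h1 : (6 * ((k + 1 : ℕ) : ℝ)) = 6 * k * (1 + 1 / k) := by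
      push_cast; field_simp
    rw [h1, Real.log_mul (by positivity) (by positivity)]
    have := Real.log_le_sub_one_of_pos (x := 1 + 1 / (k:ℝ)) (by positivity)
    linarith
  have h6 : B / (3 * k * (k - 1)) ≤ Phi k - Phi (k + 1) := by
    unfold Phi
    have hk1 : (0:ℝ) < (k:ℝ) - 1 := by linarith
    have hk0 : (0:ℝ) < (k:ℝ) := by linarith
    have e1 : ((k + 1 : ℕ) : ℝ) - 1 = k := by push_cast; ring
    rw [e1]
    have h7 : (Real.log (6 * ((k + 1 : ℕ) : ℝ)) + 1) / (3 * k) ≤ (Real.log (6 * k) + 1 / k + 1) / (3 * k) := by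
      apply div_le_div_of_nonneg_right _ (by positivity)
      linarith
    refine le_trans ?_ (sub_le_sub_left h7 _)
    have h8 : (Real.log (6 * k) + 1) / (3 * ((k:ℝ) - 1)) - (Real.log (6 * k) + 1 / k + 1) / (3 * k)
        = (Real.log (6 * k) + 1 / k) / (3 * k * (k - 1)) := by
      field_simp
      ring
    rw [h8]
    apply div_le_div_of_nonneg_right _ (by positivity)
    rw [hB]
    have : (1:ℝ) / (6 * k) ≤ 1 / k := by
      apply div_le_div_of_nonneg_left (by norm_num) hk0 (by linarith)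
    linarith
  linarith

lemma tail_sum (k : ℕ) (hk : 17 ≤ k) :
    ∑ p ∈ (Ico 101 (6 * k - 1)).filter Nat.Prime, ee p ≤ Phi 17 - Phi k := by
  induction k, hk using Nat.le_induction with
  | base => simp
  | succ k hk ih =>
    have h1 : (Ico 101 (6 * (k + 1) - 1)).filter Nat.Prime
        ⊆ (Ico 101 (6 * k - 1)).filter Nat.Prime ∪ {6 * k - 1, 6 * k + 1} := by
      intro p hp
      simp only [mem_filter, mem_Ico, mem_union, mem_insert, mem_singleton] at hp ⊢
      obtain ⟨⟨h1, h2⟩, h3⟩ := hp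
      by_cases h4 : p < 6 * k - 1
      · left; exact ⟨⟨h1, h4⟩, h3⟩
      · right
        have h5 : ¬ 2 ∣ p := by
          intro h
          have := (Nat.prime_dvd_prime_iff_eq Nat.prime_two h3).mp h
          omega
        have h6 : ¬ 3 ∣ p := by
          intro h
          have := (Nat.prime_dvd_prime_iff_eq Nat.prime_three h3).mp h
          omega
        omega
    have h2 : ∀ p ∈ (Ico 101 (6 * k - 1)).filter Nat.Prime ∪ {6 * k - 1, 6 * k + 1},
        p ∉ (Ico 101 (6 * (k + 1) - 1)).filter Nat.Prime → 0 ≤ ee p := by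
      intro p hp _
      apply ee_nonneg
      simp only [mem_filter, mem_Ico, mem_union, mem_insert, mem_singleton] at hp
      omega
    have h3 := Finset.sum_le_sum_of_subset_of_nonneg h1 h2
    have h4 : ∑ p ∈ (Ico 101 (6 * k - 1)).filter Nat.Prime ∪ {6 * k - 1, 6 * k + 1}, ee p
        ≤ ∑ p ∈ (Ico 101 (6 * k - 1)).filter Nat.Prime, ee p
          + ∑ p ∈ ({6 * k - 1, 6 * k + 1} : Finset ℕ), ee p := by
      rw [← Finset.sum_union_inter]
      have : 0 ≤ ∑ p ∈ (Ico 101 (6 * k - 1)).filter Nat.Prime ∩ {6 * k - 1, 6 * k + 1}, ee p := by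
        apply Finset.sum_nonneg
        intro p hp
        apply ee_nonneg
        simp only [mem_inter, mem_filter, mem_Ico] at hp
        omega
      linarith
    have h5 : ∑ p ∈ ({6 * k - 1, 6 * k + 1} : Finset ℕ), ee p = ee (6 * k - 1) + ee (6 * k + 1) := by
      rw [Finset.sum_pair (by omega)]
    have h6 := pair_bound (k := k) (by omega)
    linarith

lemma Phi_nonneg {k : ℕ} (hk : 2 ≤ k) : 0 ≤ Phi k := by
  unfold Phi
  have hk' : (2:ℝ) ≤ k := by exact_mod_cast hk
  have hL0 : 0 ≤ Real.log (6 * k) := Real.log_nonneg (by linarith)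
  have : (0:ℝ) < (k:ℝ) - 1 := by linarith
  positivity

lemma Phi17 : Phi 17 ≤ 0.1175 := by
  unfold Phi
  have := log_le_of_pow (t := 102) (by norm_num) (k := 32) (m := 214) (by norm_num) (by norm_num)
  norm_num at this ⊢
  rw [div_le_div_iff₀ (by norm_num) (by norm_num)]
  linarith

lemma first_sum : ∑ p ∈ (Icc 11 100).filter Nat.Prime, ee p ≤ 0.6548 := by
  have hset : (Icc 11 100).filter Nat.Prime = {11, 13, 17, 19, 23, 29, 31, 37, 41, 43, 47, 53, 59,
      61, 67, 71, 73, 79, 83, 89, 97} := by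
    decide +kernel
  rw [hset]
  have l11 := log_le_of_pow (t := 11) (by norm_num) (k := 32) (m := 111) (by norm_num) (by norm_num)
  have l13 := log_le_of_pow (t := 13) (by norm_num) (k := 32) (m := 119) (by norm_num) (by norm_num)
  have l17 := log_le_of_pow (t := 17) (by norm_num) (k := 32) (m := 131) (by norm_num) (by norm_num)
  have l19 := log_le_of_pow (t := 19) (by norm_num) (k := 32) (m := 136) (by norm_num) (by norm_num)
  have l23 := log_le_of_pow (t := 23) (by norm_num) (k := 32) (m := 145) (by norm_num) (by norm_num)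
  have l29 := log_le_of_pow (t := 29) (by norm_num) (k := 32) (m := 156) (by norm_num) (by norm_num)
  have l31 := log_le_of_pow (t := 31) (by norm_num) (k := 32) (m := 159) (by norm_num) (by norm_num)
  have l37 := log_le_of_pow (t := 37) (by norm_num) (k := 32) (m := 167) (by norm_num) (by norm_num)
  have l41 := log_le_of_pow (t := 41) (by norm_num) (k := 32) (m := 172) (by norm_num) (by norm_num)
  have l43 := log_le_of_pow (t := 43) (by norm_num) (k := 32) (m := 174) (by norm_num) (by norm_num)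
  have l47 := log_le_of_pow (t := 47) (by norm_num) (k := 32) (m := 178) (by norm_num) (by norm_num)
  have l53 := log_le_of_pow (t := 53) (by norm_num) (k := 32) (m := 184) (by norm_num) (by norm_num)
  have l59 := log_le_of_pow (t := 59) (by norm_num) (k := 32) (m := 189) (by norm_num) (by norm_num)
  have l61 := log_le_of_pow (t := 61) (by norm_num) (k := 32) (m := 190) (by norm_num) (by norm_num)
  have l67 := log_le_of_pow (t := 67) (by norm_num) (k := 32) (m := 195) (by norm_num) (by norm_num)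
  have l71 := log_le_of_pow (t := 71) (by norm_num) (k := 32) (m := 197) (by norm_num) (by norm_num)
  have l73 := log_le_of_pow (t := 73) (by norm_num) (k := 32) (m := 199) (by norm_num) (by norm_num)
  have l79 := log_le_of_pow (t := 79) (by norm_num) (k := 32) (m := 202) (by norm_num) (by norm_num)
  have l83 := log_le_of_pow (t := 83) (by norm_num) (k := 32) (m := 205) (by norm_num) (by norm_num)
  have l89 := log_le_of_pow (t := 89) (by norm_num) (k := 32) (m := 208) (by norm_num) (by norm_num)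
  have l97 := log_le_of_pow (t := 97) (by norm_num) (k := 32) (m := 212) (by norm_num) (by norm_num)
  repeat rw [Finset.sum_insert (by decide)]
  rw [Finset.sum_singleton]
  unfold ee
  norm_num at l11 l13 l17 l19 l23 l29 l31 l37 l41 l43 l47 l53 l59 l61 l67 l71 l73 l79 l83 l89 l97 ⊢
  linarith

lemma shift_sum (z : ℕ) : ∑ p ∈ (Icc 11 z).filter Nat.Prime, ee p ≤ 0.7723 := by
  obtain ⟨k, hk17, hkz⟩ : ∃ k, 17 ≤ k ∧ z < 6 * k - 1 := ⟨z + 17, by omega, by omega⟩
  have h1 : (Icc 11 z).filter Nat.Prime ⊆ (Icc 11 100).filter Nat.Prime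
      ∪ (Ico 101 (6 * k - 1)).filter Nat.Prime := by
    intro p hp
    simp only [mem_filter, mem_Icc, mem_Ico, mem_union] at hp ⊢
    by_cases h : p ≤ 100
    · left; exact ⟨⟨hp.1.1, h⟩, hp.2⟩
    · right; exact ⟨⟨by omega, by omega⟩, hp.2⟩
  have h2 := Finset.sum_le_sum_of_subset_of_nonneg (f := ee) h1 (by
    intro p hp _
    apply ee_nonneg
    simp only [mem_filter, mem_Icc, mem_Ico, mem_union] at hp
    omega)
  have hdis : Disjoint ((Icc 11 100).filter Nat.Prime) ((Ico 101 (6 * k - 1)).filter Nat.Prime) := by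
    rw [Finset.disjoint_left]
    intro p hp hq
    simp only [mem_filter, mem_Icc, mem_Ico] at hp hq
    omega
  rw [Finset.sum_union hdis] at h2
  have h3 := first_sum
  have h4 := tail_sum k hk17
  have h5 := Phi_nonneg (k := k) (by omega)
  have h6 := Phi17
  linarith

end Pool.Agent.Helper25
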