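import Mathlib
import Pool.Agent.Helper25.GSum
import Pool.Agent.Helper25.Shift

set_option autoImplicit false

namespace Pool.Agent.Helper25

open Finset

/-- the sieve sum -/
noncomputable def G (n : ℕ) : ℝ := ∑ q ∈ (Icc 1 n).filter Squarefree, ∏ p ∈ q.primeFactors, gg p

/-- the product defining the constant -/
noncomputable def DD (K : ℕ) : ℝ := (9 / 2 : ℝ) *
  ∏ p ∈ (range K).filter (fun p => p.Prime ∧ 3 < p), ((p : ℝ) ^ 2 * ((p : ℝ) - 3) / ((p : ℝ) - 1) ^ 3)

lemma conv_le_of_dvd {M z : ℕ} (hM : ∀ p, p.Prime → p ≤ z → p ∣ M) {F : ℝ → ℝ} {x y : ℝ}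
    (hx : ⌊Real.exp x⌋₊ ≤ z) (hy : y ≤ x) (hF0 : ∀ u, 0 ≤ F u) : conv M F y ≤ F y := by
  unfold conv
  have h1 : (Icc 1 ⌊Real.exp y⌋₊).filter (fun a => Nat.Coprime M a) ⊆ {1} := by
    intro a ha
    rw [mem_filter, mem_Icc] at ha
    obtain ⟨⟨h1, h2⟩, h3⟩ := ha
    rw [mem_singleton]
    by_contra hne
    have h4 : a ≤ z := by
      have : ⌊Real.exp y⌋₊ ≤ ⌊Real.exp x⌋₊ := Nat.floor_le_floor (Real.exp_le_exp.mpr hy)
      omega
    obtain ⟨p, hp, hpa⟩ := Nat.exists_prime_and_dvd hne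
    have h5 : p ∣ M := hM p hp ((Nat.le_of_dvd (by omega) hpa).trans h4)
    have h6 : p ∣ 1 := by
      have := Nat.dvd_gcd h5 hpa
      rwa [h3] at this
    exact hp.one_lt.ne' (Nat.dvd_one.mp h6)
  calc ∑ a ∈ (Icc 1 ⌊Real.exp y⌋₊).filter (fun a => Nat.Coprime M a), 1 / (a : ℝ) * F (y - Real.log a)
      ≤ ∑ a ∈ ({1} : Finset ℕ), 1 / (a : ℝ) * F (y - Real.log a) := by
        apply Finset.sum_le_sum_of_subset_of_nonneg h1
        intro a _ _
        exact mul_nonneg (by positivity) (hF0 _)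
    _ = F y := by simp

lemma conv_le_step {M z : ℕ} (hM : ∀ p, p.Prime → p ≤ z → p ∣ M) {x y : ℝ}
    (hx : ⌊Real.exp x⌋₊ ≤ z) (hy : y ≤ x) : T3 M M M y ≤ step y := by
  unfold T3
  have h1 := conv_le_of_dvd hM (F := conv M (conv M step)) hx hy
    (conv_nonneg M (conv_nonneg M step_nonneg))
  have h2 := conv_le_of_dvd hM (F := conv M step) hx hy (conv_nonneg M step_nonneg)
  have h3 := conv_le_of_dvd hM (F := step) hx hy step_nonneg
  linarith

lemma squarefree_prod_primes (s : Finset ℕ) : (∀ p ∈ s, p.Prime) → Squarefree (∏ p ∈ s, p) := by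
  induction s using Finset.induction_on with
  | empty => intro _; simp
  | insert p s hps ih =>
    intro h
    rw [Finset.prod_insert hps, Nat.squarefree_mul_iff]
    have hs : ∀ q ∈ s, q.Prime := fun q hq => h q (Finset.mem_insert_of_mem hq)
    have hp := h p (Finset.mem_insert_self p s)
    refine ⟨?_, hp.squarefree, ih hs⟩
    apply Nat.Coprime.prod_right
    intro q hq
    rw [Nat.coprime_primes hp (hs q hq)]
    rintro rfl
    exact hps hq

/-- comparison with the sieve sum -/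
lemma Gs_le_G {Q : Finset ℕ} (hQ : ∀ p ∈ Q, p.Prime) {F : ℝ → ℝ} {x : ℝ}
    (hF : ∀ y ≤ x, F y ≤ step y) : Gs Q F x ≤ G ⌊Real.exp x⌋₊ := by
  unfold Gs G
  have hpos : ∀ s ∈ Q.powerset, 0 ≤ ∏ p ∈ s, gg p := by
    intro s hs
    apply Finset.prod_nonneg
    intro p hp
    exact (gg_pos (hQ p (Finset.mem_powerset.mp hs hp))).le
  have h1 : ∑ s ∈ Q.powerset, (∏ p ∈ s, gg p) * F (x - ∑ p ∈ s, Real.log p)
      ≤ ∑ s ∈ Q.powerset, (∏ p ∈ s, gg p) * step (x - ∑ p ∈ s, Real.log p) := by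
    apply Finset.sum_le_sum
    intro s hs
    apply mul_le_mul_of_nonneg_left _ (hpos s hs)
    apply hF
    have : 0 ≤ ∑ p ∈ s, Real.log p := by
      apply Finset.sum_nonneg
      intro p hp
      apply Real.log_nonneg
      exact_mod_cast (hQ p (Finset.mem_powerset.mp hs hp)).one_lt.le
    linarith
  refine h1.trans ?_
  have h2 : ∑ s ∈ Q.powerset, (∏ p ∈ s, gg p) * step (x - ∑ p ∈ s, Real.log p)
      = ∑ s ∈ Q.powerset.filter (fun s => (∏ p ∈ s, p) ≤ ⌊Real.exp x⌋₊), (∏ p ∈ s, gg p) := by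
    rw [Finset.sum_filter]
    apply Finset.sum_congr rfl
    intro s hs
    have hs' : ∀ p ∈ s, p.Prime := fun p hp => hQ p (Finset.mem_powerset.mp hs hp)
    have hlog : ∑ p ∈ s, Real.log p = Real.log ((∏ p ∈ s, p : ℕ) : ℝ) := by
      rw [Nat.cast_prod, Real.log_prod]
      intro p hp
      have := (hs' p hp).pos
      positivity
    have hpr : (0:ℝ) < ((∏ p ∈ s, p : ℕ) : ℝ) := by
      have : 0 < ∏ p ∈ s, p := Finset.prod_pos (fun p hp => (hs' p hp).pos)
      exact_mod_cast this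
    unfold step
    by_cases h : (∏ p ∈ s, p) ≤ ⌊Real.exp x⌋₊
    · rw [if_pos h, if_pos, mul_one]
      rw [hlog]
      have h3 : ((∏ p ∈ s, p : ℕ) : ℝ) ≤ Real.exp x :=
        (Nat.le_floor_iff (Real.exp_pos x).le).mp h
      have h4 : Real.log ((∏ p ∈ s, p : ℕ) : ℝ) ≤ x := by
        rw [Real.log_le_iff_le_exp hpr]; exact h3
      linarith
    · rw [if_neg h, if_neg, mul_zero]
      rw [hlog]
      intro h3
      apply h
      rw [Nat.le_floor_iff (Real.exp_pos x).le]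
      rw [← Real.log_le_iff_le_exp hpr]
      linarith
  rw [h2]
  have hinj : Set.InjOn (fun s : Finset ℕ => ∏ p ∈ s, p)
      (Q.powerset.filter (fun s => (∏ p ∈ s, p) ≤ ⌊Real.exp x⌋₊) : Set (Finset ℕ)) := by
    intro s hs t ht hst
    simp only [coe_filter, mem_powerset, Set.mem_ofPred_eq] at hs ht
    have h3 : (∏ p ∈ s, p).primeFactors = s := Nat.primeFactors_prod (fun p hp => hQ p (hs.1 hp))
    have h4 : (∏ p ∈ t, p).primeFactors = t := Nat.primeFactors_prod (fun p hp => hQ p (ht.1 hp))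
    simp only at hst
    rw [← h3, ← h4, hst]
  calc ∑ s ∈ Q.powerset.filter (fun s => (∏ p ∈ s, p) ≤ ⌊Real.exp x⌋₊), (∏ p ∈ s, gg p)
      = ∑ s ∈ Q.powerset.filter (fun s => (∏ p ∈ s, p) ≤ ⌊Real.exp x⌋₊),
          (∏ p ∈ (∏ p ∈ s, p).primeFactors, gg p) := by
        apply Finset.sum_congr rfl
        intro s hs
        rw [mem_filter, mem_powerset] at hs
        rw [Nat.primeFactors_prod (fun p hp => hQ p (hs.1 hp))]
    _ = ∑ q ∈ (Q.powerset.filter (fun s => (∏ p ∈ s, p) ≤ ⌊Real.exp x⌋₊)).image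
          (fun s => ∏ p ∈ s, p), ∏ p ∈ q.primeFactors, gg p := by
        rw [Finset.sum_image hinj]
    _ ≤ _ := by
        apply Finset.sum_le_sum_of_subset_of_nonneg
        · intro q hq
          rw [mem_image] at hq
          obtain ⟨s, hs, rfl⟩ := hq
          rw [mem_filter, mem_powerset] at hs
          rw [mem_filter, mem_Icc]
          refine ⟨⟨?_, hs.2⟩, ?_⟩
          · exact Finset.prod_pos (fun p hp => (hQ p (hs.1 hp)).pos)
          · exact squarefree_prod_primes s (fun p hp => hQ p (hs.1 hp))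
        · intro q hq _
          apply Finset.prod_nonneg
          intro p hp
          exact (gg_pos (Nat.prime_of_mem_primeFactors hp)).le

end Pool.Agent.Helper25
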