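import Mathlib
import Pool.Agent.Helper25.GBound

set_option autoImplicit false

namespace Pool.Agent.Helper25

open Finset Filter

/-- local factor -/
noncomputable def tt (p : ℕ) : ℝ := (p : ℝ) ^ 2 * ((p : ℝ) - 3) / ((p : ℝ) - 1) ^ 3

noncomputable def hh (p : ℕ) : ℝ := if p.Prime ∧ 3 < p then tt p else 1

lemma DD_eq (K : ℕ) : DD K = 9 / 2 * ∏ p ∈ range K, hh p := by
  unfold DD hh tt
  rw [Finset.prod_filter]

lemma tt_eq {p : ℕ} (hp : 3 < p) : tt p = 1 - (3 * (p:ℝ) - 1) / ((p:ℝ) - 1) ^ 3 := by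
  unfold tt
  have : (3:ℝ) < p := by exact_mod_cast hp
  have h1 : (p:ℝ) - 1 ≠ 0 := by linarith
  field_simp
  ring

lemma tt_pos {p : ℕ} (hp : 3 < p) : 0 < tt p := by
  unfold tt
  have : (3:ℝ) < p := by exact_mod_cast hp
  have h1 : (0:ℝ) < (p:ℝ) - 1 := by linarith
  have h2 : (0:ℝ) < (p:ℝ) - 3 := by linarith
  positivity

lemma tt_le {p : ℕ} (hp : 3 < p) : tt p ≤ 1 := by
  rw [tt_eq hp]
  have : (3:ℝ) < p := by exact_mod_cast hp
  have h1 : (0:ℝ) < (p:ℝ) - 1 := by linarith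
  have h2 : (0:ℝ) < 3 * (p:ℝ) - 1 := by linarith
  have : 0 < (3 * (p:ℝ) - 1) / ((p:ℝ) - 1) ^ 3 := by positivity
  linarith

lemma hh_pos (p : ℕ) : 0 < hh p := by
  unfold hh
  split_ifs with h
  · exact tt_pos h.2
  · norm_num

lemma hh_le (p : ℕ) : hh p ≤ 1 := by
  unfold hh
  split_ifs with h
  · exact tt_le h.2
  · norm_num

lemma DD_pos (K : ℕ) : 0 < DD K := by
  rw [DD_eq]
  exact mul_pos (by norm_num) (Finset.prod_pos (fun p _ => hh_pos p))

lemma DD_anti : Antitone DD := by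
  apply antitone_nat_of_succ_le
  intro n
  rw [DD_eq, DD_eq, Finset.prod_range_succ]
  have h1 : 0 < ∏ p ∈ range n, hh p := Finset.prod_pos (fun p _ => hh_pos p)
  have h2 := hh_le n
  nlinarith

lemma hh_ge {p : ℕ} (hp : 3 < p) : 1 - (3 * (p:ℝ) - 1) / ((p:ℝ) - 1) ^ 3 ≤ hh p := by
  unfold hh
  split_ifs with h
  · rw [tt_eq hp]
  · have h3 : (3:ℝ) < p := by exact_mod_cast hp
    have h1 : (0:ℝ) < (p:ℝ) - 1 := by linarith
    have h2 : (0:ℝ) < 3 * (p:ℝ) - 1 := by linarith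
    have : 0 < (3 * (p:ℝ) - 1) / ((p:ℝ) - 1) ^ 3 := by positivity
    linarith

lemma hh_one {p : ℕ} (h : ¬ p.Prime) : hh p = 1 := by
  unfold hh
  rw [if_neg (fun h' => h h'.1)]

lemma six_step {k : ℕ} (hk : 2 ≤ k) : DD (6 * k - 1) * (1 - 1 / (6 * k * (k - 1))) ≤ DD (6 * (k + 1) - 1) := by
  have e : 6 * (k + 1) - 1 = (6 * k - 1) + 1 + 1 + 1 + 1 + 1 + 1 := by omega
  rw [e, DD_eq, DD_eq, Finset.prod_range_succ, Finset.prod_range_succ, Finset.prod_range_succ,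
    Finset.prod_range_succ, Finset.prod_range_succ, Finset.prod_range_succ]
  have n1 : 6 * k - 1 + 1 = 6 * k := by omega
  have n2 : 6 * k - 1 + 1 + 1 = 6 * k + 1 := by omega
  have n3 : 6 * k - 1 + 1 + 1 + 1 = 6 * k + 2 := by omega
  have n4 : 6 * k - 1 + 1 + 1 + 1 + 1 = 6 * k + 3 := by omega
  have n5 : 6 * k - 1 + 1 + 1 + 1 + 1 + 1 = 6 * k + 4 := by omega
  rw [n5, n4, n3, n2, n1]
  have c0 : ¬ (6 * k).Prime := by
    intro h
    have := (Nat.prime_dvd_prime_iff_eq Nat.prime_two h).mp (by omega)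
    omega
  have c2 : ¬ (6 * k + 2).Prime := by
    intro h
    have := (Nat.prime_dvd_prime_iff_eq Nat.prime_two h).mp (by omega)
    omega
  have c3 : ¬ (6 * k + 3).Prime := by
    intro h
    have := (Nat.prime_dvd_prime_iff_eq Nat.prime_three h).mp (by omega)
    omega
  have c4 : ¬ (6 * k + 4).Prime := by
    intro h
    have := (Nat.prime_dvd_prime_iff_eq Nat.prime_two h).mp (by omega)
    omega
  rw [hh_one c0, hh_one c2, hh_one c3, hh_one c4]
  have hk' : (2:ℝ) ≤ k := by exact_mod_cast hk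
  have g1 := hh_ge (p := 6 * k - 1) (by omega)
  have g2 := hh_ge (p := 6 * k + 1) (by omega)
  have p1 := hh_pos (6 * k - 1)
  have p2 := hh_pos (6 * k + 1)
  have e1 : ((6 * k - 1 : ℕ) : ℝ) = 6 * k - 1 := by
    rw [Nat.cast_sub (by omega)]; push_cast; ring
  have e2 : ((6 * k + 1 : ℕ) : ℝ) = 6 * k + 1 := by push_cast; ring
  rw [e1] at g1
  rw [e2] at g2
  have b1 : (3 * (6 * (k:ℝ) - 1) - 1) / ((6 * k - 1) - 1) ^ 3 ≤ 1 / (12 * k * (k - 1)) := by
    rw [div_le_div_iff₀ (by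
      have : (0:ℝ) < (6 * k - 1) - 1 := by linarith
      positivity) (by
      have : (0:ℝ) < (k:ℝ) - 1 := by linarith
      positivity)]
    nlinarith [sq_nonneg ((k:ℝ)), sq_nonneg ((k:ℝ) - 1)]
  have b2 : (3 * (6 * (k:ℝ) + 1) - 1) / ((6 * k + 1) - 1) ^ 3 ≤ 1 / (12 * k * (k - 1)) := by
    rw [div_le_div_iff₀ (by
      have : (0:ℝ) < (6 * k + 1) - 1 := by linarith
      positivity) (by
      have : (0:ℝ) < (k:ℝ) - 1 := by linarith
      positivity)]
    nlinarith [sq_nonneg ((k:ℝ)), sq_nonneg ((k:ℝ) - 1)]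
  have b0 : (0:ℝ) < 1 / (12 * k * (k - 1)) := by
    have : (0:ℝ) < (k:ℝ) - 1 := by linarith
    positivity
  have b3 : (1:ℝ) / (6 * k * (k - 1)) = 1 / (12 * k * (k - 1)) + 1 / (12 * k * (k - 1)) := by
    have : (k:ℝ) - 1 ≠ 0 := by linarith
    field_simp
    ring
  have b4 : (1:ℝ) / (12 * k * (k - 1)) ≤ 1 / 24 := by
    apply div_le_div_of_nonneg_left (by norm_num) (by norm_num)
    nlinarith
  rw [b3]
  set u := (1:ℝ) / (12 * k * (k - 1)) with hu
  have g1' : 1 - u ≤ hh (6 * k - 1) := by linarith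
  have g2' : 1 - u ≤ hh (6 * k + 1) := by linarith
  have h1 : 0 < ∏ p ∈ range (6 * k - 1), hh p := Finset.prod_pos (fun p _ => hh_pos p)
  have h2 : 1 - (u + u) ≤ hh (6 * k - 1) * hh (6 * k + 1) := by nlinarith
  have h3 := mul_le_mul_of_nonneg_left h2 h1.le
  nlinarith

lemma DD_101 : 2.874 ≤ DD 101 := by
  unfold DD
  have hset : (range 101).filter (fun p => p.Prime ∧ 3 < p) = {5, 7, 11, 13, 17, 19, 23, 29, 31, 37, 41, 43, 47, 53, 59,
      61, 67, 71, 73, 79, 83, 89, 97} := by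
    decide +kernel
  rw [hset]
  repeat rw [Finset.prod_insert (by decide)]
  rw [Finset.prod_singleton]
  norm_num

lemma DD_low (k : ℕ) (hk : 17 ≤ k) : 2.874 * (1 - 1 / 96 + 1 / (6 * (k - 1))) ≤ DD (6 * k - 1) := by
  induction k, hk using Nat.le_induction with
  | base =>
    have := DD_101
    norm_num at this ⊢
    linarith
  | succ k hk ih =>
    have h1 := six_step (k := k) (by omega)
    have hk' : (17:ℝ) ≤ k := by exact_mod_cast hk
    have h2 : (0:ℝ) < 1 - 1 / (6 * k * (k - 1)) := by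
      rw [sub_pos, div_lt_one (by nlinarith)]
      nlinarith
    have h3 := mul_le_mul_of_nonneg_right ih h2.le
    refine le_trans ?_ (h3.trans h1)
    have e1 : ((k + 1 : ℕ) : ℝ) - 1 = k := by push_cast; ring
    rw [e1]
    have hk1 : (0:ℝ) < (k:ℝ) - 1 := by linarith
    have e2 : (1:ℝ) / (6 * k * (k - 1)) = 1 / (6 * (k - 1)) - 1 / (6 * k) := by
      field_simp
      ring
    rw [e2]
    have h4 : (1:ℝ) / (6 * (k - 1)) ≤ 1 / 96 := by
      apply div_le_div_of_nonneg_left (by norm_num) (by norm_num)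
      linarith
    have h5 : (1:ℝ) / (6 * k) ≤ 1 / (6 * (k - 1)) := by
      apply div_le_div_of_nonneg_left (by norm_num) (by linarith)
      linarith
    nlinarith [mul_nonneg (sub_nonneg.mpr h4) (sub_nonneg.mpr h5)]

lemma DD_ge (K : ℕ) : 2.844 ≤ DD K := by
  obtain ⟨k, hk17, hkz⟩ : ∃ k, 17 ≤ k ∧ K ≤ 6 * k - 1 := ⟨K + 17, by omega, by omega⟩
  have h1 := DD_low k hk17
  have h2 := DD_anti hkz
  have hk' : (17:ℝ) ≤ k := by exact_mod_cast hk17
  have h3 : (0:ℝ) < 1 / (6 * ((k:ℝ) - 1)) := by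
    have : (0:ℝ) < (k:ℝ) - 1 := by linarith
    positivity
  linarith

theorem exists_D : ∃ D : ℝ, Tendsto DD atTop (nhds D) ∧ 2.844 ≤ D := by
  have hb : BddBelow (Set.range DD) := ⟨2.844, by rintro _ ⟨K, rfl⟩; exact DD_ge K⟩
  refine ⟨_, tendsto_atTop_ciInf DD_anti hb, ?_⟩
  exact le_ciInf DD_ge

end Pool.Agent.Helper25
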