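import Mathlib
import Pool.Agent.Helper25.Const

set_option autoImplicit false

namespace Pool.Agent.Helper25

open Finset Filter

/-- primes from 11 up to z -/
def PP (z : ℕ) : Finset ℕ := (Icc 11 z).filter Nat.Prime

lemma PP_prime {z p : ℕ} (h : p ∈ PP z) : p.Prime ∧ 11 ≤ p := by
  unfold PP at h
  rw [mem_filter, mem_Icc] at h
  exact ⟨h.2, h.1.1⟩

lemma gg7 : gg 7 = 3 / 4 := by unfold gg; norm_num
lemma gg5 : gg 5 = 3 / 2 := by unfold gg; norm_num
lemma gg3 : gg 3 = 2 := by unfold gg; norm_num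
lemma gg2 : gg 2 = 1 := by unfold gg; norm_num

lemma const_eq {z : ℕ} (hz : 10 ≤ z) :
    (8 / 35) ^ 3 / 6 * (∏ p ∈ PP z, (1 - 1 / (p : ℝ)) ^ 3 / (1 - 3 / (p : ℝ)))
      * (1 + gg 7) * (1 + gg 5) * (1 + gg 3) * (1 + gg 2) = 1 / (6 * DD (z + 1)) := by
  have hset : (range (z + 1)).filter (fun p => p.Prime ∧ 3 < p) = insert 5 (insert 7 (PP z)) := by
    ext p
    unfold PP
    simp only [mem_filter, mem_range, mem_insert, mem_Icc]
    constructor
    · rintro ⟨h1, h2, h3⟩
      by_cases h11 : 11 ≤ p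
      · right; right; exact ⟨⟨h11, by omega⟩, h2⟩
      · have h4 : p < 11 := by omega
        interval_cases p
        · exact absurd h2 (by norm_num)
        · left; rfl
        · exact absurd h2 (by norm_num)
        · right; left; rfl
        · exact absurd h2 (by norm_num)
        · exact absurd h2 (by norm_num)
        · exact absurd h2 (by norm_num)
    · rintro (rfl | rfl | ⟨⟨h1, h2⟩, h3⟩)
      · exact ⟨by omega, by norm_num, by norm_num⟩
      · exact ⟨by omega, by norm_num, by norm_num⟩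
      · exact ⟨by omega, h3, by omega⟩
  have h5 : 5 ∉ insert 7 (PP z) := by
    rw [mem_insert]
    rintro (h | h)
    · omega
    · have := (PP_prime h).2; omega
  have h7 : 7 ∉ PP z := fun h => by have := (PP_prime h).2; omega
  unfold DD
  rw [hset, Finset.prod_insert h5, Finset.prod_insert h7, gg7, gg5, gg3, gg2]
  have hprod : (∏ p ∈ PP z, (1 - 1 / (p : ℝ)) ^ 3 / (1 - 3 / (p : ℝ)))
      * ∏ p ∈ PP z, ((p : ℝ) ^ 2 * ((p : ℝ) - 3) / ((p : ℝ) - 1) ^ 3) = 1 := by
    rw [← Finset.prod_mul_distrib]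
    apply Finset.prod_eq_one
    intro p hp
    have h11 : (11:ℝ) ≤ p := by exact_mod_cast (PP_prime hp).2
    have h1 : (p:ℝ) - 1 ≠ 0 := by linarith
    have h3 : (p:ℝ) - 3 ≠ 0 := by linarith
    have h13 : (1:ℝ) - 3 / p = (p - 3) / p := by
      have : (p:ℝ) ≠ 0 := by linarith
      field_simp
    have h11' : (1:ℝ) - 1 / p = (p - 1) / p := by
      have : (p:ℝ) ≠ 0 := by linarith
      field_simp
    rw [h13, h11']
    field_simp
  set X := ∏ p ∈ PP z, (1 - 1 / (p : ℝ)) ^ 3 / (1 - 3 / (p : ℝ)) with hX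
  set Y := ∏ p ∈ PP z, ((p : ℝ) ^ 2 * ((p : ℝ) - 3) / ((p : ℝ) - 1) ^ 3) with hY
  have hY0 : Y ≠ 0 := by
    intro h
    rw [h, mul_zero] at hprod
    norm_num at hprod
  have hXY : X = 1 / Y := by
    field_simp
    linarith
  rw [hXY]
  push_cast
  field_simp
  norm_num

lemma shift_total : 0.7723 + 3 / 7 * Real.log 7 + 3 / 5 * Real.log 5 + 2 / 3 * Real.log 3
    + 1 / 2 * Real.log 2 ≤ 3.66 := by
  have h7 := log_le_of_pow (t := 7) (by norm_num) (k := 26) (m := 73) (by norm_num) (by norm_num)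
  have h5 := log_le_of_pow (t := 5) (by norm_num) (k := 59) (m := 137) (by norm_num) (by norm_num)
  have h3 := log_le_of_pow (t := 3) (by norm_num) (k := 41) (m := 65) (by norm_num) (by norm_num)
  have h2 := Real.log_two_lt_d9
  norm_num at h7 h5 h3 h2 ⊢
  linarith

theorem G_lower_z {z : ℕ} (hz : 10 ≤ z) {x : ℝ} (hx : ⌊Real.exp x⌋₊ ≤ z) :
    1 / (6 * DD (z + 1)) * LL (x - 3.66) ≤ G ⌊Real.exp x⌋₊ := by
  have h0 := large_primes (PP z) (fun p hp => PP_prime hp)
  set M := 210 * ∏ p ∈ PP z, p with hM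
  have hA : (0:ℝ) < (8 / 35) ^ 3 / 6 * (∏ p ∈ PP z, (1 - 1 / (p : ℝ)) ^ 3 / (1 - 3 / (p : ℝ))) := by
    apply mul_pos (by norm_num)
    apply Finset.prod_pos
    intro q hq
    have h11 : (11:ℝ) ≤ q := by exact_mod_cast (PP_prime hq).2
    have h1 : (0:ℝ) < 1 - 1 / (q : ℝ) := by
      rw [sub_pos, div_lt_one (by linarith)]; linarith
    have h2 : (0:ℝ) < 1 - 3 / (q : ℝ) := by
      rw [sub_pos, div_lt_one (by linarith)]; linarith
    positivity
  have n7 : 7 ∉ PP z := fun h => by have := (PP_prime h).2; omega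
  have n5 : 5 ∉ insert 7 (PP z) := by
    rw [mem_insert]; rintro (h | h)
    · omega
    · have := (PP_prime h).2; omega
  have n3 : 3 ∉ insert 5 (insert 7 (PP z)) := by
    rw [mem_insert, mem_insert]; rintro (h | h | h)
    · omega
    · omega
    · have := (PP_prime h).2; omega
  have n2 : 2 ∉ insert 3 (insert 5 (insert 7 (PP z))) := by
    rw [mem_insert, mem_insert, mem_insert]; rintro (h | h | h | h)
    · omega
    · omega
    · omega
    · have := (PP_prime h).2; omega
  have g7 := gg_pos (show Nat.Prime 7 by norm_num)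
  have g5 := gg_pos (show Nat.Prime 5 by norm_num)
  have g3 := gg_pos (show Nat.Prime 3 by norm_num)
  have h1 := add_prime (show Nat.Prime 7 by norm_num) n7 (F := T3 M M M) hA h0
  have h2 := add_prime (show Nat.Prime 5 by norm_num) n5 (F := T3 M M M) (by positivity) h1
  have h3 := add_prime (show Nat.Prime 3 by norm_num) n3 (F := T3 M M M) (by positivity) h2
  have h4 := add_prime (show Nat.Prime 2 by norm_num) n2 (F := T3 M M M) (by positivity) h3 x
  rw [const_eq hz] at h4
  have hQ : ∀ p ∈ insert 2 (insert 3 (insert 5 (insert 7 (PP z)))), p.Prime := by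
    intro p hp
    simp only [mem_insert] at hp
    rcases hp with rfl | rfl | rfl | rfl | hp
    · norm_num
    · norm_num
    · norm_num
    · norm_num
    · exact (PP_prime hp).1
  have hdvd : ∀ p, p.Prime → p ≤ z → p ∣ M := by
    intro p hp hpz
    by_cases h11 : 11 ≤ p
    · rw [hM]
      apply Dvd.dvd.mul_left
      apply Finset.dvd_prod_of_mem
      unfold PP
      rw [mem_filter, mem_Icc]
      exact ⟨⟨h11, hpz⟩, hp⟩
    · rw [hM]
      apply Dvd.dvd.mul_right
      have h4 : p < 11 := by omega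
      interval_cases p <;> first | (exfalso; norm_num at hp; done) | norm_num
  have h5 := Gs_le_G hQ (F := T3 M M M) (x := x) (fun y hy => conv_le_step hdvd hx hy)
  refine le_trans ?_ (h4.trans h5)
  apply mul_le_mul_of_nonneg_left
  · apply LL_mono
    have hs := shift_sum z
    have ht := shift_total
    have e : ∑ p ∈ PP z, 6 * Real.log p / (((p : ℝ) - 1) * ((p : ℝ) - 3))
        = ∑ p ∈ (Icc 11 z).filter Nat.Prime, ee p := rfl
    rw [e, gg7, gg5, gg3, gg2]
    push_cast
    have e1 : (3:ℝ) / 4 * Real.log 7 / (1 + 3 / 4) = 3 / 7 * Real.log 7 := by ring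
    have e2 : (3:ℝ) / 2 * Real.log 5 / (1 + 3 / 2) = 3 / 5 * Real.log 5 := by ring
    have e3 : (2:ℝ) * Real.log 3 / (1 + 2) = 2 / 3 * Real.log 3 := by ring
    have e4 : (1:ℝ) * Real.log 2 / (1 + 1) = 1 / 2 * Real.log 2 := by ring
    rw [e1, e2, e3, e4]
    linarith
  · have := DD_pos (z + 1)
    positivity

/-- lower bound of the sieve sum with the exact constant -/
theorem G_lower {D : ℝ} (hD : Tendsto DD atTop (nhds D)) (hD0 : 0 < D) (x : ℝ) :
    1 / (6 * D) * LL (x - 3.66) ≤ G ⌊Real.exp x⌋₊ := by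
  have h1 : Tendsto (fun z : ℕ => 1 / (6 * DD (z + 1)) * LL (x - 3.66)) atTop
      (nhds (1 / (6 * D) * LL (x - 3.66))) := by
    apply Tendsto.mul_const
    apply Tendsto.div tendsto_const_nhds
    · apply Tendsto.const_mul
      exact hD.comp (tendsto_add_atTop_nat 1)
    · positivity
  apply le_of_tendsto h1
  filter_upwards [eventually_ge_atTop (max 10 ⌊Real.exp x⌋₊)] with z hz
  exact G_lower_z ((le_max_left _ _).trans hz) ((le_max_right _ _).trans hz)

end Pool.Agent.Helper25
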