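import Mathlib
import Pool.Agent.Helper25.GFinal

set_option autoImplicit false

namespace Pool.Agent.Helper25

open Finset

lemma abel (v g : ℕ → ℝ) (J : ℕ) : ∑ j ∈ range (J + 1), v j * (g j - g (j + 1))
    = v 0 * g 0 + ∑ j ∈ range J, (v (j + 1) - v j) * g (j + 1) - v J * g (J + 1) := by
  induction J with
  | zero =>
    simp
    ring
  | succ J ih =>
    rw [Finset.sum_range_succ, ih, Finset.sum_range_succ _ J]
    ring

lemma jensen {v : ℕ → ℝ} (hv : ∀ j, 0 < v j) (hm : ∀ j, v j ≤ v (j + 1)) (x lam : ℝ) (J : ℕ) :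
    v J * LL (x - lam * ∑ j ∈ range J, (1 - v j / v J))
      ≤ v 0 * LL x + ∑ j ∈ range J, (v (j + 1) - v j) * LL (x - lam * ((j : ℝ) + 1)) := by
  induction J with
  | zero => simp
  | succ J ih =>
    rw [Finset.sum_range_succ (fun j => (v (j + 1) - v j) * LL (x - lam * ((j : ℝ) + 1))) J]
    have h1 := convex_two LL_convex (a := v J) (b := v (J + 1) - v J)
      (x := x - lam * ∑ j ∈ range J, (1 - v j / v J)) (y := x - lam * ((J : ℝ) + 1))
      (hv J).le (by have := hm J; linarith) (by have := hv (J + 1); linarith)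
    have h2 : v J + (v (J + 1) - v J) = v (J + 1) := by ring
    rw [h2] at h1
    have h3 : (v J * (x - lam * ∑ j ∈ range J, (1 - v j / v J))
        + (v (J + 1) - v J) * (x - lam * ((J : ℝ) + 1))) / v (J + 1)
        = x - lam * ∑ j ∈ range (J + 1), (1 - v j / v (J + 1)) := by
      have hJ := (hv J).ne'
      have hJ1 := (hv (J + 1)).ne'
      have e1 : ∑ j ∈ range J, (1 - v j / v J) = J - (∑ j ∈ range J, v j) / v J := by
        rw [Finset.sum_sub_distrib, Finset.sum_div]
        simp
      have e2 : ∑ j ∈ range (J + 1), (1 - v j / v (J + 1))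
          = (J : ℝ) + 1 - ((∑ j ∈ range J, v j) + v J) / v (J + 1) := by
        rw [Finset.sum_sub_distrib, ← Finset.sum_div, Finset.sum_range_succ v J]
        simp
      rw [e1, e2]
      field_simp
      ring
    rw [h3] at h1
    linarith

end Pool.Agent.Helper25
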