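import Mathlib

set_option autoImplicit false

namespace Pool.Agent.Helper25

open Finset

lemma inv_sin_sq_le {y : ℝ} (h : y ≠ 0) (h2 : |y| ≤ Real.pi / 2) :
    1 / Real.sin y ^ 2 ≤ 1 / y ^ 2 + 1 := by
  have hpi := Real.pi_pos
  rw [abs_le] at h2
  have h3 := Real.cos_lt_one_div_sqrt_sq_add_one (x := y) (by linarith) (by linarith) h
  have h4 : 0 ≤ Real.cos y := Real.cos_nonneg_of_neg_pi_div_two_le_of_le (by linarith) h2.2
  have h5 : Real.cos y ^ 2 ≤ 1 / (y ^ 2 + 1) := by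
    calc Real.cos y ^ 2 ≤ (1 / √(y ^ 2 + 1)) ^ 2 := pow_le_pow_left₀ h4 h3.le 2
      _ = 1 / (y ^ 2 + 1) := by
        rw [div_pow, Real.sq_sqrt (by positivity), one_pow]
  have h6 : Real.sin y ^ 2 = 1 - Real.cos y ^ 2 := by
    have := Real.sin_sq_add_cos_sq y
    linarith
  have hy : 0 < y ^ 2 := by positivity
  have h7 : y ^ 2 / (y ^ 2 + 1) ≤ Real.sin y ^ 2 := by
    rw [h6]
    have : y ^ 2 / (y ^ 2 + 1) = 1 - 1 / (y ^ 2 + 1) := by
      field_simp
      ring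
    linarith
  calc 1 / Real.sin y ^ 2 ≤ 1 / (y ^ 2 / (y ^ 2 + 1)) := by
        apply one_div_le_one_div_of_le (by positivity) h7
    _ = 1 / y ^ 2 + 1 := by
        field_simp
        ring

lemma sin_sq_round (u : ℝ) : Real.sin (Real.pi * u) ^ 2 = Real.sin (Real.pi * (u - round u)) ^ 2 := by
  rw [Real.sin_sq_eq_half_sub, Real.sin_sq_eq_half_sub]
  congr 2
  have : 2 * (Real.pi * (u - round u)) = 2 * (Real.pi * u) - (round u : ℤ) * (2 * Real.pi) := by ring
  rw [this, Real.cos_sub_int_mul_two_pi]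

lemma sum_sep {ι : Type*} {G : Finset ι} {β : ι → ℝ} {d δ : ℝ} (hd : 0 < d) (hδ : 0 < δ)
    (h1 : ∀ s ∈ G, d ≤ β s) (h2 : ∀ s ∈ G, ∀ s' ∈ G, s ≠ s' → δ ≤ |β s - β s'|) :
    ∃ K : ℕ, ∑ s ∈ G, 1 / (β s) ^ 2 ≤ ∑ k ∈ range K, 1 / (d + δ * k) ^ 2 := by
  classical
  set φ : ι → ℕ := fun s => ⌊(β s - d) / δ⌋₊ with hφ
  have hinj : Set.InjOn φ G := by
    intro s hs s' hs' heq
    by_contra hne
    wlog hlt : β s ≤ β s' generalizing s s'
    · exact this hs' hs heq.symm (fun h => hne h.symm) (le_of_not_ge hlt)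
    have h3 := h2 s hs s' hs' hne
    rw [abs_sub_comm, abs_of_nonneg (by linarith)] at h3
    have h4 : (β s - d) / δ + 1 ≤ (β s' - d) / δ := by
      rw [div_add_one hδ.ne']
      apply div_le_div_of_nonneg_right _ hδ.le
      linarith
    have h5 : 0 ≤ (β s - d) / δ := div_nonneg (by have := h1 s hs; linarith) hδ.le
    have h6 : φ s + 1 ≤ φ s' := by
      rw [hφ]
      dsimp only
      rw [← Nat.floor_add_one h5]
      exact Nat.floor_le_floor h4
    omega
  refine ⟨(G.image φ).sup id + 1, ?_⟩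
  calc ∑ s ∈ G, 1 / (β s) ^ 2 ≤ ∑ s ∈ G, 1 / (d + δ * (φ s : ℕ)) ^ 2 := by
        apply Finset.sum_le_sum
        intro s hs
        have h3 : (0:ℝ) ≤ (φ s : ℝ) := Nat.cast_nonneg _
        apply one_div_le_one_div_of_le (by positivity)
        apply pow_le_pow_left₀ (by positivity)
        have h4 : (φ s : ℝ) ≤ (β s - d) / δ :=
          Nat.floor_le (div_nonneg (by have := h1 s hs; linarith) hδ.le)
        rw [le_div_iff₀ hδ] at h4
        linarith
    _ = ∑ k ∈ G.image φ, 1 / (d + δ * (k : ℕ)) ^ 2 := by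
        rw [Finset.sum_image hinj]
    _ ≤ ∑ k ∈ range ((G.image φ).sup id + 1), 1 / (d + δ * (k : ℕ)) ^ 2 := by
        apply Finset.sum_le_sum_of_subset_of_nonneg
        · intro k hk
          rw [mem_range]
          exact Nat.lt_succ_of_le (Finset.le_sup (f := id) hk)
        · intro k _ _
          positivity

lemma tele {d δ : ℝ} (hd : 0 < d) (hδ : 0 < δ) (K : ℕ) :
    ∑ k ∈ range K, 1 / (d + δ * (k : ℕ)) ^ 2 ≤ 1 / d ^ 2 + 1 / (δ * d) := by
  have h : ∀ K : ℕ, ∑ k ∈ range (K + 1), 1 / (d + δ * (k : ℕ)) ^ 2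
      ≤ 1 / d ^ 2 + 1 / δ * (1 / d - 1 / (d + δ * (K : ℕ))) := by
    intro K
    induction K with
    | zero => simp
    | succ K ih =>
      rw [Finset.sum_range_succ]
      have hK : (0:ℝ) ≤ K := Nat.cast_nonneg _
      have h1 : 0 < d + δ * K := by positivity
      have h2 : 0 < d + δ * ((K + 1 : ℕ) : ℝ) := by positivity
      have h3 : 1 / (d + δ * ((K + 1 : ℕ) : ℝ)) ^ 2
          ≤ 1 / δ * (1 / (d + δ * K) - 1 / (d + δ * ((K + 1 : ℕ) : ℝ))) := by
        have e : 1 / δ * (1 / (d + δ * K) - 1 / (d + δ * ((K + 1 : ℕ) : ℝ)))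
            = 1 / ((d + δ * K) * (d + δ * ((K + 1 : ℕ) : ℝ))) := by
          field_simp
          push_cast
          ring
        rw [e]
        apply one_div_le_one_div_of_le (by positivity)
        rw [sq]
        apply mul_le_mul_of_nonneg_right _ h2.le
        push_cast
        nlinarith
      have h4 : 1 / δ * (1 / d - 1 / (d + δ * (K : ℕ)))
          + 1 / δ * (1 / (d + δ * K) - 1 / (d + δ * ((K + 1 : ℕ) : ℝ)))
          = 1 / δ * (1 / d - 1 / (d + δ * ((K + 1 : ℕ) : ℝ))) := by ring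
      linarith
  rcases Nat.eq_zero_or_pos K with h0 | h0
  · rw [h0]
    simp only [range_zero, sum_empty]
    positivity
  · obtain ⟨K', rfl⟩ : ∃ K', K = K' + 1 := ⟨K - 1, by omega⟩
    refine (h K').trans ?_
    have : 1 / δ * (1 / d - 1 / (d + δ * (K' : ℕ))) = 1 / (δ * d) - 1 / (δ * (d + δ * (K' : ℕ))) := by
      rw [mul_sub, ← one_div_mul_one_div, ← one_div_mul_one_div]
    rw [this]
    have h2 : 0 ≤ 1 / (δ * (d + δ * (K' : ℕ))) := by positivity
    linarith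

lemma zeta_sum {δ : ℝ} (hδ : 0 < δ) (K : ℕ) :
    ∑ k ∈ range K, 1 / (δ + δ * (k : ℕ)) ^ 2 ≤ Real.pi ^ 2 / 6 / δ ^ 2 := by
  have h1 : ∑ k ∈ range K, 1 / (δ + δ * (k : ℕ)) ^ 2
      = (∑ k ∈ range K, 1 / ((k + 1 : ℕ) : ℝ) ^ 2) / δ ^ 2 := by
    rw [Finset.sum_div]
    apply Finset.sum_congr rfl
    intro k _
    rw [div_div]
    congr 1
    push_cast
    ring
  rw [h1]
  apply div_le_div_of_nonneg_right _ (by positivity)
  have h2 : ∑ k ∈ range K, 1 / ((k + 1 : ℕ) : ℝ) ^ 2 = ∑ k ∈ range (K + 1), 1 / (k : ℝ) ^ 2 := by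
    rw [Finset.sum_range_succ']
    simp
  rw [h2]
  exact sum_le_hasSum _ (fun i _ => by positivity) hasSum_zeta_two

lemma sum_inv_sin {ι : Type*} {G : Finset ι} {x : ι → ℝ} {t d δ S : ℝ} (hd : 0 < d) (hδ : 0 < δ)
    (h1 : ∀ s ∈ G, ∀ k : ℤ, d ≤ |x s - t - k|)
    (h2 : ∀ s ∈ G, ∀ s' ∈ G, s ≠ s' → ∀ k : ℤ, δ ≤ |x s - x s' - k|)
    (hS : ∀ K : ℕ, ∑ k ∈ range K, 1 / (d + δ * (k : ℕ)) ^ 2 ≤ S) :
    ∑ s ∈ G, 1 / Real.sin (Real.pi * (x s - t)) ^ 2 ≤ 2 / Real.pi ^ 2 * S + (G.card : ℝ) := by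
  classical
  set β : ι → ℝ := fun s => (x s - t) - round (x s - t) with hβ
  have hpi := Real.pi_pos
  have hb1 : ∀ s ∈ G, d ≤ |β s| := fun s hs => h1 s hs (round (x s - t))
  have hb2 : ∀ s, |β s| ≤ 1 / 2 := fun s => abs_sub_round _
  have hb3 : ∀ s ∈ G, 1 / Real.sin (Real.pi * (x s - t)) ^ 2 ≤ 1 / Real.pi ^ 2 * (1 / β s ^ 2) + 1 := by
    intro s hs
    rw [sin_sq_round]
    have hne : β s ≠ 0 := by
      intro h
      have := hb1 s hs
      rw [h, abs_zero] at this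
      linarith
    have h3 := inv_sin_sq_le (y := Real.pi * β s) (mul_ne_zero hpi.ne' hne) (by
      rw [abs_mul, abs_of_pos hpi]
      have := hb2 s
      nlinarith)
    have h4 : 1 / (Real.pi * β s) ^ 2 = 1 / Real.pi ^ 2 * (1 / β s ^ 2) := by
      rw [mul_pow, one_div_mul_one_div]
    rw [h4] at h3
    exact h3
  have hpos : ∑ s ∈ G.filter (fun s => 0 < β s), 1 / β s ^ 2 ≤ S := by
    obtain ⟨K, hK⟩ := sum_sep (G := G.filter (fun s => 0 < β s)) (β := β) hd hδ (by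
      intro s hs
      rw [mem_filter] at hs
      have := hb1 s hs.1
      rwa [abs_of_pos hs.2] at this) (by
      intro s hs s' hs' hne
      rw [mem_filter] at hs hs'
      have h3 := h2 s hs.1 s' hs'.1 hne (round (x s - t) - round (x s' - t))
      have h4 : x s - x s' - ((round (x s - t) - round (x s' - t) : ℤ) : ℝ) = β s - β s' := by
        rw [hβ]
        push_cast
        ring
      rwa [h4] at h3)
    exact hK.trans (hS K)
  have hneg : ∑ s ∈ G.filter (fun s => ¬ 0 < β s), 1 / β s ^ 2 ≤ S := by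
    obtain ⟨K, hK⟩ := sum_sep (G := G.filter (fun s => ¬ 0 < β s)) (β := fun s => - β s) hd hδ (by
      intro s hs
      rw [mem_filter] at hs
      have := hb1 s hs.1
      rwa [abs_of_nonpos (not_lt.mp hs.2)] at this) (by
      intro s hs s' hs' hne
      rw [mem_filter] at hs hs'
      have h3 := h2 s hs.1 s' hs'.1 hne (round (x s - t) - round (x s' - t))
      have h4 : x s - x s' - ((round (x s - t) - round (x s' - t) : ℤ) : ℝ) = β s - β s' := by
        rw [hβ]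
        push_cast
        ring
      rw [h4] at h3
      have h5 : - β s - - β s' = -(β s - β s') := by ring
      rw [h5, abs_neg]
      exact h3)
    have h6 : ∑ s ∈ G.filter (fun s => ¬ 0 < β s), 1 / (- β s) ^ 2
        = ∑ s ∈ G.filter (fun s => ¬ 0 < β s), 1 / β s ^ 2 := by
      apply Finset.sum_congr rfl
      intro s _
      rw [neg_sq]
    rw [← h6]
    exact hK.trans (hS K)
  have hsplit := Finset.sum_filter_add_sum_filter_not G (fun s => 0 < β s) (fun s => 1 / β s ^ 2)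
  calc ∑ s ∈ G, 1 / Real.sin (Real.pi * (x s - t)) ^ 2
      ≤ ∑ s ∈ G, (1 / Real.pi ^ 2 * (1 / β s ^ 2) + 1) := Finset.sum_le_sum hb3
    _ = 1 / Real.pi ^ 2 * ∑ s ∈ G, 1 / β s ^ 2 + G.card := by
        rw [Finset.sum_add_distrib, ← Finset.mul_sum]
        simp
    _ ≤ 1 / Real.pi ^ 2 * (2 * S) + G.card := by
        have : ∑ s ∈ G, 1 / β s ^ 2 ≤ 2 * S := by linarith
        have h7 := mul_le_mul_of_nonneg_left this (show 0 ≤ 1 / Real.pi ^ 2 by positivity)
        linarith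
    _ = 2 / Real.pi ^ 2 * S + (G.card : ℝ) := by ring

end Pool.Agent.Helper25
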