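import Mathlib
import Pool.Agent.Helper25.Expo
import Pool.Agent.Helper25.Sep

set_option autoImplicit false

namespace Pool.Agent.Helper25

open Finset

/-- the fraction attached to a pair -/
noncomputable def xq (r : ℕ × ℕ) : ℝ := (r.2 : ℝ) / r.1

/-- reduced fractions with denominators up to Q -/
def Good (F : Finset (ℕ × ℕ)) (Q : ℝ) : Prop :=
  ∀ r ∈ F, 1 ≤ r.1 ∧ (r.1 : ℝ) ≤ Q ∧ r.2 < r.1 ∧ Nat.Coprime r.2 r.1

lemma spacing_int {q b q' b' : ℕ} (h1 : 1 ≤ q) (h1' : 1 ≤ q') (h2 : b < q) (h2' : b' < q')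
    (h3 : Nat.Coprime b q) (h3' : Nat.Coprime b' q') (hne : (q, b) ≠ (q', b')) (k : ℤ) :
    (b : ℤ) * q' - b' * q - k * (q * q') ≠ 0 := by
  intro h
  have e : (b : ℤ) * q' = q * (b' + k * q') := by linarith
  have hc1 : IsCoprime (q : ℤ) (b : ℤ) := (Nat.isCoprime_iff_coprime.mpr h3).symm
  have hc2 : IsCoprime (q' : ℤ) ((b' : ℤ) + k * q') := by
    have h4 : IsCoprime (q' : ℤ) (b' : ℤ) := (Nat.isCoprime_iff_coprime.mpr h3').symm
    exact h4.add_mul_right_right k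
  have hd1 : (q : ℤ) ∣ q' := hc1.dvd_of_dvd_mul_left (by rw [e]; exact dvd_mul_right _ _)
  have hd2 : (q' : ℤ) ∣ q := by
    have : (q' : ℤ) ∣ (q : ℤ) * (b' + k * q') := by rw [← e]; exact dvd_mul_left _ _
    exact hc2.dvd_of_dvd_mul_right this
  have hqq : q = q' := Nat.dvd_antisymm (by exact_mod_cast hd1) (by exact_mod_cast hd2)
  subst hqq
  have hq : (q : ℤ) ≠ 0 := by exact_mod_cast (by omega : q ≠ 0)
  have e2 : (b : ℤ) = b' + k * q := by
    have : (q : ℤ) * b = q * (b' + k * q) := by linarith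
    exact mul_left_cancel₀ hq this
  have hb : b = b' := by
    have hbq : (b : ℤ) < q := by exact_mod_cast h2
    have hbq' : (b' : ℤ) < q := by exact_mod_cast h2'
    have hb0 : (0 : ℤ) ≤ b := by positivity
    have hb0' : (0 : ℤ) ≤ b' := by positivity
    have hk : k = 0 := by
      rcases lt_trichotomy k 0 with hk | hk | hk
      · exfalso
        have : k * q ≤ -1 * q := mul_le_mul_of_nonneg_right (by omega) (by positivity)
        omega
      · exact hk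
      · exfalso
        have : 1 * (q : ℤ) ≤ k * q := mul_le_mul_of_nonneg_right (by omega) (by positivity)
        omega
    rw [hk] at e2
    simp at e2
    exact_mod_cast e2
  exact hne (by rw [hb])

lemma spacing {r s : ℕ × ℕ} (h1 : 1 ≤ r.1) (h1' : 1 ≤ s.1) (h2 : r.2 < r.1) (h2' : s.2 < s.1)
    (h3 : Nat.Coprime r.2 r.1) (h3' : Nat.Coprime s.2 s.1) (hne : r ≠ s) (k : ℤ) :
    1 / ((r.1 : ℝ) * s.1) ≤ |xq r - xq s - k| := by
  obtain ⟨q, b⟩ := r
  obtain ⟨q', b'⟩ := s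
  dsimp only at *
  have h := spacing_int h1 h1' h2 h2' h3 h3' hne k
  have hq : (0:ℝ) < q := by exact_mod_cast h1
  have hq' : (0:ℝ) < q' := by exact_mod_cast h1'
  have e : xq (q, b) - xq (q', b') - k
      = (((b : ℤ) * q' - b' * q - k * (q * q') : ℤ) : ℝ) / ((q : ℝ) * q') := by
    unfold xq
    push_cast
    field_simp
  rw [e, abs_div, abs_of_pos (mul_pos hq hq')]
  apply div_le_div_of_nonneg_right _ (by positivity)
  rw [← Int.cast_abs]
  exact_mod_cast Int.one_le_abs h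

lemma Good_card {F : Finset (ℕ × ℕ)} {Q : ℝ} (hQ : 0 ≤ Q) (hF : Good F Q) : (F.card : ℝ) ≤ Q ^ 2 := by
  have h : F ⊆ (Icc 1 ⌊Q⌋₊) ×ˢ (range ⌊Q⌋₊) := by
    intro r hr
    obtain ⟨h1, h2, h3, _⟩ := hF r hr
    rw [mem_product, mem_Icc, mem_range]
    have h4 : r.1 ≤ ⌊Q⌋₊ := Nat.le_floor h2
    exact ⟨⟨h1, h4⟩, by omega⟩
  have h2 := Finset.card_le_card h
  rw [Finset.card_product, Nat.card_Icc, card_range, Nat.add_sub_cancel] at h2
  have h3 : ((F.card : ℕ) : ℝ) ≤ ((⌊Q⌋₊ * ⌊Q⌋₊ : ℕ) : ℝ) := by exact_mod_cast h2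
  have h4 := Nat.floor_le hQ
  push_cast at h3
  calc (F.card : ℝ) ≤ ⌊Q⌋₊ * ⌊Q⌋₊ := h3
    _ ≤ Q * Q := mul_le_mul h4 h4 (by positivity) hQ
    _ = Q ^ 2 := by ring

lemma sin_ne {r s : ℕ × ℕ} (h1 : 1 ≤ r.1) (h1' : 1 ≤ s.1) (h2 : r.2 < r.1) (h2' : s.2 < s.1)
    (h3 : Nat.Coprime r.2 r.1) (h3' : Nat.Coprime s.2 s.1) (hne : r ≠ s) :
    Real.sin (Real.pi * (xq r - xq s)) ≠ 0 := by
  intro h
  rw [Real.sin_eq_zero_iff] at h
  obtain ⟨n, hn⟩ := h
  have hpi := Real.pi_pos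
  have h4 : xq r - xq s = n := by
    have : Real.pi * (xq r - xq s) = Real.pi * n := by linarith
    exact mul_left_cancel₀ hpi.ne' this
  have h5 := spacing h1 h1' h2 h2' h3 h3' hne n
  rw [h4, sub_self, abs_zero] at h5
  have h6 : (0:ℝ) < 1 / ((r.1 : ℝ) * s.1) := by
    have hq : (0:ℝ) < r.1 := by exact_mod_cast h1
    have hq' : (0:ℝ) < s.1 := by exact_mod_cast h1'
    positivity
  linarith

/-- inverse square sine kernel -/
noncomputable def kk (r s : ℕ × ℕ) : ℝ := 1 / Real.sin (Real.pi * (xq r - xq s)) ^ 2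

lemma kk_nonneg (r s : ℕ × ℕ) : 0 ≤ kk r s := by unfold kk; positivity

lemma kk_symm (r s : ℕ × ℕ) : kk r s = kk s r := by
  unfold kk
  have : Real.pi * (xq r - xq s) = -(Real.pi * (xq s - xq r)) := by ring
  rw [this, Real.sin_neg, neg_sq]

lemma kk_self (r : ℕ × ℕ) : kk r r = 0 := by
  unfold kk
  simp

lemma diag_row {F : Finset (ℕ × ℕ)} {Q : ℝ} (hQ : 1 ≤ Q) (hF : Good F Q) {r : ℕ × ℕ} (hr : r ∈ F) :
    ∑ s ∈ F, kk r s ≤ Q ^ 4 / 3 + Q ^ 2 := by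
  classical
  have hQ0 : 0 < Q := by linarith
  have hpi := Real.pi_pos
  have h1 : ∑ s ∈ F, kk r s = ∑ s ∈ F.erase r, 1 / Real.sin (Real.pi * (xq s - xq r)) ^ 2 := by
    rw [← Finset.sum_erase_add F _ hr, kk_self, add_zero]
    apply Finset.sum_congr rfl
    intro s _
    rw [kk_symm]
    rfl
  rw [h1]
  have hsp : ∀ s ∈ F, ∀ s' ∈ F, s ≠ s' → ∀ k : ℤ, 1 / Q ^ 2 ≤ |xq s - xq s' - k| := by
    intro s hs s' hs' hne k
    obtain ⟨a1, a2, a3, a4⟩ := hF s hs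
    obtain ⟨b1, b2, b3, b4⟩ := hF s' hs'
    refine le_trans ?_ (spacing a1 b1 a3 b3 a4 b4 hne k)
    have c1 : (0:ℝ) < s.1 := by exact_mod_cast a1
    have c2 : (0:ℝ) < s'.1 := by exact_mod_cast b1
    apply one_div_le_one_div_of_le (by positivity)
    rw [sq]
    exact mul_le_mul a2 b2 c2.le hQ0.le
  have h2 := sum_inv_sin (G := F.erase r) (x := xq) (t := xq r) (d := 1 / Q ^ 2) (δ := 1 / Q ^ 2)
    (S := Real.pi ^ 2 / 6 / (1 / Q ^ 2) ^ 2) (by positivity) (by positivity)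
    (by
      intro s hs k
      rw [mem_erase] at hs
      exact hsp s hs.2 r hr hs.1 k)
    (by
      intro s hs s' hs' hne k
      exact hsp s (mem_of_mem_erase hs) s' (mem_of_mem_erase hs') hne k)
    (fun K => zeta_sum (by positivity) K)
  refine h2.trans ?_
  have h3 : ((F.erase r).card : ℝ) ≤ Q ^ 2 := by
    have h4 : ((F.erase r).card : ℝ) ≤ F.card := by exact_mod_cast Finset.card_erase_le
    exact h4.trans (Good_card hQ0.le hF)
  have h5 : 2 / Real.pi ^ 2 * (Real.pi ^ 2 / 6 / (1 / Q ^ 2) ^ 2) = Q ^ 4 / 3 := by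
    field_simp
    ring
  rw [h5]
  linarith

lemma cross_row {F G : Finset (ℕ × ℕ)} {P Q : ℝ} (hP : 1 ≤ P) (hQ : 1 ≤ Q) (hF : Good F P)
    (hG : Good G Q) (hd : ∀ r ∈ F, ∀ s ∈ G, r ≠ s) {r : ℕ × ℕ} (hr : r ∈ F) :
    ∑ s ∈ G, kk r s ≤ 2 / Real.pi ^ 2 * (P ^ 2 * Q ^ 2 + P * Q ^ 3) + Q ^ 2 := by
  have hP0 : 0 < P := by linarith
  have hQ0 : 0 < Q := by linarith
  have hpi := Real.pi_pos
  have h1 : ∑ s ∈ G, kk r s = ∑ s ∈ G, 1 / Real.sin (Real.pi * (xq s - xq r)) ^ 2 := by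
    apply Finset.sum_congr rfl
    intro s _
    rw [kk_symm]
    rfl
  rw [h1]
  obtain ⟨r1, r2, r3, r4⟩ := hF r hr
  have c0 : (0:ℝ) < r.1 := by exact_mod_cast r1
  have h2 := sum_inv_sin (G := G) (x := xq) (t := xq r) (d := 1 / (P * Q)) (δ := 1 / Q ^ 2)
    (S := 1 / (1 / (P * Q)) ^ 2 + 1 / (1 / Q ^ 2 * (1 / (P * Q)))) (by positivity) (by positivity)
    (by
      intro s hs k
      obtain ⟨a1, a2, a3, a4⟩ := hG s hs
      have c1 : (0:ℝ) < s.1 := by exact_mod_cast a1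
      refine le_trans ?_ (spacing a1 r1 a3 r3 a4 r4 (fun h => hd r hr s hs h.symm) k)
      apply one_div_le_one_div_of_le (by positivity)
      rw [mul_comm P Q]
      exact mul_le_mul a2 r2 c0.le hQ0.le)
    (by
      intro s hs s' hs' hne k
      obtain ⟨a1, a2, a3, a4⟩ := hG s hs
      obtain ⟨b1, b2, b3, b4⟩ := hG s' hs'
      refine le_trans ?_ (spacing a1 b1 a3 b3 a4 b4 hne k)
      have c1 : (0:ℝ) < s.1 := by exact_mod_cast a1
      have c2 : (0:ℝ) < s'.1 := by exact_mod_cast b1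
      apply one_div_le_one_div_of_le (by positivity)
      rw [sq]
      exact mul_le_mul a2 b2 c2.le hQ0.le)
    (fun K => tele (by positivity) (by positivity) K)
  refine h2.trans ?_
  have h3 := Good_card hQ0.le hG
  have h5 : 1 / (1 / (P * Q)) ^ 2 + 1 / (1 / Q ^ 2 * (1 / (P * Q))) = P ^ 2 * Q ^ 2 + P * Q ^ 3 := by
    field_simp
  rw [h5]
  linarith

end Pool.Agent.Helper25
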