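import Mathlib
import Pool.Agent.Helper25.Farey

set_option autoImplicit false

namespace Pool.Agent.Helper25

open Finset

/-- energy of the coefficients -/
noncomputable def En (a : ℕ × ℕ → ℂ) (F : Finset (ℕ × ℕ)) : ℝ := ∑ r ∈ F, ‖a r‖ ^ 2

lemma En_nonneg (a : ℕ × ℕ → ℂ) (F : Finset (ℕ × ℕ)) : 0 ≤ En a F :=
  Finset.sum_nonneg (fun _ _ => by positivity)

lemma norm_double_le {F G : Finset (ℕ × ℕ)}
    (hne : ∀ r ∈ F, ∀ s ∈ G, r ≠ s → Real.sin (Real.pi * (xq r - xq s)) ≠ 0)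
    (a : ℕ × ℕ → ℂ) (M : ℤ) (H L : ℕ) :
    ‖∑ h ∈ range H, ∑ i ∈ range L,
      TT xq a F (M + h + i) * (starRingEnd ℂ) (TT xq a G (M + h + i))‖
    ≤ ∑ r ∈ F, ∑ s ∈ G, ‖a r‖ * ‖a s‖ * ((if r = s then (H : ℝ) * L else 0) + kk r s) := by
  rw [double_sum]
  refine (norm_sum_le _ _).trans ?_
  apply Finset.sum_le_sum
  intro r hr
  refine (norm_sum_le _ _).trans ?_
  apply Finset.sum_le_sum
  intro s hs
  rw [norm_mul, norm_mul, RCLike.norm_conj]
  apply mul_le_mul_of_nonneg_left _ (by positivity)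
  by_cases h : r = s
  · subst h
    rw [sub_self, ker_zero, if_pos rfl, kk_self, add_zero]
  · rw [if_neg h, zero_add]
    exact ker_le (hne r hr s hs h) M H L

lemma ls_raw {F : Finset (ℕ × ℕ)} {Q : ℝ} (hQ : 1 ≤ Q) (hF : Good F Q) (a : ℕ × ℕ → ℂ) (M : ℤ)
    (H L : ℕ) : ∑ h ∈ range H, ∑ i ∈ range L, ‖TT xq a F (M + h + i)‖ ^ 2
      ≤ ((H : ℝ) * L + (Q ^ 4 / 3 + Q ^ 2)) * En a F := by
  have h1 : ((∑ h ∈ range H, ∑ i ∈ range L, ‖TT xq a F (M + h + i)‖ ^ 2 : ℝ) : ℂ)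
      = ∑ h ∈ range H, ∑ i ∈ range L,
      TT xq a F (M + h + i) * (starRingEnd ℂ) (TT xq a F (M + h + i)) := by
    push_cast
    apply Finset.sum_congr rfl
    intro h _
    apply Finset.sum_congr rfl
    intro i _
    rw [Complex.mul_conj']
  have h2 : ∑ h ∈ range H, ∑ i ∈ range L, ‖TT xq a F (M + h + i)‖ ^ 2
      = ‖∑ h ∈ range H, ∑ i ∈ range L,
      TT xq a F (M + h + i) * (starRingEnd ℂ) (TT xq a F (M + h + i))‖ := by
    rw [← h1, Complex.norm_real, Real.norm_eq_abs, abs_of_nonneg]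
    exact Finset.sum_nonneg (fun _ _ => Finset.sum_nonneg (fun _ _ => by positivity))
  rw [h2]
  refine (norm_double_le ?_ a M H L).trans ?_
  · intro r hr s hs hne
    obtain ⟨a1, a2, a3, a4⟩ := hF r hr
    obtain ⟨b1, b2, b3, b4⟩ := hF s hs
    exact sin_ne a1 b1 a3 b3 a4 b4 hne
  · have h3 : ∑ r ∈ F, ∑ s ∈ F, ‖a r‖ * ‖a s‖ * ((if r = s then (H : ℝ) * L else 0) + kk r s)
        = (H : ℝ) * L * En a F + ∑ r ∈ F, ∑ s ∈ F, ‖a r‖ * ‖a s‖ * kk r s := by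
      unfold En
      rw [Finset.mul_sum, ← Finset.sum_add_distrib]
      apply Finset.sum_congr rfl
      intro r hr
      simp only [mul_add, Finset.sum_add_distrib]
      congr 1
      simp only [mul_ite, mul_zero]
      rw [Finset.sum_ite_eq, if_pos hr]
      ring
    have h4 := schur (F := F) (G := F) (k := kk) kk_nonneg (A := Q ^ 4 / 3 + Q ^ 2)
      (B := Q ^ 4 / 3 + Q ^ 2) (lam := 1) one_pos (fun r hr => diag_row hQ hF hr)
      (fun s hs => by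
        have := diag_row hQ hF hs
        rw [Finset.sum_congr rfl (fun r _ => kk_symm r s)]
        exact this) (fun r => ‖a r‖) (fun r => ‖a r‖)
    rw [h3]
    have h5 : ∑ r ∈ F, ‖a r‖ ^ 2 = En a F := rfl
    simp only at h4
    rw [h5] at h4
    linarith

/-- large sieve for one block -/
theorem ls_diag {F : Finset (ℕ × ℕ)} {Q : ℝ} (hQ : 8 ≤ Q) (hF : Good F Q) (a : ℕ × ℕ → ℂ) (M : ℤ)
    (L : ℕ) : ∑ i ∈ range L, ‖TT xq a F (M + i)‖ ^ 2 ≤ (L + 1.182 * Q ^ 2) * En a F := by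
  have hQ2 : 64 ≤ Q ^ 2 := by nlinarith
  obtain ⟨K, hK⟩ : ∃ K, ⌈0.577 * Q ^ 2⌉₊ = K + 1 := by
    have : 0 < ⌈0.577 * Q ^ 2⌉₊ := Nat.ceil_pos.mpr (by nlinarith)
    exact ⟨⌈0.577 * Q ^ 2⌉₊ - 1, by omega⟩
  have hK1 : 0.577 * Q ^ 2 ≤ (K : ℝ) + 1 := by
    have := Nat.le_ceil (0.577 * Q ^ 2)
    rw [hK] at this
    exact_mod_cast this
  have hK2 : (K : ℝ) < 0.577 * Q ^ 2 := by
    have := Nat.ceil_lt_add_one (a := 0.577 * Q ^ 2) (by positivity)
    rw [hK] at this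
    push_cast at this
    linarith
  have h1 := ls_raw (by linarith) hF a (M - K) (K + 1) (L + K)
  have h2 : ((K : ℝ) + 1) * ∑ i ∈ range L, ‖TT xq a F (M + i)‖ ^ 2
      ≤ ∑ h ∈ range (K + 1), ∑ i ∈ range (L + K), ‖TT xq a F (M - K + h + i)‖ ^ 2 := by
    have h3 : ∀ h ∈ range (K + 1), ∑ i ∈ range L, ‖TT xq a F (M + i)‖ ^ 2
        ≤ ∑ i ∈ range (L + K), ‖TT xq a F (M - K + h + i)‖ ^ 2 := by
      intro h hh
      rw [mem_range] at hh
      obtain ⟨e, he⟩ : ∃ e, K = h + e := ⟨K - h, by omega⟩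
      have h4 : L + K = e + (L + h) := by omega
      rw [h4, Finset.sum_range_add, Finset.sum_range_add]
      have h5 : ∑ i ∈ range L, ‖TT xq a F (M + i)‖ ^ 2
          = ∑ x ∈ range L, ‖TT xq a F (M - K + h + ((e + x : ℕ) : ℤ))‖ ^ 2 := by
        apply Finset.sum_congr rfl
        intro i _
        have : M + (i : ℤ) = M - K + h + ((e + i : ℕ) : ℤ) := by
          rw [he]
          push_cast
          ring
        rw [this]
      rw [h5]
      have h6 : 0 ≤ ∑ x ∈ range e, ‖TT xq a F (M - K + h + (x : ℤ))‖ ^ 2 :=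
        Finset.sum_nonneg (fun _ _ => by positivity)
      have h7 : 0 ≤ ∑ x ∈ range h, ‖TT xq a F (M - K + h + ((e + (L + x) : ℕ) : ℤ))‖ ^ 2 :=
        Finset.sum_nonneg (fun _ _ => by positivity)
      linarith
    calc ((K : ℝ) + 1) * ∑ i ∈ range L, ‖TT xq a F (M + i)‖ ^ 2
        = ∑ h ∈ range (K + 1), ∑ i ∈ range L, ‖TT xq a F (M + i)‖ ^ 2 := by
          rw [Finset.sum_const, card_range, nsmul_eq_mul]
          push_cast
          ring
      _ ≤ _ := Finset.sum_le_sum h3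
  have h8 := h2.trans h1
  have hE := En_nonneg a F
  have hK0 : (0:ℝ) < (K : ℝ) + 1 := by positivity
  have h9 : (((K + 1 : ℕ) : ℝ) * ((L + K : ℕ) : ℝ) + (Q ^ 4 / 3 + Q ^ 2))
      ≤ ((K : ℝ) + 1) * (L + 1.182 * Q ^ 2) := by
    push_cast
    have h10 : (K : ℝ) * (K + 1) ≤ 0.577 * Q ^ 2 * (K + 1) :=
      mul_le_mul_of_nonneg_right hK2.le hK0.le
    have h11 : Q ^ 4 / 3 + Q ^ 2 ≤ 0.605 * Q ^ 2 * (K + 1) := by
      have h12 : 0.605 * Q ^ 2 * (0.577 * Q ^ 2) ≤ 0.605 * Q ^ 2 * (K + 1) :=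
        mul_le_mul_of_nonneg_left hK1 (by positivity)
      nlinarith
    nlinarith
  have h10 := mul_le_mul_of_nonneg_right h9 hE
  have h11 : ((K : ℝ) + 1) * ∑ i ∈ range L, ‖TT xq a F (M + i)‖ ^ 2
      ≤ ((K : ℝ) + 1) * ((L + 1.182 * Q ^ 2) * En a F) := by
    calc _ ≤ _ := h8
      _ ≤ _ := h10
      _ = _ := by ring
  exact le_of_mul_le_mul_left h11 hK0

lemma average (u : ℤ → ℂ) (M : ℤ) (N H : ℕ) :
    (H : ℂ) * ∑ i ∈ range N, u (M + i) = ∑ h ∈ range H, ∑ i ∈ range N, u (M + h + i)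
      + ∑ h ∈ range H, (∑ i ∈ range h, u (M + i) - ∑ i ∈ range h, u (M + N + i)) := by
  rw [← Finset.sum_add_distrib]
  have h1 : ∀ h ∈ range H, ∑ i ∈ range N, u (M + h + i)
      + (∑ i ∈ range h, u (M + i) - ∑ i ∈ range h, u (M + N + i)) = ∑ i ∈ range N, u (M + i) := by
    intro h _
    have h2 : ∑ i ∈ range (N + h), u (M + i)
        = ∑ i ∈ range N, u (M + i) + ∑ i ∈ range h, u (M + N + i) := by
      rw [Finset.sum_range_add]
      congr 1
      apply Finset.sum_congr rfl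
      intro i _
      congr 1
      push_cast
      ring
    have h3 : ∑ i ∈ range (h + N), u (M + i)
        = ∑ i ∈ range h, u (M + i) + ∑ i ∈ range N, u (M + h + i) := by
      rw [Finset.sum_range_add]
      congr 1
      apply Finset.sum_congr rfl
      intro i _
      congr 1
      push_cast
      ring
    rw [add_comm h N] at h3
    rw [h2] at h3
    have h4 : ∑ i ∈ range N, u (M + h + i) + ∑ i ∈ range h, u (M + i)
        = ∑ i ∈ range N, u (M + i) + ∑ i ∈ range h, u (M + N + i) := by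
      rw [h3, add_comm]
    calc ∑ i ∈ range N, u (M + h + i) + (∑ i ∈ range h, u (M + i) - ∑ i ∈ range h, u (M + N + i))
        = (∑ i ∈ range N, u (M + h + i) + ∑ i ∈ range h, u (M + i))
          - ∑ i ∈ range h, u (M + N + i) := by ring
      _ = ∑ i ∈ range N, u (M + i) := by rw [h4]; ring
  rw [Finset.sum_congr rfl h1, Finset.sum_const, card_range, nsmul_eq_mul]

lemma sum_range_cast (H : ℕ) : ∑ h ∈ range (H + 1), (h : ℝ) = ((H : ℝ) + 1) * H / 2 := by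
  induction H with
  | zero => simp
  | succ n ih =>
    rw [Finset.sum_range_succ, ih]
    push_cast
    ring

/-- the boundary terms -/
lemma boundary {F G : Finset (ℕ × ℕ)} {P Q mu : ℝ} (hP : 8 ≤ P) (hQ : 8 ≤ Q) (hmu : 0 < mu)
    (hF : Good F P) (hG : Good G Q) (a : ℕ × ℕ → ℂ) (M : ℤ) (h : ℕ) :
    2 * ‖∑ i ∈ range h, TT xq a F (M + i) * (starRingEnd ℂ) (TT xq a G (M + i))‖
      ≤ mu * ((h + 1.182 * P ^ 2) * En a F) + (h + 1.182 * Q ^ 2) * En a G / mu := by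
  have h1 := ls_diag hP hF a M h
  have h2 := ls_diag hQ hG a M h
  have h3 : ∀ i ∈ range h, 2 * ‖TT xq a F (M + i) * (starRingEnd ℂ) (TT xq a G (M + i))‖
      ≤ mu * ‖TT xq a F (M + i)‖ ^ 2 + ‖TT xq a G (M + i)‖ ^ 2 / mu := by
    intro i _
    rw [norm_mul, RCLike.norm_conj]
    set u := ‖TT xq a F (M + i)‖
    set v := ‖TT xq a G (M + i)‖
    have h3 : 0 ≤ (mu * u - v) ^ 2 / mu := by positivity
    have h4 : (mu * u - v) ^ 2 / mu = mu * u ^ 2 + v ^ 2 / mu - 2 * (u * v) := by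
      field_simp
      ring
    linarith
  calc 2 * ‖∑ i ∈ range h, TT xq a F (M + i) * (starRingEnd ℂ) (TT xq a G (M + i))‖
      ≤ 2 * ∑ i ∈ range h, ‖TT xq a F (M + i) * (starRingEnd ℂ) (TT xq a G (M + i))‖ :=
        mul_le_mul_of_nonneg_left (norm_sum_le _ _) (by norm_num)
    _ = ∑ i ∈ range h, 2 * ‖TT xq a F (M + i) * (starRingEnd ℂ) (TT xq a G (M + i))‖ :=
        Finset.mul_sum _ _ _
    _ ≤ ∑ i ∈ range h, (mu * ‖TT xq a F (M + i)‖ ^ 2 + ‖TT xq a G (M + i)‖ ^ 2 / mu) :=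
        Finset.sum_le_sum h3
    _ = mu * ∑ i ∈ range h, ‖TT xq a F (M + i)‖ ^ 2
        + (∑ i ∈ range h, ‖TT xq a G (M + i)‖ ^ 2) / mu := by
        rw [Finset.sum_add_distrib, Finset.mul_sum, Finset.sum_div]
    _ ≤ mu * ((h + 1.182 * P ^ 2) * En a F) + (h + 1.182 * Q ^ 2) * En a G / mu := by
        apply add_le_add
        · exact mul_le_mul_of_nonneg_left h1 hmu.le
        · exact div_le_div_of_nonneg_right h2 hmu.le

end Pool.Agent.Helper25
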