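import Mathlib
import Pool.Agent.Helper25.LSieve

set_option autoImplicit false

namespace Pool.Agent.Helper25

open Finset

lemma two_div_pi_sq : 2 / Real.pi ^ 2 ≤ 0.2027 := by
  have h := Real.pi_gt_d4
  have hpi := Real.pi_pos
  rw [div_le_iff₀ (by positivity)]
  nlinarith

lemma interior {F G : Finset (ℕ × ℕ)} {P Q R : ℝ} (hR : 4 ≤ R) (hQ : 8 ≤ Q) (hP : P = R ^ 2 * Q)
    (hF : Good F P) (hG : Good G Q) (hd : ∀ r ∈ F, ∀ s ∈ G, r ≠ s) (a : ℕ × ℕ → ℂ) (M : ℤ)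
    (H L : ℕ) :
    2 * ‖∑ h ∈ range H, ∑ i ∈ range L,
      TT xq a F (M + h + i) * (starRingEnd ℂ) (TT xq a G (M + h + i))‖
      ≤ 0.22 * (R * P ^ 2 * Q ^ 2) * (En a F + En a G) := by
  have hR2 : 16 ≤ R ^ 2 := by nlinarith
  have hR0 : 0 < R := by linarith
  have hQ0 : 0 < Q := by linarith
  have hQ2 : 64 ≤ Q ^ 2 := by nlinarith
  have hP128 : 128 ≤ P := by rw [hP]; nlinarith
  have hP0 : 0 < P := by linarith
  have hP2 : 16384 ≤ P ^ 2 := by nlinarith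
  have hpi := two_div_pi_sq
  have hpi0 : 0 ≤ 2 / Real.pi ^ 2 := by positivity
  have hrowA : ∀ r ∈ F, ∑ s ∈ G, kk r s ≤ 0.22 * (P ^ 2 * Q ^ 2) := by
    intro r hr
    refine (cross_row (by linarith) (by linarith) hF hG hd hr).trans ?_
    have h1 : P * Q ^ 3 ≤ P ^ 2 * Q ^ 2 / 16 := by
      have e : P ^ 2 * Q ^ 2 / 16 - P * Q ^ 3 = P * Q ^ 3 * (R ^ 2 - 16) / 16 := by
        rw [hP]; ring
      have h2 : 0 ≤ P * Q ^ 3 * (R ^ 2 - 16) / 16 := by
        apply div_nonneg _ (by norm_num)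
        exact mul_nonneg (by positivity) (by linarith)
      linarith
    have h2 : Q ^ 2 ≤ P ^ 2 * Q ^ 2 / 16384 := by
      have h3 := mul_le_mul_of_nonneg_right hP2 (show 0 ≤ Q ^ 2 by positivity)
      linarith
    have h3 : 2 / Real.pi ^ 2 * (P ^ 2 * Q ^ 2 + P * Q ^ 3)
        ≤ 0.2027 * (P ^ 2 * Q ^ 2 + P ^ 2 * Q ^ 2 / 16) := by
      apply mul_le_mul hpi (by linarith) (by positivity) (by norm_num)
    have h4 : 0 ≤ P ^ 2 * Q ^ 2 := by positivity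
    linarith
  have hrowB : ∀ s ∈ G, ∑ r ∈ F, kk r s ≤ 0.22 * (R ^ 2 * P ^ 2 * Q ^ 2) := by
    intro s hs
    have e : ∑ r ∈ F, kk r s = ∑ r ∈ F, kk s r := Finset.sum_congr rfl (fun r _ => kk_symm r s)
    rw [e]
    refine (cross_row (by linarith) (by linarith) hG hF (fun r hr s hs h => hd s hs r hr h.symm)
      hs).trans ?_
    have e2 : Q * P ^ 3 = R ^ 2 * P ^ 2 * Q ^ 2 := by rw [hP]; ring
    have h1 : Q ^ 2 * P ^ 2 ≤ R ^ 2 * P ^ 2 * Q ^ 2 / 16 := by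
      have := mul_le_mul_of_nonneg_right hR2 (show 0 ≤ P ^ 2 * Q ^ 2 by positivity)
      linarith
    have h2 : P ^ 2 ≤ R ^ 2 * P ^ 2 * Q ^ 2 / 1024 := by
      have h3 : (1024 : ℝ) ≤ R ^ 2 * Q ^ 2 := by nlinarith
      have := mul_le_mul_of_nonneg_right h3 (show 0 ≤ P ^ 2 by positivity)
      linarith
    have h3 : 2 / Real.pi ^ 2 * (Q ^ 2 * P ^ 2 + Q * P ^ 3)
        ≤ 0.2027 * (R ^ 2 * P ^ 2 * Q ^ 2 / 16 + R ^ 2 * P ^ 2 * Q ^ 2) := by
      apply mul_le_mul hpi (by linarith) (by positivity) (by norm_num)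
    have h4 : 0 ≤ R ^ 2 * P ^ 2 * Q ^ 2 := by positivity
    linarith
  have hs := schur (F := F) (G := G) (k := kk) kk_nonneg hR0 hrowA hrowB
    (fun r => ‖a r‖) (fun r => ‖a r‖)
  have h1 := norm_double_le (F := F) (G := G) (by
    intro r hr s hs hne
    obtain ⟨a1, a2, a3, a4⟩ := hF r hr
    obtain ⟨b1, b2, b3, b4⟩ := hG s hs
    exact sin_ne a1 b1 a3 b3 a4 b4 hne) a M H L
  have h2 : ∑ r ∈ F, ∑ s ∈ G, ‖a r‖ * ‖a s‖ * ((if r = s then (H : ℝ) * L else 0) + kk r s)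
      = ∑ r ∈ F, ∑ s ∈ G, ‖a r‖ * ‖a s‖ * kk r s := by
    apply Finset.sum_congr rfl
    intro r hr
    apply Finset.sum_congr rfl
    intro s hs
    rw [if_neg (hd r hr s hs), zero_add]
  rw [h2] at h1
  simp only at hs
  have e1 : ∑ r ∈ F, ‖a r‖ ^ 2 = En a F := rfl
  have e2 : ∑ r ∈ G, ‖a r‖ ^ 2 = En a G := rfl
  rw [e1, e2] at hs
  have e3 : R * (0.22 * (P ^ 2 * Q ^ 2)) * En a F + 0.22 * (R ^ 2 * P ^ 2 * Q ^ 2) / R * En a G
      = 0.22 * (R * P ^ 2 * Q ^ 2) * (En a F + En a G) := by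
    field_simp
  linarith

/-- cross terms of two blocks -/
theorem cross {F G : Finset (ℕ × ℕ)} {P Q R : ℝ} (hR : 4 ≤ R) (hQ : 8 ≤ Q) (hP : P = R ^ 2 * Q)
    (hF : Good F P) (hG : Good G Q) (hd : ∀ r ∈ F, ∀ s ∈ G, r ≠ s) (a : ℕ × ℕ → ℂ) (M : ℤ)
    (N : ℕ) :
    2 * ‖∑ i ∈ range N, TT xq a F (M + i) * (starRingEnd ℂ) (TT xq a G (M + i))‖
      ≤ 1.69 * (R * P * Q) * (En a F + En a G) := by
  have hR2 : 16 ≤ R ^ 2 := by nlinarith
  have hR0 : 0 < R := by linarith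
  have hQ0 : 0 < Q := by linarith
  have hP128 : 128 ≤ P := by rw [hP]; nlinarith
  have hP0 : 0 < P := by linarith
  obtain ⟨K, hK⟩ : ∃ K, ⌈P * Q / 2⌉₊ = K + 1 := by
    have : 0 < ⌈P * Q / 2⌉₊ := Nat.ceil_pos.mpr (by positivity)
    exact ⟨⌈P * Q / 2⌉₊ - 1, by omega⟩
  have hK1 : P * Q / 2 ≤ (K : ℝ) + 1 := by
    have := Nat.le_ceil (P * Q / 2)
    rw [hK] at this
    exact_mod_cast this
  have hK2 : (K : ℝ) < P * Q / 2 := by
    have := Nat.ceil_lt_add_one (a := P * Q / 2) (by positivity)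
    rw [hK] at this
    push_cast at this
    linarith
  have hK0 : (0:ℝ) < (K : ℝ) + 1 := by positivity
  set EF := En a F with hEF
  set EG := En a G with hEG
  have hEF0 : 0 ≤ EF := En_nonneg a F
  have hEG0 : 0 ≤ EG := En_nonneg a G
  set u : ℤ → ℂ := fun n => TT xq a F n * (starRingEnd ℂ) (TT xq a G n) with hu
  have hav := average u M N (K + 1)
  set S := ∑ i ∈ range N, u (M + i) with hS
  set I := ∑ h ∈ range (K + 1), ∑ i ∈ range N, u (M + h + i) with hI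
  have hint : 2 * ‖I‖ ≤ 0.22 * (R * P ^ 2 * Q ^ 2) * (EF + EG) :=
    interior hR hQ hP hF hG hd a M (K + 1) N
  set mu : ℝ := 0.52 / R with hmu
  have hmu0 : 0 < mu := by positivity
  have hb : ∀ (M' : ℤ) (h : ℕ), 2 * ‖∑ i ∈ range h, u (M' + i)‖
      ≤ mu * ((h + 1.182 * P ^ 2) * EF) + (h + 1.182 * Q ^ 2) * EG / mu := by
    intro M' h
    exact boundary (by linarith) hQ hmu0 hF hG a M' h
  have hbs : 2 * ‖∑ h ∈ range (K + 1), (∑ i ∈ range h, u (M + i) - ∑ i ∈ range h, u (M + N + i))‖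
      ≤ 2 * (((K : ℝ) + 1) * (mu * ((K / 2 + 1.182 * P ^ 2) * EF)
        + (K / 2 + 1.182 * Q ^ 2) * EG / mu)) := by
    calc 2 * ‖∑ h ∈ range (K + 1), (∑ i ∈ range h, u (M + i) - ∑ i ∈ range h, u (M + N + i))‖
        ≤ 2 * ∑ h ∈ range (K + 1), ‖∑ i ∈ range h, u (M + i) - ∑ i ∈ range h, u (M + N + i)‖ :=
          mul_le_mul_of_nonneg_left (norm_sum_le _ _) (by norm_num)
      _ = ∑ h ∈ range (K + 1), 2 * ‖∑ i ∈ range h, u (M + i) - ∑ i ∈ range h, u (M + N + i)‖ :=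
          Finset.mul_sum _ _ _
      _ ≤ ∑ h ∈ range (K + 1), 2 * (mu * (((h : ℝ) + 1.182 * P ^ 2) * EF)
          + ((h : ℝ) + 1.182 * Q ^ 2) * EG / mu) := by
          apply Finset.sum_le_sum
          intro h _
          have h1 := hb M h
          have h2 := hb (M + N) h
          have h3 := norm_sub_le (∑ i ∈ range h, u (M + i)) (∑ i ∈ range h, u (M + N + i))
          linarith
      _ = 2 * (((K : ℝ) + 1) * (mu * ((K / 2 + 1.182 * P ^ 2) * EF)
        + (K / 2 + 1.182 * Q ^ 2) * EG / mu)) := by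
          have e : ∀ h : ℕ, 2 * (mu * (((h : ℝ) + 1.182 * P ^ 2) * EF)
              + ((h : ℝ) + 1.182 * Q ^ 2) * EG / mu)
              = (h : ℝ) * (2 * (mu * EF + EG / mu))
                + 2 * (mu * (1.182 * P ^ 2 * EF) + 1.182 * Q ^ 2 * EG / mu) := by
            intro h
            ring
          rw [Finset.sum_congr rfl (fun h _ => e h), Finset.sum_add_distrib, ← Finset.sum_mul,
            sum_range_cast, Finset.sum_const, card_range, nsmul_eq_mul]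
          push_cast
          ring
  have h1 : ((K : ℝ) + 1) * (2 * ‖S‖) ≤ 2 * ‖I‖
      + 2 * ‖∑ h ∈ range (K + 1), (∑ i ∈ range h, u (M + i) - ∑ i ∈ range h, u (M + N + i))‖ := by
    have h2 : ‖(((K + 1 : ℕ) : ℂ)) * S‖ = ((K : ℝ) + 1) * ‖S‖ := by
      rw [norm_mul, Complex.norm_natCast]
      push_cast
      rfl
    have h3 : ‖(((K + 1 : ℕ) : ℂ)) * S‖ ≤ ‖I‖
      + ‖∑ h ∈ range (K + 1), (∑ i ∈ range h, u (M + i) - ∑ i ∈ range h, u (M + N + i))‖ := by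
      rw [hav]
      exact norm_add_le _ _
    rw [h2] at h3
    linarith
  have h2 : 0.22 * (R * P ^ 2 * Q ^ 2) * (EF + EG)
      ≤ ((K : ℝ) + 1) * (0.44 * (R * P * Q) * (EF + EG)) := by
    have h3 := mul_le_mul_of_nonneg_right hK1
      (show 0 ≤ 0.44 * (R * P * Q) * (EF + EG) by positivity)
    have e : P * Q / 2 * (0.44 * (R * P * Q) * (EF + EG))
        = 0.22 * (R * P ^ 2 * Q ^ 2) * (EF + EG) := by ring
    rw [e] at h3
    exact h3
  have h3 : mu * (K / 2 + 1.182 * P ^ 2) ≤ 0.6229 * (R * P * Q) := by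
    have h4 : mu * (K / 2 + 1.182 * P ^ 2) ≤ mu * (P * Q / 4 + 1.182 * P ^ 2) := by
      apply mul_le_mul_of_nonneg_left _ hmu0.le
      linarith
    have h5 : mu * (P * Q / 4 + 1.182 * P ^ 2) = 0.52 * (P * Q / (4 * R) + 1.182 * (R * P * Q)) := by
      rw [hmu]
      have : P ^ 2 / R = R * P * Q := by
        rw [div_eq_iff hR0.ne']
        nth_rewrite 1 [sq]
        nth_rewrite 2 [hP]
        ring
      rw [← this]
      field_simp
    have h6 : P * Q / (4 * R) ≤ R * P * Q / 64 := by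
      rw [div_le_div_iff₀ (by positivity) (by norm_num)]
      have := mul_le_mul_of_nonneg_right hR2 (show 0 ≤ P * Q by positivity)
      nlinarith
    have h7 : 0 ≤ R * P * Q := by positivity
    linarith
  have h4 : (K / 2 + 1.182 * Q ^ 2) / mu ≤ 0.6229 * (R * P * Q) := by
    have h5 : (K / 2 + 1.182 * Q ^ 2) / mu ≤ (P * Q / 4 + 1.182 * (P * Q / 16)) / mu := by
      apply div_le_div_of_nonneg_right _ hmu0.le
      have h6 : Q ^ 2 ≤ P * Q / 16 := by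
        rw [hP]
        have := mul_le_mul_of_nonneg_right hR2 (show 0 ≤ Q ^ 2 by positivity)
        nlinarith
      linarith
    have h6 : (P * Q / 4 + 1.182 * (P * Q / 16)) / mu = (0.25 + 1.182 / 16) / 0.52 * (R * P * Q) := by
      rw [hmu]
      field_simp
      norm_num
    have h7 : 0 ≤ R * P * Q := by positivity
    have h8 : (0.25 + 1.182 / 16) / 0.52 * (R * P * Q) ≤ 0.6229 * (R * P * Q) := by
      apply mul_le_mul_of_nonneg_right _ h7
      norm_num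
    linarith
  have h5 : mu * ((K / 2 + 1.182 * P ^ 2) * EF) + (K / 2 + 1.182 * Q ^ 2) * EG / mu
      ≤ 0.6229 * (R * P * Q) * (EF + EG) := by
    have h6 := mul_le_mul_of_nonneg_right h3 hEF0
    have h7 := mul_le_mul_of_nonneg_right h4 hEG0
    have e1 : mu * ((K / 2 + 1.182 * P ^ 2) * EF) = mu * (K / 2 + 1.182 * P ^ 2) * EF := by ring
    have e2 : (K / 2 + 1.182 * Q ^ 2) * EG / mu = (K / 2 + 1.182 * Q ^ 2) / mu * EG := by ring
    rw [e1, e2]
    linarith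
  have h6 := mul_le_mul_of_nonneg_left h5 hK0.le
  have h7 : ((K : ℝ) + 1) * (2 * ‖S‖) ≤ ((K : ℝ) + 1) * (1.69 * (R * P * Q) * (EF + EG)) := by
    have h8 : 0 ≤ ((K : ℝ) + 1) * ((R * P * Q) * (EF + EG)) := by positivity
    nlinarith
  exact le_of_mul_le_mul_left h7 hK0

end Pool.Agent.Helper25
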