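import Mathlib
import Pool.Agent.Helper25.Cross

set_option autoImplicit false

namespace Pool.Agent.Helper25

open Finset

/-- interaction weights of the blocks -/
noncomputable def ww (j k : ℕ) : ℝ :=
  if j = k then 0 else (1 / 64 : ℝ) ^ (min j k) * (1 / 4 : ℝ) ^ (max j k)

lemma ww_symm (j k : ℕ) : ww j k = ww k j := by
  unfold ww
  by_cases h : j = k
  · rw [h]
  · rw [if_neg h, if_neg (fun h' => h h'.symm), min_comm, max_comm]

lemma geo64 (j : ℕ) : ∑ k ∈ range j, (1 / 64 : ℝ) ^ k = 64 / 63 * (1 - (1 / 64 : ℝ) ^ j) := by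
  induction j with
  | zero => simp
  | succ j ih =>
    rw [Finset.sum_range_succ, ih, pow_succ]
    ring

lemma geo4 (n : ℕ) : ∑ k ∈ range n, (1 / 4 : ℝ) ^ k ≤ 4 / 3 := by
  have h : ∑ k ∈ range n, (1 / 4 : ℝ) ^ k = 4 / 3 * (1 - (1 / 4 : ℝ) ^ n) := by
    induction n with
    | zero => simp
    | succ j ih =>
      rw [Finset.sum_range_succ, ih, pow_succ]
      ring
  rw [h]
  have : (0:ℝ) ≤ (1 / 4 : ℝ) ^ n := by positivity
  linarith

lemma ww_row {j J : ℕ} (hj : j ≤ J) :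
    1.182 * (1 / 256 : ℝ) ^ j + 1.69 * ∑ k ∈ range (J + 1), ww j k ≤ 1.75 * (1 / 4 : ℝ) ^ j := by
  obtain ⟨n, rfl⟩ : ∃ n, J = j + n := ⟨J - j, by omega⟩
  have h1 : ∑ k ∈ range (j + n + 1), ww j k
      = ∑ k ∈ range j, ww j k + ww j j + ∑ i ∈ range n, ww j (j + 1 + i) := by
    have : j + n + 1 = (j + 1) + n := by omega
    rw [this, Finset.sum_range_add, Finset.sum_range_succ]
  have h2 : ∑ k ∈ range j, ww j k = 64 / 63 * (1 - (1 / 64 : ℝ) ^ j) * (1 / 4 : ℝ) ^ j := by
    rw [← geo64, Finset.sum_mul]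
    apply Finset.sum_congr rfl
    intro k hk
    rw [mem_range] at hk
    unfold ww
    rw [if_neg (by omega), min_eq_right hk.le, max_eq_left hk.le]
  have h3 : ww j j = 0 := by unfold ww; rw [if_pos rfl]
  have h4 : ∑ i ∈ range n, ww j (j + 1 + i) ≤ (1 / 64 : ℝ) ^ j * ((1 / 4 : ℝ) ^ j * (1 / 3)) := by
    have h5 : ∑ i ∈ range n, ww j (j + 1 + i)
        = (1 / 64 : ℝ) ^ j * ((1 / 4 : ℝ) ^ j * ((1 / 4) * ∑ i ∈ range n, (1 / 4 : ℝ) ^ i)) := by
      rw [Finset.mul_sum, Finset.mul_sum, Finset.mul_sum]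
      apply Finset.sum_congr rfl
      intro i _
      unfold ww
      rw [if_neg (by omega), min_eq_left (by omega), max_eq_right (by omega), pow_add, pow_add,
        pow_one]
      ring
    rw [h5]
    apply mul_le_mul_of_nonneg_left _ (by positivity)
    apply mul_le_mul_of_nonneg_left _ (by positivity)
    have := geo4 n
    linarith
  rw [h1, h2, h3]
  have h6 : (1 / 256 : ℝ) ^ j = (1 / 64 : ℝ) ^ j * (1 / 4 : ℝ) ^ j := by
    rw [← mul_pow]
    norm_num
  rw [h6]
  set x := (1 / 64 : ℝ) ^ j with hx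
  set y := (1 / 4 : ℝ) ^ j with hy
  have hx1 : x ≤ 1 := pow_le_one₀ (by norm_num) (by norm_num)
  have hx0 : 0 < x := by positivity
  have hy0 : 0 < y := by positivity
  have hxy : x * y ≤ y := by nlinarith
  nlinarith

theorem ls_blocks {J : ℕ} {Q0 : ℝ} (hQ : 8 ≤ Q0 / 16 ^ J) (F : ℕ → Finset (ℕ × ℕ))
    (hF : ∀ j ≤ J, Good (F j) (Q0 / 16 ^ j))
    (hd : ∀ j k, j < k → k ≤ J → ∀ r ∈ F j, ∀ s ∈ F k, r ≠ s) (a : ℕ × ℕ → ℂ) (M : ℤ) (N : ℕ) :
    ∑ i ∈ range N, ‖∑ j ∈ range (J + 1), TT xq a (F j) (M + i)‖ ^ 2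
      ≤ ∑ j ∈ range (J + 1), (N + 1.75 * (1 / 4) ^ j * Q0 ^ 2) * En a (F j) := by
  have hQ0 : 0 < Q0 := by
    have h1 : (0:ℝ) < 16 ^ J := by positivity
    rw [le_div_iff₀ h1] at hQ
    nlinarith
  have hQj : ∀ j ≤ J, 8 ≤ Q0 / 16 ^ j := by
    intro j hj
    refine hQ.trans ?_
    apply div_le_div_of_nonneg_left hQ0.le (by positivity)
    exact pow_le_pow_right₀ (by norm_num) hj
  set z : ℕ → ℕ → ℂ := fun j i => TT xq a (F j) (M + i) with hz
  set B : ℕ → ℕ → ℂ := fun j k => ∑ i ∈ range N, z j i * (starRingEnd ℂ) (z k i) with hB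
  set E : ℕ → ℝ := fun j => En a (F j) with hE
  have hE0 : ∀ j, 0 ≤ E j := fun j => En_nonneg _ _
  have h1 : ((∑ i ∈ range N, ‖∑ j ∈ range (J + 1), z j i‖ ^ 2 : ℝ) : ℂ)
      = ∑ j ∈ range (J + 1), ∑ k ∈ range (J + 1), B j k := by
    push_cast
    have h2 : ∀ i ∈ range N, ((‖∑ j ∈ range (J + 1), z j i‖ : ℝ) : ℂ) ^ 2
        = ∑ j ∈ range (J + 1), ∑ k ∈ range (J + 1), z j i * (starRingEnd ℂ) (z k i) := by
      intro i _
      rw [← Complex.mul_conj', map_sum, Finset.sum_mul_sum]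
    rw [Finset.sum_congr rfl h2, Finset.sum_comm]
    apply Finset.sum_congr rfl
    intro j _
    rw [Finset.sum_comm]
  have h2 : ∑ i ∈ range N, ‖∑ j ∈ range (J + 1), z j i‖ ^ 2
      = ‖∑ j ∈ range (J + 1), ∑ k ∈ range (J + 1), B j k‖ := by
    rw [← h1, Complex.norm_real, Real.norm_eq_abs, abs_of_nonneg]
    exact Finset.sum_nonneg (fun _ _ => by positivity)
  have hlt : ∀ j k, j < k → k ≤ J → ‖B j k‖ ≤ 0.845 * Q0 ^ 2 * ww j k * (E j + E k) := by
    intro j k hjk hk
    have h3 := cross (F := F j) (G := F k) (P := Q0 / 16 ^ j) (Q := Q0 / 16 ^ k)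
      (R := 4 ^ (k - j)) (by
        calc (4:ℝ) = 4 ^ 1 := by norm_num
          _ ≤ 4 ^ (k - j) := pow_le_pow_right₀ (by norm_num) (by omega)) (hQj k hk) (by
        obtain ⟨n, rfl⟩ : ∃ n, k = j + n := ⟨k - j, by omega⟩
        rw [Nat.add_sub_cancel_left, ← pow_mul, mul_comm n 2, pow_mul, pow_add]
        norm_num
        field_simp) (hF j (by omega)) (hF k hk) (hd j k hjk hk) a M N
    have h4 : (4:ℝ) ^ (k - j) * (Q0 / 16 ^ j) * (Q0 / 16 ^ k) = Q0 ^ 2 * ww j k := by
      unfold ww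
      rw [if_neg (by omega), min_eq_left hjk.le, max_eq_right hjk.le]
      obtain ⟨n, rfl⟩ : ∃ n, k = j + n := ⟨k - j, by omega⟩
      rw [Nat.add_sub_cancel_left, pow_add, pow_add, div_pow, div_pow, div_pow, one_pow, one_pow]
      have e1 : (16:ℝ) ^ j = 4 ^ j * 4 ^ j := by rw [← mul_pow]; norm_num
      have e2 : (16:ℝ) ^ n = 4 ^ n * 4 ^ n := by rw [← mul_pow]; norm_num
      have e3 : (64:ℝ) ^ j = 4 ^ j * 4 ^ j * 4 ^ j := by rw [← mul_pow, ← mul_pow]; norm_num
      rw [e1, e2, e3]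
      field_simp
    rw [h4] at h3
    have h5 : B j k = ∑ i ∈ range N, TT xq a (F j) (M + i) * (starRingEnd ℂ) (TT xq a (F k) (M + i)) :=
      rfl
    have h6 : E j + E k = En a (F j) + En a (F k) := rfl
    rw [h5, h6]
    linarith
  have hBjk : ∀ j ∈ range (J + 1), ∀ k ∈ range (J + 1),
      ‖B j k‖ ≤ (if j = k then (N + 1.182 * (Q0 / 16 ^ j) ^ 2) * E j else 0)
        + 0.845 * Q0 ^ 2 * ww j k * (E j + E k) := by
    intro j hj k hk
    rw [mem_range] at hj hk
    rcases lt_trichotomy j k with h | h | h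
    · rw [if_neg (by omega), zero_add]
      exact hlt j k h (by omega)
    · subst h
      rw [if_pos rfl]
      have h3 : ww j j = 0 := by unfold ww; rw [if_pos rfl]
      rw [h3, mul_zero, zero_mul, add_zero]
      have h4 : B j j = ((∑ i ∈ range N, ‖z j i‖ ^ 2 : ℝ) : ℂ) := by
        rw [hB]
        push_cast
        apply Finset.sum_congr rfl
        intro i _
        rw [Complex.mul_conj']
      rw [h4, Complex.norm_real, Real.norm_eq_abs,
        abs_of_nonneg (Finset.sum_nonneg (fun _ _ => by positivity))]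
      exact ls_diag (hQj j (by omega)) (hF j (by omega)) a M N
    · rw [if_neg (by omega), zero_add]
      have h3 : B j k = (starRingEnd ℂ) (B k j) := by
        rw [hB]
        dsimp only
        rw [map_sum]
        apply Finset.sum_congr rfl
        intro i _
        rw [map_mul, Complex.conj_conj, mul_comm]
      rw [h3, RCLike.norm_conj, ww_symm, add_comm (E j)]
      exact hlt k j h (by omega)
  calc ∑ i ∈ range N, ‖∑ j ∈ range (J + 1), z j i‖ ^ 2
      = ‖∑ j ∈ range (J + 1), ∑ k ∈ range (J + 1), B j k‖ := h2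
    _ ≤ ∑ j ∈ range (J + 1), ‖∑ k ∈ range (J + 1), B j k‖ := norm_sum_le _ _
    _ ≤ ∑ j ∈ range (J + 1), ∑ k ∈ range (J + 1), ‖B j k‖ :=
        Finset.sum_le_sum (fun _ _ => norm_sum_le _ _)
    _ ≤ ∑ j ∈ range (J + 1), ∑ k ∈ range (J + 1),
        ((if j = k then (N + 1.182 * (Q0 / 16 ^ j) ^ 2) * E j else 0)
        + 0.845 * Q0 ^ 2 * ww j k * (E j + E k)) :=
        Finset.sum_le_sum (fun j hj => Finset.sum_le_sum (fun k hk => hBjk j hj k hk))
    _ = ∑ j ∈ range (J + 1), ((N + 1.182 * (Q0 / 16 ^ j) ^ 2) * E j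
        + 1.69 * Q0 ^ 2 * E j * ∑ k ∈ range (J + 1), ww j k) := by
        have e1 : ∑ j ∈ range (J + 1), ∑ k ∈ range (J + 1),
            ((if j = k then (N + 1.182 * (Q0 / 16 ^ j) ^ 2) * E j else 0)
            + 0.845 * Q0 ^ 2 * ww j k * (E j + E k))
            = ∑ j ∈ range (J + 1), (N + 1.182 * (Q0 / 16 ^ j) ^ 2) * E j
              + (∑ j ∈ range (J + 1), ∑ k ∈ range (J + 1), 0.845 * Q0 ^ 2 * ww j k * E j
              + ∑ j ∈ range (J + 1), ∑ k ∈ range (J + 1), 0.845 * Q0 ^ 2 * ww j k * E k) := by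
          rw [← Finset.sum_add_distrib, ← Finset.sum_add_distrib]
          apply Finset.sum_congr rfl
          intro j hj
          rw [Finset.sum_add_distrib, Finset.sum_ite_eq, if_pos hj, ← Finset.sum_add_distrib]
          congr 1
          apply Finset.sum_congr rfl
          intro k _
          ring
        have e2 : ∑ j ∈ range (J + 1), ∑ k ∈ range (J + 1), 0.845 * Q0 ^ 2 * ww j k * E k
            = ∑ j ∈ range (J + 1), ∑ k ∈ range (J + 1), 0.845 * Q0 ^ 2 * ww j k * E j := by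
          rw [Finset.sum_comm]
          apply Finset.sum_congr rfl
          intro j _
          apply Finset.sum_congr rfl
          intro k _
          rw [ww_symm]
        rw [e1, e2, ← Finset.sum_add_distrib, ← Finset.sum_add_distrib]
        apply Finset.sum_congr rfl
        intro j _
        congr 1
        rw [← Finset.sum_add_distrib, Finset.mul_sum]
        apply Finset.sum_congr rfl
        intro k _
        ring
    _ ≤ ∑ j ∈ range (J + 1), (N + 1.75 * (1 / 4) ^ j * Q0 ^ 2) * E j := by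
        apply Finset.sum_le_sum
        intro j hj
        rw [mem_range] at hj
        have h3 := ww_row (j := j) (J := J) (by omega)
        have h4 := mul_le_mul_of_nonneg_left h3
          (show 0 ≤ Q0 ^ 2 * E j from mul_nonneg (by positivity) (hE0 j))
        have h5 : (Q0 / 16 ^ j) ^ 2 = Q0 ^ 2 * (1 / 256 : ℝ) ^ j := by
          rw [div_pow, ← pow_mul, mul_comm j 2, pow_mul, div_pow, one_pow]
          norm_num
          ring
        rw [h5]
        nlinarith

end Pool.Agent.Helper25
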