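import Mathlib
import Pool.Agent.Helper25.Expo

set_option autoImplicit false

namespace Pool.Agent.Helper25

open Finset

lemma crt_sum {R : Type*} [CommSemiring R] {r s : ℕ} (hr : 0 < r) (hs : 0 < s)
    (h : Nat.Coprime r s) (u v : ℤ → R) (hu : ∀ n k : ℤ, u (n + r * k) = u n)
    (hv : ∀ n k : ℤ, v (n + s * k) = v n) :
    ∑ m ∈ range (r * s), u m * v m = (∑ m ∈ range r, u m) * ∑ m ∈ range s, v m := by
  rw [Finset.sum_mul_sum, ← Finset.sum_product']
  have hu' : ∀ m : ℕ, u m = u ((m % r : ℕ) : ℤ) := by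
    intro m
    have : (m : ℤ) = ((m % r : ℕ) : ℤ) + r * ((m / r : ℕ) : ℤ) := by
      exact_mod_cast (Nat.mod_add_div m r).symm
    rw [this, hu]
  have hv' : ∀ m : ℕ, v m = v ((m % s : ℕ) : ℤ) := by
    intro m
    have : (m : ℤ) = ((m % s : ℕ) : ℤ) + s * ((m / s : ℕ) : ℤ) := by
      exact_mod_cast (Nat.mod_add_div m s).symm
    rw [this, hv]
  apply Finset.sum_nbij (fun m => (m % r, m % s))
  · intro m _
    rw [mem_product, mem_range, mem_range]
    exact ⟨Nat.mod_lt _ hr, Nat.mod_lt _ hs⟩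
  · intro m hm m' hm' heq
    rw [Finset.mem_coe, mem_range] at hm hm'
    simp only [Prod.mk.injEq] at heq
    have h1 : m ≡ m' [MOD r * s] := (Nat.modEq_and_modEq_iff_modEq_mul h).mp ⟨heq.1, heq.2⟩
    exact Nat.ModEq.eq_of_lt_of_lt h1 hm hm'
  · intro ⟨x, y⟩ hxy
    rw [Finset.mem_coe, mem_product, mem_range, mem_range] at hxy
    have h1 := (Nat.chineseRemainder h x y).2
    have h2 := Nat.chineseRemainder_lt_mul h x y hr.ne' hs.ne'
    refine ⟨(Nat.chineseRemainder h x y : ℕ), ?_, ?_⟩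
    · rw [Finset.mem_coe, mem_range]
      exact h2
    · simp only [Prod.mk.injEq]
      constructor
      · have := h1.1
        unfold Nat.ModEq at this
        rw [this, Nat.mod_eq_of_lt hxy.1]
      · have := h1.2
        unfold Nat.ModEq at this
        rw [this, Nat.mod_eq_of_lt hxy.2]
  · intro m _
    rw [hu' m, hv' m]

lemma ex_ne_one {x : ℝ} (hx : ∀ k : ℤ, x ≠ k) : ex x ≠ 1 := by
  intro h
  have h1 := norm_ex_sub_one x
  rw [h, sub_self, norm_zero] at h1
  have h2 : Real.sin (Real.pi * x) = 0 := by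
    have : |Real.sin (Real.pi * x)| = 0 := by linarith
    exact abs_eq_zero.mp this
  rw [Real.sin_eq_zero_iff] at h2
  obtain ⟨n, hn⟩ := h2
  have hpi := Real.pi_pos
  have : Real.pi * x = Real.pi * n := by linarith
  exact hx n (mul_left_cancel₀ hpi.ne' this)

lemma orth {q : ℕ} (hq : 0 < q) (k : ℤ) :
    ∑ b ∈ range q, ex ((b : ℝ) / q * k) = if (q : ℤ) ∣ k then (q : ℂ) else 0 := by
  have hq' : (q : ℝ) ≠ 0 := by positivity
  split_ifs with h
  · obtain ⟨m, rfl⟩ := h
    have : ∀ b ∈ range q, ex ((b : ℝ) / q * ((q * m : ℤ) : ℝ)) = 1 := by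
      intro b _
      have e : (b : ℝ) / q * ((q * m : ℤ) : ℝ) = ((b * m : ℤ) : ℝ) := by
        push_cast
        field_simp
      rw [e, ex_int]
    rw [Finset.sum_congr rfl this]
    simp
  · have e : ∀ b ∈ range q, ex ((b : ℝ) / q * k) = ex ((k : ℝ) / q) ^ b := by
      intro b _
      rw [← ex_nat_mul]
      congr 1
      ring
    rw [Finset.sum_congr rfl e]
    have h1 : (∑ i ∈ range q, ex ((k : ℝ) / q) ^ i) * (ex ((k : ℝ) / q) - 1)
        = ex ((k : ℝ) / q) ^ q - 1 := geom_sum_mul _ _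
    have h2 : ex ((k : ℝ) / q) ^ q = 1 := by
      rw [← ex_nat_mul]
      have : (k : ℝ) / q * q = (k : ℤ) := by field_simp
      rw [this, ex_int]
    have h3 : ex ((k : ℝ) / q) - 1 ≠ 0 := by
      apply sub_ne_zero_of_ne
      apply ex_ne_one
      intro m hm
      apply h
      rw [div_eq_iff hq'] at hm
      refine ⟨m, ?_⟩
      have : (k : ℝ) = ((q * m : ℤ) : ℝ) := by
        rw [hm]
        push_cast
        ring
      exact_mod_cast this
    rw [h2, sub_self] at h1
    exact (mul_eq_zero.mp h1).resolve_right h3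

/-- Fourier coefficient of a periodic function -/
noncomputable def fc (T : ℤ → ℝ) (q b : ℕ) : ℂ :=
  1 / (q : ℂ) * ∑ m ∈ range q, (T m : ℂ) * ex (-((b : ℝ) / q * m))

lemma inversion {q : ℕ} (hq : 0 < q) {T : ℤ → ℝ} (hT : ∀ n k : ℤ, T (n + q * k) = T n) (n : ℤ) :
    (T n : ℂ) = ∑ b ∈ range q, fc T q b * ex ((b : ℝ) / q * n) := by
  have hqC : (q : ℂ) ≠ 0 := by exact_mod_cast hq.ne'
  have h1 : ∑ b ∈ range q, fc T q b * ex ((b : ℝ) / q * n)
      = 1 / (q : ℂ) * ∑ m ∈ range q, (T m : ℂ) * ∑ b ∈ range q, ex ((b : ℝ) / q * ((n - m : ℤ) : ℝ)) := by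
    unfold fc
    simp only [Finset.mul_sum, Finset.sum_mul]
    rw [Finset.sum_comm]
    apply Finset.sum_congr rfl
    intro m _
    apply Finset.sum_congr rfl
    intro b _
    have : (b : ℝ) / q * ((n - m : ℤ) : ℝ) = -((b : ℝ) / q * m) + (b : ℝ) / q * n := by
      push_cast
      ring
    rw [this, ex_add]
    ring
  rw [h1]
  simp only [orth hq]
  have h2 : ∑ m ∈ range q, (T m : ℂ) * (if (q : ℤ) ∣ n - m then (q : ℂ) else 0)
      = (T n : ℂ) * q := by
    have hq0 : (0 : ℤ) < q := by exact_mod_cast hq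
    set m0 := (n % q).toNat with hm0
    have hm0' : (m0 : ℤ) = n % q := Int.toNat_of_nonneg (Int.emod_nonneg _ hq0.ne')
    have hm0lt : m0 < q := by
      have := Int.emod_lt_of_pos n hq0
      omega
    rw [Finset.sum_eq_single m0]
    · have h3 : (q : ℤ) ∣ n - m0 := by
        rw [hm0']
        exact Int.dvd_self_sub_emod
      rw [if_pos h3]
      congr 2
      have : n = m0 + q * (n / q) := by
        rw [hm0']
        exact (Int.emod_add_mul_ediv n q).symm
      rw [this, hT]
    · intro m hm hne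
      rw [mem_range] at hm
      rw [if_neg, mul_zero]
      intro h4
      apply hne
      have h5 : (m : ℤ) = n % q := by
        have h6 : n % q = m % q :=
          Int.emod_eq_emod_iff_emod_sub_eq_zero.mpr (Int.emod_eq_zero_of_dvd h4)
        rw [h6]
        exact (Int.emod_eq_of_lt (by positivity) (by exact_mod_cast hm)).symm
      omega
    · intro h3
      exact absurd (mem_range.mpr hm0lt) h3
  rw [h2]
  field_simp

lemma parseval {q : ℕ} (hq : 0 < q) (T : ℤ → ℝ) :
    ∑ b ∈ range q, ‖fc T q b‖ ^ 2 = 1 / (q : ℝ) * ∑ m ∈ range q, T m ^ 2 := by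
  have hqC : (q : ℂ) ≠ 0 := by exact_mod_cast hq.ne'
  have h : ((∑ b ∈ range q, ‖fc T q b‖ ^ 2 : ℝ) : ℂ) = ((1 / (q : ℝ) * ∑ m ∈ range q, T m ^ 2 : ℝ) : ℂ) := by
    push_cast
    have h1 : ∀ b ∈ range q, ((‖fc T q b‖ : ℝ) : ℂ) ^ 2
        = 1 / (q : ℂ) ^ 2 * ∑ m ∈ range q, ∑ m' ∈ range q,
          (T m : ℂ) * (T m' : ℂ) * ex ((b : ℝ) / q * ((m' - m : ℤ) : ℝ)) := by
      intro b _
      rw [← Complex.mul_conj']
      unfold fc
      rw [map_mul, map_sum]
      have e1 : (starRingEnd ℂ) (1 / (q : ℂ)) = 1 / (q : ℂ) := by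
        rw [map_div₀, map_one, Complex.conj_natCast]
      rw [e1]
      have e2 : ∀ m : ℕ, (starRingEnd ℂ) ((T m : ℂ) * ex (-((b : ℝ) / q * m)))
          = (T m : ℂ) * ex ((b : ℝ) / q * m) := by
        intro m
        rw [map_mul, conj_ex, Complex.conj_ofReal, neg_neg]
      simp only [e2]
      have e3 : 1 / (q : ℂ) * (∑ m ∈ range q, (T m : ℂ) * ex (-((b : ℝ) / q * m)))
          * (1 / (q : ℂ) * ∑ m ∈ range q, (T m : ℂ) * ex ((b : ℝ) / q * m))
          = 1 / (q : ℂ) ^ 2 * ((∑ m ∈ range q, (T m : ℂ) * ex (-((b : ℝ) / q * m)))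
            * ∑ m ∈ range q, (T m : ℂ) * ex ((b : ℝ) / q * m)) := by
        ring
      rw [e3, Finset.sum_mul_sum]
      congr 1
      apply Finset.sum_congr rfl
      intro m _
      apply Finset.sum_congr rfl
      intro m' _
      have : (b : ℝ) / q * ((m' - m : ℤ) : ℝ) = -((b : ℝ) / q * m) + (b : ℝ) / q * m' := by
        push_cast
        ring
      rw [this, ex_add]
      ring
    rw [Finset.sum_congr rfl h1, ← Finset.mul_sum]
    have h2 : ∑ b ∈ range q, ∑ m ∈ range q, ∑ m' ∈ range q,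
          (T m : ℂ) * (T m' : ℂ) * ex ((b : ℝ) / q * ((m' - m : ℤ) : ℝ))
        = ∑ m ∈ range q, ∑ m' ∈ range q, (T m : ℂ) * (T m' : ℂ) *
          ∑ b ∈ range q, ex ((b : ℝ) / q * ((m' - m : ℤ) : ℝ)) := by
      rw [Finset.sum_comm]
      apply Finset.sum_congr rfl
      intro m _
      rw [Finset.sum_comm]
      apply Finset.sum_congr rfl
      intro m' _
      rw [Finset.mul_sum]
    rw [h2]
    simp only [orth hq]
    have h3 : ∀ m ∈ range q, ∑ m' ∈ range q, (T m : ℂ) * (T m' : ℂ) *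
        (if (q : ℤ) ∣ (m' : ℤ) - m then (q : ℂ) else 0) = (T m : ℂ) ^ 2 * q := by
      intro m hm
      rw [mem_range] at hm
      rw [Finset.sum_eq_single m]
      · rw [sub_self, if_pos (dvd_zero _)]
        ring
      · intro m' hm' hne
        rw [mem_range] at hm'
        rw [if_neg, mul_zero]
        intro hdvd
        apply hne
        obtain ⟨k, hk⟩ := hdvd
        have hk0 : k = 0 := by
          rcases lt_trichotomy k 0 with h5 | h5 | h5
          · exfalso
            have : (q : ℤ) * k ≤ q * (-1) := mul_le_mul_of_nonneg_left (by omega) (by positivity)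
            omega
          · exact h5
          · exfalso
            have : (q : ℤ) * 1 ≤ q * k := mul_le_mul_of_nonneg_left (by omega) (by positivity)
            omega
        rw [hk0, mul_zero] at hk
        omega
      · intro h4
        exact absurd (mem_range.mpr hm) h4
    rw [Finset.sum_congr rfl h3, ← Finset.sum_mul]
    field_simp
  exact_mod_cast h

end Pool.Agent.Helper25
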