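import Mathlib
import Pool.Agent.Helper25.Fourier
import Pool.Agent.Helper25.GSum

set_option autoImplicit false

namespace Pool.Agent.Helper25

open Finset

/-- local sieve function -/
noncomputable def tloc (a : ℤ) (p : ℕ) (n : ℤ) : ℝ := if (p : ℤ) ∣ n * (n + a) * (n + 6) then -1 else gg p

lemma tloc_period (a : ℤ) (p : ℕ) (n k : ℤ) : tloc a p (n + p * k) = tloc a p n := by
  unfold tloc
  have : ((p : ℤ) ∣ (n + p * k) * ((n + p * k) + a) * ((n + p * k) + 6))
      ↔ ((p : ℤ) ∣ n * (n + a) * (n + 6)) := by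
    have e : (n + p * k) * ((n + p * k) + a) * ((n + p * k) + 6)
        = n * (n + a) * (n + 6) + p * (k * ((n + p * k) + a) * ((n + p * k) + 6)
          + n * k * ((n + p * k) + 6) + n * (n + a) * k) := by ring
    rw [e]
    exact (Int.dvd_add_left (dvd_mul_right _ _))
  simp only [this]

lemma one_root {p : ℕ} (hp : 0 < p) (c : ℤ) :
    ((range p).filter (fun m : ℕ => (p : ℤ) ∣ m + c)).card = 1 := by
  rw [Finset.card_eq_one]
  have hp0 : (0 : ℤ) < p := by exact_mod_cast hp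
  refine ⟨((-c) % p).toNat, ?_⟩
  have h0 : (((-c) % p).toNat : ℤ) = (-c) % p := Int.toNat_of_nonneg (Int.emod_nonneg _ hp0.ne')
  have h1 : (-c) % p < p := Int.emod_lt_of_pos _ hp0
  ext m
  rw [mem_filter, mem_range, mem_singleton]
  constructor
  · rintro ⟨h2, h3⟩
    have h4 : (-c) % p = m % p := by
      apply Int.emod_eq_emod_iff_emod_sub_eq_zero.mpr
      apply Int.emod_eq_zero_of_dvd
      have : -c - (m : ℤ) = -(m + c) := by ring
      rw [this]
      exact (dvd_neg).mpr h3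
    have h5 : (m : ℤ) % p = m := Int.emod_eq_of_lt (by positivity) (by exact_mod_cast h2)
    omega
  · intro h2
    have h3 : (m : ℤ) = (-c) % p := by rw [h2]; exact h0
    refine ⟨by omega, ?_⟩
    rw [h3]
    have h4 : (p : ℤ) ∣ -c - (-c) % p := Int.dvd_self_sub_emod
    have : (-c) % p + c = -(-c - (-c) % p) := by ring
    rw [this]
    exact (dvd_neg).mpr h4

lemma count_roots {p : ℕ} (hp : p.Prime) (h5 : 5 ≤ p) {a : ℤ} (ha : a = 2 ∨ a = 4) :
    ((range p).filter (fun m : ℕ => (p : ℤ) ∣ m * (m + a) * (m + 6))).card = 3 := by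
  have hpi : Prime (p : ℤ) := Nat.prime_iff_prime_int.mp hp
  have hnd : ∀ c : ℤ, (c = 2 ∨ c = 4 ∨ c = 6) → ¬ (p : ℤ) ∣ c := by
    intro c hc hdvd
    have h6 : (p : ℤ) ≤ c := Int.le_of_dvd (by omega) hdvd
    obtain ⟨k, hk⟩ := hdvd
    have h7 : p ≤ 6 := by omega
    interval_cases p
    · omega
    · norm_num at hp
  have hset : (range p).filter (fun m : ℕ => (p : ℤ) ∣ m * (m + a) * (m + 6))
      = ((range p).filter (fun m : ℕ => (p : ℤ) ∣ m + 0) ∪ (range p).filter (fun m : ℕ => (p : ℤ) ∣ m + a))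
        ∪ (range p).filter (fun m : ℕ => (p : ℤ) ∣ m + 6) := by
    ext m
    simp only [mem_filter, mem_union, mem_range, add_zero]
    constructor
    · rintro ⟨h1, h2⟩
      rcases hpi.dvd_or_dvd h2 with h3 | h3
      · rcases hpi.dvd_or_dvd h3 with h4 | h4
        · exact Or.inl (Or.inl ⟨h1, h4⟩)
        · exact Or.inl (Or.inr ⟨h1, h4⟩)
      · exact Or.inr ⟨h1, h3⟩
    · rintro ((⟨h1, h2⟩ | ⟨h1, h2⟩) | ⟨h1, h2⟩)
      · exact ⟨h1, Dvd.dvd.mul_right (Dvd.dvd.mul_right h2 _) _⟩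
      · exact ⟨h1, Dvd.dvd.mul_right (Dvd.dvd.mul_left h2 _) _⟩
      · exact ⟨h1, Dvd.dvd.mul_left h2 _⟩
  have hd1 : Disjoint ((range p).filter (fun m : ℕ => (p : ℤ) ∣ m + 0))
      ((range p).filter (fun m : ℕ => (p : ℤ) ∣ m + a)) := by
    rw [Finset.disjoint_left]
    intro m hm1 hm2
    rw [mem_filter] at hm1 hm2
    apply hnd a (by omega)
    have := dvd_sub hm2.2 hm1.2
    have e : (m : ℤ) + a - (m + 0) = a := by ring
    rwa [e] at this
  have hd2 : Disjoint ((range p).filter (fun m : ℕ => (p : ℤ) ∣ m + 0) ∪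
      (range p).filter (fun m : ℕ => (p : ℤ) ∣ m + a))
      ((range p).filter (fun m : ℕ => (p : ℤ) ∣ m + 6)) := by
    rw [Finset.disjoint_left]
    intro m hm1 hm2
    rw [mem_union, mem_filter, mem_filter] at hm1
    rw [mem_filter] at hm2
    rcases hm1 with hm1 | hm1
    · apply hnd 6 (by omega)
      have := dvd_sub hm2.2 hm1.2
      have e : (m : ℤ) + 6 - (m + 0) = 6 := by ring
      rwa [e] at this
    · apply hnd (6 - a) (by omega)
      have := dvd_sub hm2.2 hm1.2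
      have e : (m : ℤ) + 6 - (m + a) = 6 - a := by ring
      rwa [e] at this
  rw [hset, Finset.card_union_of_disjoint hd2, Finset.card_union_of_disjoint hd1,
    one_root hp.pos, one_root hp.pos, one_root hp.pos]

/-- number of excluded residues -/
def om (p : ℕ) : ℕ := if p = 2 then 1 else if p = 3 then 2 else 3

lemma count_all {p : ℕ} (hp : p.Prime) {a : ℤ} (ha : a = 2 ∨ a = 4) :
    ((range p).filter (fun m : ℕ => (p : ℤ) ∣ m * (m + a) * (m + 6))).card = om p := by
  unfold om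
  split_ifs with h2 h3
  · subst h2
    rcases ha with rfl | rfl <;> decide
  · subst h3
    rcases ha with rfl | rfl <;> decide
  · have h5 : 5 ≤ p := by
      have := hp.two_le
      by_contra h
      have h4 : p = 4 := by omega
      rw [h4] at hp
      norm_num at hp
    exact count_roots hp h5 ha

lemma om_gg {p : ℕ} (hp : p.Prime) : (om p : ℝ) = ((p : ℝ) - om p) * gg p := by
  unfold om gg
  split_ifs with h2 h3
  · subst h2; norm_num
  · subst h3; norm_num
  · have h5 : 5 ≤ p := by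
      have := hp.two_le
      by_contra h
      have h4 : p = 4 := by omega
      rw [h4] at hp
      norm_num at hp
    have h6 : (5:ℝ) ≤ p := by exact_mod_cast h5
    have h7 : (p : ℝ) - 3 ≠ 0 := by linarith
    push_cast
    field_simp

lemma tloc_sum_aux {p : ℕ} (hp : p.Prime) {a : ℤ} (ha : a = 2 ∨ a = 4) (f : ℝ → ℝ) :
    ∑ m ∈ range p, f (tloc a p m) = om p * f (-1) + ((p : ℝ) - om p) * f (gg p) := by
  have h1 : ∀ m ∈ range p, f (tloc a p m)
      = if (p : ℤ) ∣ (m : ℤ) * (m + a) * (m + 6) then f (-1) else f (gg p) := by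
    intro m _
    unfold tloc
    split_ifs <;> rfl
  rw [Finset.sum_congr rfl h1, Finset.sum_ite, Finset.sum_const, Finset.sum_const, nsmul_eq_mul,
    nsmul_eq_mul, count_all hp ha]
  have h2 := Finset.card_filter_add_card_filter_not (s := range p) (fun m : ℕ => (p : ℤ) ∣ (m : ℤ) * (m + a) * (m + 6))
  rw [count_all hp ha, card_range] at h2
  have h3 : (((range p).filter (fun m : ℕ => ¬ (p : ℤ) ∣ (m : ℤ) * (m + a) * (m + 6))).card : ℝ)
      = (p : ℝ) - om p := by
    have : (om p : ℝ) + (((range p).filter (fun m : ℕ => ¬ (p : ℤ) ∣ (m : ℤ) * (m + a) * (m + 6))).card : ℝ)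
      = (p : ℝ) := by exact_mod_cast h2
    linarith
  rw [h3]

lemma tloc_sum {p : ℕ} (hp : p.Prime) {a : ℤ} (ha : a = 2 ∨ a = 4) :
    ∑ m ∈ range p, tloc a p m = 0 := by
  have h := tloc_sum_aux hp ha (fun x => x)
  rw [h, ← om_gg hp]
  ring

lemma tloc_sum_sq {p : ℕ} (hp : p.Prime) {a : ℤ} (ha : a = 2 ∨ a = 4) :
    ∑ m ∈ range p, tloc a p m ^ 2 = p * gg p := by
  have h := tloc_sum_aux hp ha (fun x => x ^ 2)
  have h2 := om_gg hp
  rw [h]
  calc (om p : ℝ) * (-1) ^ 2 + ((p : ℝ) - om p) * gg p ^ 2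
      = (om p : ℝ) + (((p : ℝ) - om p) * gg p) * gg p := by ring
    _ = ((p : ℝ) - om p) * gg p + om p * gg p := by rw [← h2]
    _ = p * gg p := by ring

/-- product over a set of primes -/
noncomputable def Tq (a : ℤ) (s : Finset ℕ) (n : ℤ) : ℝ := ∏ p ∈ s, tloc a p n

lemma Tq_period (a : ℤ) {s : Finset ℕ} {q : ℕ} (hs : ∀ p ∈ s, p ∣ q) (n k : ℤ) :
    Tq a s (n + q * k) = Tq a s n := by
  unfold Tq
  apply Finset.prod_congr rfl
  intro p hp
  obtain ⟨c, hc⟩ := hs p hp
  have : n + q * k = n + p * (c * k) := by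
    rw [hc]
    push_cast
    ring
  rw [this, tloc_period]

lemma coprime_prod {p : ℕ} (hp : p.Prime) {s : Finset ℕ} (hs : ∀ q ∈ s, q.Prime) (hps : p ∉ s) :
    Nat.Coprime p (∏ q ∈ s, q) := by
  apply Nat.Coprime.prod_right
  intro q hq
  rw [Nat.coprime_primes hp (hs q hq)]
  intro h
  exact hps (h ▸ hq)

lemma Tq_sum_sq {a : ℤ} (ha : a = 2 ∨ a = 4) (s : Finset ℕ) :
    (∀ p ∈ s, p.Prime) → ∑ m ∈ range (∏ p ∈ s, p), Tq a s m ^ 2 = (∏ p ∈ s, (p : ℝ)) * ∏ p ∈ s, gg p := by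
  induction s using Finset.induction_on with
  | empty =>
    intro _
    simp [Tq]
  | insert p s hps ih =>
    intro hs
    have hp := hs p (mem_insert_self _ _)
    have hs' : ∀ q ∈ s, q.Prime := fun q hq => hs q (mem_insert_of_mem hq)
    have hpos : 0 < ∏ q ∈ s, q := Finset.prod_pos (fun q hq => (hs' q hq).pos)
    rw [Finset.prod_insert hps, Finset.prod_insert hps, Finset.prod_insert hps]
    have h1 := crt_sum hp.pos hpos (coprime_prod hp hs' hps) (fun n => tloc a p n ^ 2)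
      (fun n => Tq a s n ^ 2) (fun n k => by simp only [tloc_period])
      (fun n k => by rw [Tq_period a (fun q hq => Finset.dvd_prod_of_mem _ hq)])
    have h2 : ∀ m ∈ range (p * ∏ q ∈ s, q), Tq a (insert p s) m ^ 2 = tloc a p m ^ 2 * Tq a s m ^ 2 := by
      intro m _
      unfold Tq
      rw [Finset.prod_insert hps]
      ring
    rw [Finset.sum_congr rfl h2, h1, tloc_sum_sq hp ha, ih hs']
    ring

/-- vanishing of the coefficients at non-reduced fractions -/
lemma fc_zero {a : ℤ} (ha : a = 2 ∨ a = 4) {s : Finset ℕ} (hs : ∀ p ∈ s, p.Prime) {b : ℕ}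
    (hb : ¬ Nat.Coprime b (∏ p ∈ s, p)) : fc (Tq a s) (∏ p ∈ s, p) b = 0 := by
  classical
  obtain ⟨p, hp, hpb, hpq⟩ := Nat.Prime.not_coprime_iff_dvd.mp hb
  have hps : p ∈ s := by
    rw [Prime.dvd_finsetProd_iff hp.prime] at hpq
    obtain ⟨r, hr, hpr⟩ := hpq
    have := (Nat.prime_dvd_prime_iff_eq hp (hs r hr)).mp hpr
    rwa [this]
  obtain ⟨s', hs'n, rfl⟩ : ∃ s', p ∉ s' ∧ insert p s' = s :=
    ⟨s.erase p, Finset.notMem_erase _ _, Finset.insert_erase hps⟩
  have hs' : ∀ q ∈ s', q.Prime := fun q hq => hs q (mem_insert_of_mem hq)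
  have hpos : 0 < ∏ q ∈ s', q := Finset.prod_pos (fun q hq => (hs' q hq).pos)
  obtain ⟨b', rfl⟩ := hpb
  unfold fc
  rw [Finset.prod_insert hs'n]
  set q' := ∏ q ∈ s', q with hq'
  have h1 := crt_sum hp.pos hpos (coprime_prod hp hs' hs'n) (fun n => ((tloc a p n : ℝ) : ℂ))
    (fun n => ((Tq a s' n : ℝ) : ℂ) * ex (-((b' : ℝ) / q' * n))) (fun n k => by simp only [tloc_period])
    (fun n k => by
      rw [Tq_period a (fun q hq => Finset.dvd_prod_of_mem _ hq)]
      congr 1
      have hq0 : (q' : ℝ) ≠ 0 := by positivity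
      have e : -((b' : ℝ) / q' * ((n + q' * k : ℤ) : ℝ)) = -((b' : ℝ) / q' * n) + ((-(b' * k) : ℤ) : ℝ) := by
        push_cast
        field_simp
        ring
      rw [e, ex_add, ex_int, mul_one])
  have h2 : ∀ m ∈ range (p * q'), ((Tq a (insert p s') m : ℝ) : ℂ)
      * ex (-(((p * b' : ℕ) : ℝ) / ((p * q' : ℕ) : ℝ) * m))
      = ((tloc a p m : ℝ) : ℂ) * (((Tq a s' m : ℝ) : ℂ) * ex (-((b' : ℝ) / q' * ((m : ℤ) : ℝ)))) := by
    intro m _
    unfold Tq
    rw [Finset.prod_insert hs'n]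
    have hq0 : (q' : ℝ) ≠ 0 := by positivity
    have hp0 : (p : ℝ) ≠ 0 := by have := hp.pos; positivity
    have e : -(((p * b' : ℕ) : ℝ) / ((p * q' : ℕ) : ℝ) * m) = -((b' : ℝ) / q' * ((m : ℤ) : ℝ)) := by
      push_cast
      field_simp
    rw [e]
    push_cast
    ring
  rw [Finset.sum_congr rfl h2, h1]
  have h3 : ∑ m ∈ range p, ((tloc a p m : ℝ) : ℂ) = 0 := by
    have := tloc_sum hp ha
    exact_mod_cast this
  rw [h3, zero_mul, mul_zero]

end Pool.Agent.Helper25
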