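import Mathlib
import Pool.Agent.Helper25.Blocks
import Pool.Agent.Helper25.Local
import Pool.Agent.Helper25.GBound

set_option autoImplicit false

namespace Pool.Agent.Helper25

open Finset

/-- multiplicative density -/
noncomputable def g0 (q : ℕ) : ℝ := ∏ p ∈ q.primeFactors, gg p

lemma g0_pos (q : ℕ) : 0 < g0 q :=
  Finset.prod_pos (fun _ hp => gg_pos (Nat.prime_of_mem_primeFactors hp))

/-- reduced fractions with denominators in a set -/
def FR (S : Finset ℕ) : Finset (ℕ × ℕ) :=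
  (S ×ˢ range (S.sup id)).filter (fun r => r.2 < r.1 ∧ Nat.Coprime r.2 r.1)

lemma mem_FR {S : Finset ℕ} (r : ℕ × ℕ) :
    r ∈ FR S ↔ r.1 ∈ S ∧ r.2 ∈ (range r.1).filter (fun b => Nat.Coprime b r.1) := by
  unfold FR
  rw [mem_filter, mem_product, mem_range, mem_filter, mem_range]
  constructor
  · rintro ⟨⟨h1, _⟩, h3, h4⟩
    exact ⟨h1, h3, h4⟩
  · rintro ⟨h1, h2, h3⟩
    refine ⟨⟨h1, ?_⟩, h2, h3⟩
    exact lt_of_lt_of_le h2 (Finset.le_sup (f := id) h1)

lemma FR_sum {β : Type*} [AddCommMonoid β] (S : Finset ℕ) (f : ℕ × ℕ → β) :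
    ∑ r ∈ FR S, f r = ∑ q ∈ S, ∑ b ∈ (range q).filter (fun b => Nat.Coprime b q), f (q, b) :=
  Finset.sum_finset_product (FR S) S (fun q => (range q).filter (fun b => Nat.Coprime b q)) mem_FR

/-- coefficients of the sieve function -/
noncomputable def co (a : ℤ) (W : ℕ → ℝ) (r : ℕ × ℕ) : ℂ :=
  (W r.1 : ℂ) * fc (Tq a r.1.primeFactors) r.1 r.2

lemma expand {a : ℤ} (ha : a = 2 ∨ a = 4) {q : ℕ} (hq : Squarefree q) (n : ℤ) :
    ((Tq a q.primeFactors n : ℝ) : ℂ) = ∑ b ∈ (range q).filter (fun b => Nat.Coprime b q),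
      fc (Tq a q.primeFactors) q b * ex ((b : ℝ) / q * n) := by
  have hq0 : 0 < q := Nat.pos_of_ne_zero hq.ne_zero
  rw [inversion hq0 (fun n k => Tq_period a (fun p hp => Nat.dvd_of_mem_primeFactors hp) n k) n]
  rw [Finset.sum_filter]
  apply Finset.sum_congr rfl
  intro b _
  by_cases h : Nat.Coprime b q
  · rw [if_pos h]
  · rw [if_neg h]
    have h1 := Nat.prod_primeFactors_of_squarefree hq
    have h2 := fc_zero ha (s := q.primeFactors) (fun p hp => Nat.prime_of_mem_primeFactors hp)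
      (b := b) (by rw [h1]; exact h)
    rw [h1] at h2
    rw [h2, zero_mul]

lemma TT_co {a : ℤ} (ha : a = 2 ∨ a = 4) (W : ℕ → ℝ) {S : Finset ℕ} (hS : ∀ q ∈ S, Squarefree q)
    (n : ℤ) : TT xq (co a W) (FR S) n = ((∑ q ∈ S, W q * Tq a q.primeFactors n : ℝ) : ℂ) := by
  unfold TT
  rw [FR_sum]
  push_cast
  apply Finset.sum_congr rfl
  intro q hq
  rw [expand ha (hS q hq), Finset.mul_sum]
  apply Finset.sum_congr rfl
  intro b _
  unfold co xq
  dsimp only
  ring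

lemma En_co {a : ℤ} (ha : a = 2 ∨ a = 4) (W : ℕ → ℝ) {S : Finset ℕ} (hS : ∀ q ∈ S, Squarefree q) :
    En (co a W) (FR S) ≤ ∑ q ∈ S, W q ^ 2 * g0 q := by
  unfold En
  rw [FR_sum]
  apply Finset.sum_le_sum
  intro q hq
  have hsq := hS q hq
  have hq0 : 0 < q := Nat.pos_of_ne_zero hsq.ne_zero
  have h1 := Nat.prod_primeFactors_of_squarefree hsq
  have h2 := Tq_sum_sq ha q.primeFactors (fun p hp => Nat.prime_of_mem_primeFactors hp)
  rw [h1] at h2
  have h3 : (∏ p ∈ q.primeFactors, (p : ℝ)) = q := by rw [← Nat.cast_prod, h1]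
  rw [h3] at h2
  have h4 := parseval hq0 (Tq a q.primeFactors)
  rw [h2] at h4
  have hqR : (q : ℝ) ≠ 0 := by positivity
  have h5 : 1 / (q : ℝ) * (q * ∏ p ∈ q.primeFactors, gg p) = g0 q := by
    unfold g0
    field_simp
  rw [h5] at h4
  calc ∑ b ∈ (range q).filter (fun b => Nat.Coprime b q), ‖co a W (q, b)‖ ^ 2
      ≤ ∑ b ∈ range q, ‖co a W (q, b)‖ ^ 2 := by
        apply Finset.sum_le_sum_of_subset_of_nonneg (Finset.filter_subset _ _)
        intro _ _ _
        positivity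
    _ = ∑ b ∈ range q, W q ^ 2 * ‖fc (Tq a q.primeFactors) q b‖ ^ 2 := by
        apply Finset.sum_congr rfl
        intro b _
        unfold co
        dsimp only
        rw [norm_mul, Complex.norm_real, mul_pow, Real.norm_eq_abs, sq_abs]
    _ = W q ^ 2 * g0 q := by rw [← Finset.mul_sum, h4]

theorem sieve_blocks {a : ℤ} (ha : a = 2 ∨ a = 4) {J : ℕ} {Q0 : ℝ} {N : ℕ} (hN : 0 < N)
    (hQ : 8 ≤ Q0 / 16 ^ J) (S : ℕ → Finset ℕ)
    (hS : ∀ j ≤ J, ∀ q ∈ S j, Squarefree q ∧ (q : ℝ) ≤ Q0 / 16 ^ j)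
    (hdisj : ∀ j k, j < k → k ≤ J → ∀ q ∈ S j, q ∉ S k) (M : ℤ) (X : Finset ℕ)
    (hX : X ⊆ range N)
    (hsift : ∀ i ∈ X, ∀ j ≤ J, ∀ q ∈ S j, ∀ p ∈ q.primeFactors,
      ¬ (p : ℤ) ∣ (M + i) * (M + i + a) * (M + i + 6)) :
    (X.card : ℝ) * ∑ j ∈ range (J + 1), 1 / (N + 1.75 * (1 / 4) ^ j * Q0 ^ 2) * ∑ q ∈ S j, g0 q
      ≤ 1 := by
  classical
  have hNR : (0:ℝ) < N := by exact_mod_cast hN
  set v : ℕ → ℝ := fun j => 1 / (N + 1.75 * (1 / 4) ^ j * Q0 ^ 2) with hv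
  have hv0 : ∀ j, 0 < v j := fun j => by rw [hv]; positivity
  have hvN : ∀ j, (N + 1.75 * (1 / 4) ^ j * Q0 ^ 2) * v j = 1 := by
    intro j
    rw [hv]
    have : (N + 1.75 * (1 / 4) ^ j * Q0 ^ 2 : ℝ) ≠ 0 := by positivity
    field_simp
  set W : ℕ → ℝ := fun q => ∑ j ∈ range (J + 1), if q ∈ S j then v j else 0 with hW
  have hWj : ∀ j ≤ J, ∀ q ∈ S j, W q = v j := by
    intro j hj q hq
    rw [hW]
    dsimp only
    rw [Finset.sum_eq_single j]
    · rw [if_pos hq]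
    · intro k hk hne
      rw [mem_range] at hk
      rw [if_neg]
      intro hqk
      rcases lt_or_gt_of_ne hne with h | h
      · exact hdisj k j h hj q hqk hq
      · exact hdisj j k h (by omega) q hq hqk
    · intro h
      exact absurd (mem_range.mpr (by omega)) h
  set L := ∑ j ∈ range (J + 1), v j * ∑ q ∈ S j, g0 q with hL
  have hL0 : 0 ≤ L := Finset.sum_nonneg (fun j _ => mul_nonneg (hv0 j).le
    (Finset.sum_nonneg (fun q _ => (g0_pos q).le)))
  have hsq : ∀ j ≤ J, ∀ q ∈ S j, Squarefree q := fun j hj q hq => (hS j hj q hq).1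
  have hls := ls_blocks hQ (fun j => FR (S j)) (by
    intro j hj r hr
    rw [mem_FR, mem_filter, mem_range] at hr
    obtain ⟨h1, h2, h3⟩ := hr
    obtain ⟨h4, h5⟩ := hS j hj r.1 h1
    exact ⟨Nat.pos_of_ne_zero h4.ne_zero, h5, h2, h3⟩) (by
    intro j k hjk hk r hr s hs heq
    rw [mem_FR] at hr hs
    apply hdisj j k hjk hk r.1 hr.1
    rw [heq]
    exact hs.1) (co a W) M N
  have hup : ∑ j ∈ range (J + 1), (N + 1.75 * (1 / 4) ^ j * Q0 ^ 2) * En (co a W) (FR (S j)) ≤ L := by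
    rw [hL]
    apply Finset.sum_le_sum
    intro j hj
    rw [mem_range] at hj
    have h1 := En_co ha W (hsq j (by omega))
    have h2 : ∑ q ∈ S j, W q ^ 2 * g0 q = v j ^ 2 * ∑ q ∈ S j, g0 q := by
      rw [Finset.mul_sum]
      apply Finset.sum_congr rfl
      intro q hq
      rw [hWj j (by omega) q hq]
    rw [h2] at h1
    calc (N + 1.75 * (1 / 4) ^ j * Q0 ^ 2) * En (co a W) (FR (S j))
        ≤ (N + 1.75 * (1 / 4) ^ j * Q0 ^ 2) * (v j ^ 2 * ∑ q ∈ S j, g0 q) :=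
          mul_le_mul_of_nonneg_left h1 (by positivity)
      _ = ((N + 1.75 * (1 / 4) ^ j * Q0 ^ 2) * v j) * (v j * ∑ q ∈ S j, g0 q) := by ring
      _ = v j * ∑ q ∈ S j, g0 q := by rw [hvN, one_mul]
  have hlow : ∀ i ∈ X, ‖∑ j ∈ range (J + 1), TT xq (co a W) (FR (S j)) (M + i)‖ ^ 2 = L ^ 2 := by
    intro i hi
    have h1 : ∑ j ∈ range (J + 1), TT xq (co a W) (FR (S j)) (M + i) = (L : ℂ) := by
      rw [hL]
      push_cast
      apply Finset.sum_congr rfl
      intro j hj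
      rw [mem_range] at hj
      rw [TT_co ha W (hsq j (by omega))]
      push_cast
      rw [Finset.mul_sum]
      apply Finset.sum_congr rfl
      intro q hq
      rw [hWj j (by omega) q hq]
      congr 1
      unfold Tq g0
      push_cast
      apply Finset.prod_congr rfl
      intro p hp
      unfold tloc
      rw [if_neg (hsift i hi j (by omega) q hq p hp)]
    rw [h1, Complex.norm_real, Real.norm_eq_abs, sq_abs]
  have h1 : (X.card : ℝ) * L ^ 2 ≤ L := by
    calc (X.card : ℝ) * L ^ 2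
        = ∑ i ∈ X, ‖∑ j ∈ range (J + 1), TT xq (co a W) (FR (S j)) (M + i)‖ ^ 2 := by
          rw [Finset.sum_congr rfl hlow, Finset.sum_const, nsmul_eq_mul]
      _ ≤ ∑ i ∈ range N, ‖∑ j ∈ range (J + 1), TT xq (co a W) (FR (S j)) (M + i)‖ ^ 2 := by
          apply Finset.sum_le_sum_of_subset_of_nonneg hX
          intro _ _ _
          positivity
      _ ≤ _ := hls
      _ ≤ L := hup
  rcases hL0.eq_or_lt with h2 | h2
  · rw [← h2]
    norm_num
  · have h3 : (X.card : ℝ) * L * L ≤ 1 * L := by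
      rw [one_mul]
      nlinarith
    exact le_of_mul_le_mul_right h3 h2

end Pool.Agent.Helper25
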