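import Mathlib
import Pool.Agent.Helper25.Sieve

set_option autoImplicit false

namespace Pool.Agent.Helper25

open Finset

/-- prime triples in an interval -/
def trip (a M N : ℕ) : Finset ℕ :=
  (Ioc M (M + N)).filter (fun p => p.Prime ∧ (p + a).Prime ∧ (p + 6).Prime)

/-- end points of the blocks -/
noncomputable def nn (J : ℕ) (Q0 : ℝ) (j : ℕ) : ℕ := if j ≤ J then ⌊Q0 / 16 ^ j⌋₊ else 0

lemma nn_anti {J : ℕ} {Q0 : ℝ} (hQ0 : 0 ≤ Q0) {j k : ℕ} (h : j ≤ k) : nn J Q0 k ≤ nn J Q0 j := by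
  unfold nn
  by_cases hk : k ≤ J
  · rw [if_pos hk, if_pos (h.trans hk)]
    apply Nat.floor_le_floor
    apply div_le_div_of_nonneg_left hQ0 (by positivity)
    exact pow_le_pow_right₀ (by norm_num) h
  · rw [if_neg hk]
    exact Nat.zero_le _

/-- blocks of moduli -/
noncomputable def bl (J : ℕ) (Q0 : ℝ) (j : ℕ) : Finset ℕ :=
  (Ioc (nn J Q0 (j + 1)) (nn J Q0 j)).filter Squarefree

lemma bl_sum {J : ℕ} {Q0 : ℝ} (hQ0 : 0 ≤ Q0) (j : ℕ) :
    ∑ q ∈ bl J Q0 j, g0 q = G (nn J Q0 j) - G (nn J Q0 (j + 1)) := by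
  have h := nn_anti (J := J) hQ0 (Nat.le_succ j)
  have h1 : (Icc 1 (nn J Q0 j)).filter Squarefree
      = (Icc 1 (nn J Q0 (j + 1))).filter Squarefree ∪ bl J Q0 j := by
    unfold bl
    ext q
    simp only [mem_filter, mem_union, mem_Icc, mem_Ioc]
    constructor
    · rintro ⟨⟨h1, h2⟩, h3⟩
      by_cases h4 : q ≤ nn J Q0 (j + 1)
      · exact Or.inl ⟨⟨h1, h4⟩, h3⟩
      · exact Or.inr ⟨⟨by omega, h2⟩, h3⟩
    · rintro (⟨⟨h1, h2⟩, h3⟩ | ⟨⟨h1, h2⟩, h3⟩)
      · exact ⟨⟨h1, h2.trans h⟩, h3⟩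
      · exact ⟨⟨by omega, h2⟩, h3⟩
  have hd : Disjoint ((Icc 1 (nn J Q0 (j + 1))).filter Squarefree) (bl J Q0 j) := by
    rw [Finset.disjoint_left]
    intro q h2 h3
    unfold bl at h3
    rw [mem_filter, mem_Icc] at h2
    rw [mem_filter, mem_Ioc] at h3
    omega
  unfold G
  rw [h1, Finset.sum_union hd]
  unfold g0
  ring

theorem core {a : ℕ} (ha : a = 2 ∨ a = 4) {J : ℕ} {Q0 : ℝ} {N : ℕ} (hN : 0 < N)
    (hQ : 8 ≤ Q0 / 16 ^ J) (M : ℕ) : ∃ Y : ℝ, 0 ≤ Y ∧ ((trip a M N).card : ℝ) ≤ Q0 + Y ∧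
      Y * ∑ j ∈ range (J + 1), 1 / (N + 1.75 * (1 / 4) ^ j * Q0 ^ 2)
        * (G (nn J Q0 j) - G (nn J Q0 (j + 1))) ≤ 1 := by
  classical
  have hQ0 : 0 < Q0 := by
    have h1 : (0:ℝ) < 16 ^ J := by positivity
    rw [le_div_iff₀ h1] at hQ
    nlinarith
  set X := (range N).filter (fun i => (M + 1 + i).Prime ∧ (M + 1 + i + a).Prime ∧
    (M + 1 + i + 6).Prime ∧ Q0 < ((M + 1 + i : ℕ) : ℝ)) with hX
  refine ⟨X.card, by positivity, ?_, ?_⟩
  · have h1 : trip a M N ⊆ Icc 1 ⌊Q0⌋₊ ∪ X.image (fun i => M + 1 + i) := by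
      intro n hn
      unfold trip at hn
      rw [mem_filter, mem_Ioc] at hn
      obtain ⟨⟨h1, h2⟩, h3, h4, h5⟩ := hn
      rw [mem_union]
      by_cases h6 : Q0 < (n : ℝ)
      · right
        rw [mem_image]
        refine ⟨n - (M + 1), ?_, by omega⟩
        rw [hX, mem_filter, mem_range]
        have h7 : M + 1 + (n - (M + 1)) = n := by omega
        rw [h7]
        exact ⟨by omega, h3, h4, h5, h6⟩
      · left
        rw [mem_Icc]
        exact ⟨h3.one_le, Nat.le_floor (not_lt.mp h6)⟩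
    have h2 := (Finset.card_le_card h1).trans (Finset.card_union_le _ _)
    rw [Nat.card_Icc, Nat.add_sub_cancel] at h2
    have h3 := h2.trans (Nat.add_le_add_left Finset.card_image_le _)
    have h4 : ((trip a M N).card : ℝ) ≤ ((⌊Q0⌋₊ + X.card : ℕ) : ℝ) := by exact_mod_cast h3
    push_cast at h4
    have h5 := Nat.floor_le hQ0.le
    linarith
  · have h := sieve_blocks (a := (a : ℤ)) (by rcases ha with rfl | rfl <;> norm_num) hN hQ (bl J Q0)
      (by
        intro j hj q hq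
        unfold bl at hq
        rw [mem_filter, mem_Ioc] at hq
        refine ⟨hq.2, ?_⟩
        have h1 : nn J Q0 j = ⌊Q0 / 16 ^ j⌋₊ := by unfold nn; rw [if_pos hj]
        have h2 : (q : ℝ) ≤ (⌊Q0 / 16 ^ j⌋₊ : ℝ) := by
          rw [← h1]
          exact_mod_cast hq.1.2
        exact h2.trans (Nat.floor_le (by positivity)))
      (by
        intro j k hjk hk q hq hq'
        unfold bl at hq hq'
        rw [mem_filter, mem_Ioc] at hq hq'
        have h1 := nn_anti (J := J) hQ0.le (show j + 1 ≤ k by omega)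
        omega)
      ((M : ℤ) + 1) X (Finset.filter_subset _ _)
      (by
        intro i hi j hj q hq p hp hdvd
        rw [hX, mem_filter] at hi
        obtain ⟨_, h1, h2, h3, h4⟩ := hi
        have hpp := Nat.prime_of_mem_primeFactors hp
        have hpQ : (p : ℝ) ≤ Q0 := by
          unfold bl at hq
          rw [mem_filter, mem_Ioc] at hq
          have h5 : p ≤ q := Nat.le_of_dvd (by omega) (Nat.dvd_of_mem_primeFactors hp)
          have h6 : nn J Q0 j = ⌊Q0 / 16 ^ j⌋₊ := by unfold nn; rw [if_pos hj]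
          have h7 : (p : ℝ) ≤ (⌊Q0 / 16 ^ j⌋₊ : ℝ) := by
            rw [← h6]
            exact_mod_cast h5.trans hq.1.2
          refine h7.trans ((Nat.floor_le (by positivity)).trans ?_)
          apply div_le_self hQ0.le
          exact one_le_pow₀ (by norm_num)
        have hlt : p < M + 1 + i := by
          have : (p : ℝ) < ((M + 1 + i : ℕ) : ℝ) := lt_of_le_of_lt hpQ h4
          exact_mod_cast this
        have hpi : Prime (p : ℤ) := Nat.prime_iff_prime_int.mp hpp
        have key : ∀ m : ℕ, m.Prime → p < m → ¬ (p : ℤ) ∣ (m : ℤ) := by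
          intro m hm hpm h5
          have h6 : p ∣ m := by exact_mod_cast h5
          have h7 := (Nat.prime_dvd_prime_iff_eq hpp hm).mp h6
          omega
        rcases hpi.dvd_or_dvd hdvd with h5 | h5
        · rcases hpi.dvd_or_dvd h5 with h6 | h6
          · apply key _ h1 hlt
            push_cast
            exact h6
          · apply key _ h2 (by omega)
            push_cast
            exact h6
        · apply key _ h3 (by omega)
          push_cast
          exact h5)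
    have h2 : ∀ j ∈ range (J + 1), 1 / (N + 1.75 * (1 / 4) ^ j * Q0 ^ 2) * ∑ q ∈ bl J Q0 j, g0 q
        = 1 / (N + 1.75 * (1 / 4) ^ j * Q0 ^ 2) * (G (nn J Q0 j) - G (nn J Q0 (j + 1))) := by
      intro j _
      rw [bl_sum hQ0.le]
    rw [Finset.sum_congr rfl h2] at h
    exact h

end Pool.Agent.Helper25
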