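import Mathlib
import Pool.Agent.Helper25.Abel
import Pool.Agent.Helper25.Core

set_option autoImplicit false

namespace Pool.Agent.Helper25

open Finset Filter

lemma ssum (J : ℕ) : ∑ j ∈ range J, (0.21875 * (1 / 4 : ℝ) ^ j / (1 + 0.21875 * (1 / 4 : ℝ) ^ j))
    ≤ 0.2494 := by
  have h0 : ∀ j : ℕ, 0 ≤ 0.21875 * (1 / 4 : ℝ) ^ j / (1 + 0.21875 * (1 / 4 : ℝ) ^ j) := by
    intro j; positivity
  calc ∑ j ∈ range J, (0.21875 * (1 / 4 : ℝ) ^ j / (1 + 0.21875 * (1 / 4 : ℝ) ^ j))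
      ≤ ∑ j ∈ range (3 + J), (0.21875 * (1 / 4 : ℝ) ^ j / (1 + 0.21875 * (1 / 4 : ℝ) ^ j)) := by
        apply Finset.sum_le_sum_of_subset_of_nonneg
        · intro j hj
          rw [mem_range] at *
          omega
        · intro j _ _
          exact h0 j
    _ = ∑ j ∈ range 3, (0.21875 * (1 / 4 : ℝ) ^ j / (1 + 0.21875 * (1 / 4 : ℝ) ^ j))
        + ∑ j ∈ range J, (0.21875 * (1 / 4 : ℝ) ^ (3 + j) / (1 + 0.21875 * (1 / 4 : ℝ) ^ (3 + j))) :=
        Finset.sum_range_add _ _ _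
    _ ≤ ∑ j ∈ range 3, (0.21875 * (1 / 4 : ℝ) ^ j / (1 + 0.21875 * (1 / 4 : ℝ) ^ j))
        + ∑ j ∈ range J, (0.21875 / 64) * (1 / 4 : ℝ) ^ j := by
        gcongr with j _
        rw [pow_add]
        have h1 : (0:ℝ) ≤ (1 / 4 : ℝ) ^ j := by positivity
        rw [div_le_iff₀ (by positivity)]
        nlinarith
    _ ≤ 0.2494 := by
        rw [← Finset.mul_sum]
        have h1 := geo4 J
        have h2 : ∑ j ∈ range 3, (0.21875 * (1 / 4 : ℝ) ^ j / (1 + 0.21875 * (1 / 4 : ℝ) ^ j))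
            ≤ 0.24483 := by
          simp only [Finset.sum_range_succ, Finset.sum_range_zero]
          norm_num
        linarith

lemma T_eq {z : ℝ} (hz : 20 ≤ z) : LL (z / 2 - 5.392)
    = 122.1 * (z / 2 - 5.392) + 17.79 * (z / 2 - 5.392) ^ 2 + (z / 2 - 5.392) ^ 3 :=
  LL_eq (by linarith)

lemma T_lower {z : ℝ} (hz : 20 ≤ z) : z ^ 3 + 300 ≤ 8 * LL (z / 2 - 5.392) := by
  rw [T_eq hz]
  nlinarith [mul_nonneg (sub_nonneg.mpr hz) (sub_nonneg.mpr hz)]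

lemma T_upper {z : ℝ} (hz : 20 ≤ z) : LL (z / 2 - 5.392) ≤ 0.15 * z ^ 3 := by
  rw [T_eq hz]
  have h := mul_nonneg (show 0 ≤ z by linarith) (sq_nonneg (z - 25.5))
  nlinarith [sq_nonneg (z - 25.5), sub_nonneg.mpr hz]

lemma exp_five : 148.4 ≤ Real.exp 5 := by
  have h1 := Real.exp_one_gt_d9
  have h2 : Real.exp 5 = Real.exp 1 ^ 5 := by
    rw [← Real.exp_nat_mul]
    norm_num
  rw [h2]
  calc (148.4 : ℝ) ≤ 2.7182818283 ^ 5 := by norm_num
    _ ≤ Real.exp 1 ^ 5 := pow_le_pow_left₀ (by norm_num) h1.le 5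

lemma cube_le {z : ℝ} (hz : 20 ≤ z) : z ^ 3 ≤ 53.91 * Real.exp (z / 4) := by
  have h1 := Real.add_one_le_exp (z / 20 - 1)
  have h2 : (z / 20) ^ 3 ≤ Real.exp (z / 20 - 1) ^ 3 :=
    pow_le_pow_left₀ (by linarith) (by linarith) 3
  rw [← Real.exp_nat_mul] at h2
  have h3 : Real.exp (((3 : ℕ) : ℝ) * (z / 20 - 1)) ≤ Real.exp (z / 4 - 5) := by
    apply Real.exp_le_exp.mpr
    push_cast
    linarith
  have h4 : Real.exp (z / 4 - 5) = Real.exp (z / 4) / Real.exp 5 := Real.exp_sub _ _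
  have h5 : Real.exp (z / 4) / Real.exp 5 ≤ Real.exp (z / 4) / 148.4 :=
    div_le_div_of_nonneg_left (Real.exp_pos _).le (by norm_num) exp_five
  have h6 : (z / 20) ^ 3 ≤ Real.exp (z / 4) / 148.4 := by linarith
  have h7 : z ^ 3 = 8000 * (z / 20) ^ 3 := by ring
  have h8 := Real.exp_pos (z / 4)
  calc z ^ 3 = 8000 * (z / 20) ^ 3 := h7
    _ ≤ 8000 * (Real.exp (z / 4) / 148.4) := mul_le_mul_of_nonneg_left h6 (by norm_num)
    _ = (8000 / 148.4) * Real.exp (z / 4) := by ring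
    _ ≤ 53.91 * Real.exp (z / 4) := mul_le_mul_of_nonneg_right (by norm_num) h8.le

/-- the numerical heart for large intervals -/
lemma final_ineq {z Q0 D h N : ℝ} (hz : 20 ≤ z) (hD : 2.844 ≤ D) (hQ0 : 0 < Q0) (hh : 0 < h)
    (hN : N = Real.exp z) (hQN : N = 8 * Q0 ^ 2) (hJ : Q0 < 128 * h ^ 2) :
    Q0 + 6 * D * N * (1 + 0.21875 / h) / LL (z / 2 - 5.392) < 48 * D * N / z ^ 3 := by
  set e4 := Real.exp (z / 4) with he4
  have he40 : 0 < e4 := Real.exp_pos _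
  have hN4 : N = e4 ^ 4 := by
    rw [hN, he4, ← Real.exp_nat_mul]
    congr 1
    push_cast
    ring
  have hz3 := cube_le hz
  have hT1 := T_lower hz
  have hT2 := T_upper hz
  set T := LL (z / 2 - 5.392) with hT
  have hz0 : 0 < z ^ 3 := by positivity
  have hT0 : 0 < T := by linarith
  have hD0 : 0 < D := by linarith
  -- e4 versus h
  have h1 : e4 ≤ 19.03 * h := by
    have h2 : e4 ^ 4 ≤ (19.03 * h) ^ 4 := by
      rw [← hN4, hQN]
      have h3 : Q0 ^ 2 ≤ (128 * h ^ 2) ^ 2 := pow_le_pow_left₀ hQ0.le hJ.le 2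
      have h4 : (0:ℝ) ≤ h ^ 4 := by positivity
      nlinarith
    exact le_of_pow_le_pow_left₀ (by norm_num) (by positivity) h2
  have h2 : 0.21875 / h * z ^ 3 ≤ 224.5 := by
    rw [div_mul_eq_mul_div, div_le_iff₀ hh]
    nlinarith
  have h3 : e4 ^ 2 ≤ 2.8285 * Q0 := by
    have h4 : (e4 ^ 2) ^ 2 ≤ (2.8285 * Q0) ^ 2 := by
      have h5 : (e4 ^ 2) ^ 2 = 8 * Q0 ^ 2 := by
        rw [← hQN, hN4]
        ring
      rw [h5]
      nlinarith [sq_nonneg Q0]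
    exact le_of_pow_le_pow_left₀ (by norm_num) (by positivity) h4
  have h4 : z ^ 3 * T / (136.5 * Q0) ≤ 9.1 := by
    rw [div_le_iff₀ (by positivity)]
    have h5 : z ^ 3 * T ≤ z ^ 3 * (0.15 * z ^ 3) := mul_le_mul_of_nonneg_left hT2 hz0.le
    have h6 : z ^ 3 * z ^ 3 ≤ (53.91 * e4) * (53.91 * e4) :=
      mul_le_mul hz3 hz3 hz0.le (by positivity)
    nlinarith
  have h5 : z ^ 3 * T / (136.5 * Q0) + (1 + 0.21875 / h) * z ^ 3 < 8 * T := by
    have : (1 + 0.21875 / h) * z ^ 3 = z ^ 3 + 0.21875 / h * z ^ 3 := by ring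
    rw [this]
    linarith
  have hN0 : 0 < N := by rw [hN]; exact Real.exp_pos _
  have h6 : z ^ 3 * T / (48 * D * Q0) ≤ z ^ 3 * T / (136.5 * Q0) := by
    apply div_le_div_of_nonneg_left (by positivity) (by positivity)
    apply mul_le_mul_of_nonneg_right _ hQ0.le
    linarith
  have h7 : z ^ 3 * T / (48 * D * Q0) + (1 + 0.21875 / h) * z ^ 3 < 8 * T := by linarith
  have h8 : (Q0 + 6 * D * N * (1 + 0.21875 / h) / T) * (z ^ 3 * T / (6 * D * N))
      = z ^ 3 * T / (48 * D * Q0) + (1 + 0.21875 / h) * z ^ 3 := by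
    rw [add_mul]
    congr 1
    · rw [hQN]
      field_simp
      ring
    · field_simp
  have h9 : 48 * D * N / z ^ 3 * (z ^ 3 * T / (6 * D * N)) = 8 * T := by
    field_simp
    ring
  have h10 : 0 < z ^ 3 * T / (6 * D * N) := by positivity
  rw [← h8, ← h9] at h7
  exact lt_of_mul_lt_mul_right h7 h10.le

end Pool.Agent.Helper25
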