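import Mathlib
import Pool.Agent.Helper25.Large

set_option autoImplicit false

namespace Pool.Agent.Helper25

open Finset Filter

lemma G_zero : G 0 = 0 := by unfold G; simp

lemma log16 : Real.log 16 ≤ 2.7725888 := by
  have h : Real.log 16 = 4 * Real.log 2 := by
    have : (16:ℝ) = 2 ^ 4 := by norm_num
    rw [this, Real.log_pow]
    norm_num
  have := Real.log_two_lt_d9
  rw [h]
  linarith

lemma log8 : Real.log 8 ≤ 2.0794416 := by
  have h : Real.log 8 = 3 * Real.log 2 := by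
    have : (8:ℝ) = 2 ^ 3 := by norm_num
    rw [this, Real.log_pow]
    norm_num
  have := Real.log_two_lt_d9
  rw [h]
  linarith

theorem L_lower {D : ℝ} (hD : Tendsto DD atTop (nhds D)) (hD0 : 0 < D) {N : ℕ} {Q0 : ℝ} {J : ℕ}
    (hN : 20 ≤ Real.log N) (hQ0 : 0 < Q0) (hQN : (N : ℝ) = 8 * Q0 ^ 2) :
    1 / (6 * D) * (1 / (N * (1 + 0.21875 / 4 ^ J)) * LL (Real.log N / 2 - 5.392))
      ≤ ∑ j ∈ range (J + 1), 1 / (N + 1.75 * (1 / 4) ^ j * Q0 ^ 2)
        * (G (nn J Q0 j) - G (nn J Q0 (j + 1))) := by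
  have hNR : (0:ℝ) < N := by rw [hQN]; positivity
  set v : ℕ → ℝ := fun j => 1 / (N + 1.75 * (1 / 4) ^ j * Q0 ^ 2) with hv
  have hv0 : ∀ j, 0 < v j := fun j => by rw [hv]; positivity
  have hvm : ∀ j, v j ≤ v (j + 1) := by
    intro j
    rw [hv]
    dsimp only
    apply one_div_le_one_div_of_le (by positivity)
    have h1 : (1 / 4 : ℝ) ^ (j + 1) ≤ (1 / 4 : ℝ) ^ j :=
      pow_le_pow_of_le_one (by norm_num) (by norm_num) (Nat.le_succ j)
    have h2 : 1.75 * (1 / 4 : ℝ) ^ (j + 1) * Q0 ^ 2 ≤ 1.75 * (1 / 4 : ℝ) ^ j * Q0 ^ 2 := by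
      apply mul_le_mul_of_nonneg_right _ (by positivity)
      linarith
    linarith
  have hvj : ∀ j, v j = 1 / (N * (1 + 0.21875 * (1 / 4) ^ j)) := by
    intro j
    rw [hv]
    dsimp only
    congr 1
    rw [hQN]
    ring
  have habel := abel v (fun j => G (nn J Q0 j)) J
  have hlast : nn J Q0 (J + 1) = 0 := by unfold nn; rw [if_neg (by omega)]
  rw [hlast, G_zero, mul_zero, sub_zero] at habel
  have hg : ∀ j ≤ J, 1 / (6 * D) * LL ((Real.log Q0 - 3.66) - Real.log 16 * j) ≤ G (nn J Q0 j) := by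
    intro j hj
    have h1 := G_lower hD hD0 (Real.log Q0 - Real.log 16 * j)
    have h2 : Real.exp (Real.log Q0 - Real.log 16 * j) = Q0 / 16 ^ j := by
      rw [Real.exp_sub, Real.exp_log hQ0, mul_comm, Real.exp_nat_mul, Real.exp_log (by norm_num)]
    rw [h2] at h1
    have h3 : nn J Q0 j = ⌊Q0 / 16 ^ j⌋₊ := by unfold nn; rw [if_pos hj]
    rw [h3]
    have h4 : Real.log Q0 - 3.66 - Real.log 16 * j = Real.log Q0 - Real.log 16 * j - 3.66 := by ring
    rw [h4]
    exact h1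
  have hj := jensen hv0 hvm (Real.log Q0 - 3.66) (Real.log 16) J
  have hc : 0 < 1 / (6 * D) := by positivity
  have h1 : 1 / (6 * D) * (v J * LL (Real.log Q0 - 3.66 - Real.log 16 * ∑ j ∈ range J, (1 - v j / v J)))
      ≤ ∑ j ∈ range (J + 1), v j * (G (nn J Q0 j) - G (nn J Q0 (j + 1))) := by
    rw [habel]
    refine (mul_le_mul_of_nonneg_left hj hc.le).trans ?_
    rw [mul_add, Finset.mul_sum]
    apply add_le_add
    · have h2 := hg 0 (Nat.zero_le _)
      simp only [Nat.cast_zero, mul_zero, sub_zero] at h2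
      have h3 := mul_le_mul_of_nonneg_left h2 (hv0 0).le
      calc 1 / (6 * D) * (v 0 * LL (Real.log Q0 - 3.66))
          = v 0 * (1 / (6 * D) * LL (Real.log Q0 - 3.66)) := by ring
        _ ≤ _ := h3
    · apply Finset.sum_le_sum
      intro j hj
      rw [mem_range] at hj
      have h2 := hg (j + 1) (by omega)
      have h3 := mul_le_mul_of_nonneg_left h2 (sub_nonneg.mpr (hvm j))
      push_cast at h3
      calc 1 / (6 * D) * ((v (j + 1) - v j) * LL (Real.log Q0 - 3.66 - Real.log 16 * ((j : ℝ) + 1)))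
          = (v (j + 1) - v j) * (1 / (6 * D) * LL (Real.log Q0 - 3.66 - Real.log 16 * ((j : ℝ) + 1))) := by
            ring
        _ ≤ _ := h3
  refine le_trans ?_ h1
  apply mul_le_mul_of_nonneg_left _ hc.le
  have h2 : v J = 1 / (N * (1 + 0.21875 / 4 ^ J)) := by
    rw [hvj, div_pow, one_pow]
    congr 3
    ring
  rw [← h2]
  apply mul_le_mul_of_nonneg_left _ (hv0 J).le
  apply LL_mono
  have h3 : ∑ j ∈ range J, (1 - v j / v J) ≤ 0.2494 := by
    refine le_trans ?_ (ssum J)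
    apply Finset.sum_le_sum
    intro j _
    have h4 : v J ≤ 1 / N := by
      rw [hvj]
      apply one_div_le_one_div_of_le hNR
      have : (0:ℝ) ≤ 0.21875 * (1 / 4 : ℝ) ^ J := by positivity
      nlinarith
    have h5 : v j * N ≤ v j / v J := by
      rw [le_div_iff₀ (hv0 J)]
      have h6 : N * v J ≤ 1 := by
        calc N * v J ≤ N * (1 / N) := mul_le_mul_of_nonneg_left h4 hNR.le
          _ = 1 := by field_simp
      calc v j * N * v J = v j * (N * v J) := by ring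
        _ ≤ v j * 1 := mul_le_mul_of_nonneg_left h6 (hv0 j).le
        _ = v j := mul_one _
    have h6 : 1 - v j * N = 0.21875 * (1 / 4 : ℝ) ^ j / (1 + 0.21875 * (1 / 4 : ℝ) ^ j) := by
      rw [hvj]
      have : (1 + 0.21875 * (1 / 4 : ℝ) ^ j) ≠ 0 := by positivity
      field_simp
      ring
    linarith
  have h4 : Real.log Q0 = (Real.log N - Real.log 8) / 2 := by
    rw [hQN, Real.log_mul (by norm_num) (by positivity), Real.log_pow]
    push_cast
    ring
  have h5 : Real.log 16 * ∑ j ∈ range J, (1 - v j / v J) ≤ 2.7725888 * 0.2494 := by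
    have h6 : 0 ≤ Real.log 16 := Real.log_nonneg (by norm_num)
    calc Real.log 16 * ∑ j ∈ range J, (1 - v j / v J) ≤ Real.log 16 * 0.2494 :=
          mul_le_mul_of_nonneg_left h3 h6
      _ ≤ 2.7725888 * 0.2494 := mul_le_mul_of_nonneg_right log16 (by norm_num)
  have h6 := log8
  rw [h4]
  linarith

theorem large {D : ℝ} (hD : Tendsto DD atTop (nhds D)) (hD2 : 2.844 ≤ D) {a : ℕ}
    (ha : a = 2 ∨ a = 4) (M : ℕ) {N : ℕ} (hN : 20 ≤ Real.log N) :
    ((trip a M N).card : ℝ) < 48 * D * N / (Real.log N) ^ 3 := by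
  have hNpos : 0 < N := by
    rcases Nat.eq_zero_or_pos N with h | h
    · rw [h] at hN
      norm_num at hN
    · exact h
  have hNR : (0:ℝ) < N := by exact_mod_cast hNpos
  have hD0 : 0 < D := by linarith
  set Q0 : ℝ := √((N : ℝ) / 8) with hQ0def
  have hQ0 : 0 < Q0 := Real.sqrt_pos.mpr (by positivity)
  have hQN : (N : ℝ) = 8 * Q0 ^ 2 := by
    rw [hQ0def, Real.sq_sqrt (by positivity)]
    ring
  have hNexp : (N : ℝ) = Real.exp (Real.log N) := (Real.exp_log hNR).symm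
  have hNbig : (512 : ℝ) ≤ N := by
    have h1 := Real.add_one_le_exp (Real.log N / 4)
    have h2 : Real.exp (Real.log N / 4) ^ 4 = N := by
      rw [← Real.exp_nat_mul]
      have : ((4 : ℕ) : ℝ) * (Real.log N / 4) = Real.log N := by push_cast; ring
      rw [this, Real.exp_log hNR]
    have h3 : (6:ℝ) ^ 4 ≤ Real.exp (Real.log N / 4) ^ 4 :=
      pow_le_pow_left₀ (by norm_num) (by linarith) 4
    rw [h2] at h3
    calc (512:ℝ) ≤ 6 ^ 4 := by norm_num
      _ ≤ N := h3
  have hQ8 : 8 ≤ Q0 := by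
    have h1 : (8:ℝ) ^ 2 ≤ Q0 ^ 2 := by
      have : Q0 ^ 2 = N / 8 := by rw [hQN]; ring
      rw [this]
      linarith
    exact le_of_pow_le_pow_left₀ (by norm_num) hQ0.le h1
  obtain ⟨J, hJ1, hJ2⟩ := exists_nat_pow_near (show (1:ℝ) ≤ Q0 / 8 by linarith)
    (show (1:ℝ) < 16 by norm_num)
  have h8 : 8 ≤ Q0 / 16 ^ J := by
    rw [le_div_iff₀ (by positivity)]
    linarith
  have h128 : Q0 < 128 * (4 ^ J) ^ 2 := by
    have h1 : ((4:ℝ) ^ J) ^ 2 = 16 ^ J := by
      rw [← pow_mul, mul_comm, pow_mul]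
      norm_num
    rw [h1]
    rw [pow_succ] at hJ2
    linarith
  obtain ⟨Y, hY0, hY1, hY2⟩ := core ha hNpos h8 M
  have hL := L_lower hD hD0 (J := J) hN hQ0 hQN
  set L := ∑ j ∈ range (J + 1), 1 / (N + 1.75 * (1 / 4) ^ j * Q0 ^ 2)
        * (G (nn J Q0 j) - G (nn J Q0 (j + 1))) with hLdef
  set T := LL (Real.log N / 2 - 5.392) with hT
  have hT0 : 0 < T := by
    have h1 := T_lower hN
    have : 0 ≤ (Real.log N) ^ 3 := by positivity
    linarith
  have hY3 : Y ≤ 6 * D * N * (1 + 0.21875 / 4 ^ J) / T := by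
    have h1 : Y * (1 / (6 * D) * (1 / (N * (1 + 0.21875 / 4 ^ J)) * T)) ≤ 1 :=
      (mul_le_mul_of_nonneg_left hL hY0).trans hY2
    have h2 : (0:ℝ) < 1 + 0.21875 / 4 ^ J := by positivity
    rw [le_div_iff₀ hT0]
    have h3 : Y * (1 / (6 * D) * (1 / (N * (1 + 0.21875 / 4 ^ J)) * T))
        = Y * T / (6 * D * N * (1 + 0.21875 / 4 ^ J)) := by
      field_simp
    rw [h3, div_le_one (by positivity)] at h1
    exact h1
  have hfin := final_ineq (z := Real.log N) (D := D) (h := 4 ^ J) hN hD2 hQ0 (by positivity)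
    hNexp hQN h128
  rw [← hT] at hfin
  linarith

end Pool.Agent.Helper25
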