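import Mathlib
import Pool.Agent.Helper25.GBound

set_option autoImplicit false

namespace Pool.Agent.Helper25

open Finset

/-- scaled recursion for the sieve sum -/
def RR : List ℕ → ℕ → ℕ
  | [], _ => 100000000
  | p :: ps, n => if n < p then RR ps n else RR ps n + (if p = 2 then RR ps (n / p)
      else if p = 3 then 2 * RR ps (n / p) else 3 * RR ps (n / p) / (p - 3))

lemma Gs_step_mono {P : Finset ℕ} (hP : ∀ p ∈ P, p.Prime) {x y : ℝ} (h : x ≤ y) :
    Gs P step x ≤ Gs P step y := by
  unfold Gs
  apply Finset.sum_le_sum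
  intro s hs
  apply mul_le_mul_of_nonneg_left
  · apply step_mono
    linarith
  · apply Finset.prod_nonneg
    intro p hp
    exact (gg_pos (hP p (Finset.mem_powerset.mp hs hp))).le

lemma RR_le (ps : List ℕ) : (∀ p ∈ ps, p.Prime) → ps.Nodup → ∀ n : ℕ, 1 ≤ n →
    (RR ps n : ℝ) ≤ 100000000 * Gs ps.toFinset step (Real.log n) := by
  induction ps with
  | nil =>
    intro _ _ n hn
    have h1 : (0:ℝ) ≤ Real.log n := Real.log_nonneg (by exact_mod_cast hn)
    unfold RR Gs
    simp [step, h1]
  | cons p ps ih =>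
    intro hp hnd n hn
    rw [List.nodup_cons] at hnd
    have hpp : p.Prime := hp p List.mem_cons_self
    have hps : ∀ q ∈ ps, q.Prime := fun q hq => hp q (List.mem_cons_of_mem _ hq)
    have hps' : ∀ q ∈ ps.toFinset, q.Prime := fun q hq => hps q (List.mem_toFinset.mp hq)
    have hnot : p ∉ ps.toFinset := fun h => hnd.1 (List.mem_toFinset.mp h)
    have h1 := ih hps hnd.2 n hn
    rw [List.toFinset_cons, Gs_insert hnot]
    have hg := gg_pos hpp
    have h0 : ∀ x, 0 ≤ Gs ps.toFinset step x := fun x => Gs_nonneg hps' (fun y => by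
      unfold step; split_ifs <;> norm_num) x
    unfold RR
    split_ifs with h2 h3 h4
    · have := mul_nonneg hg.le (h0 (Real.log n - Real.log p))
      linarith
    all_goals
      have hnp : 1 ≤ n / p := Nat.div_pos (by omega) hpp.pos
      have h5 := ih hps hnd.2 (n / p) hnp
      have h6 : Real.log ((n / p : ℕ) : ℝ) ≤ Real.log n - Real.log p := by
        have hp0 : (0:ℝ) < p := by exact_mod_cast hpp.pos
        have hn0 : (0:ℝ) < n := by exact_mod_cast hn
        rw [← Real.log_div hn0.ne' hp0.ne']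
        apply Real.log_le_log (by exact_mod_cast hnp)
        exact Nat.cast_div_le
      have h7 := Gs_step_mono hps' h6
      have h8 : (RR ps (n / p) : ℝ) ≤ 100000000 * Gs ps.toFinset step (Real.log n - Real.log p) := by
        linarith
    · have h9 : gg p = 1 := by unfold gg; rw [if_pos h3]
      rw [h9]
      push_cast
      linarith
    · have h9 : gg p = 2 := by unfold gg; rw [if_neg h3, if_pos h4]
      rw [h9]
      push_cast
      linarith
    · have h9 : gg p = 3 / ((p : ℝ) - 3) := by unfold gg; rw [if_neg h3, if_neg h4]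
      have hp5 : 4 ≤ p := by
        have := hpp.two_le
        omega
      have hp5' : (4:ℝ) ≤ p := by exact_mod_cast hp5
      have h10 : ((3 * RR ps (n / p) / (p - 3) : ℕ) : ℝ) ≤ 3 * (RR ps (n / p) : ℝ) / ((p : ℝ) - 3) := by
        have h11 : ((3 * RR ps (n / p) / (p - 3) : ℕ) : ℝ)
            ≤ ((3 * RR ps (n / p) : ℕ) : ℝ) / ((p - 3 : ℕ) : ℝ) := Nat.cast_div_le
        have h12 : ((p - 3 : ℕ) : ℝ) = (p : ℝ) - 3 := by
          rw [Nat.cast_sub (by omega)]
          norm_num
        rw [h12] at h11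
        push_cast at h11 ⊢
        exact h11
      have h13 : 3 * (RR ps (n / p) : ℝ) / ((p : ℝ) - 3)
          ≤ 3 / ((p : ℝ) - 3) * (100000000 * Gs ps.toFinset step (Real.log n - Real.log p)) := by
        have h14 : 0 ≤ 3 / ((p : ℝ) - 3) := div_nonneg (by norm_num) (by linarith)
        calc 3 * (RR ps (n / p) : ℝ) / ((p : ℝ) - 3) = 3 / ((p : ℝ) - 3) * (RR ps (n / p) : ℝ) := by ring
          _ ≤ _ := mul_le_mul_of_nonneg_left h8 h14
      rw [h9]
      push_cast at h10 ⊢
      linarith

/-- the primes up to five hundred -/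
def pl : List ℕ := [
    499, 491, 487, 479, 467, 463, 461, 457, 449, 443, 439, 433, 431, 421, 419, 409, 401, 397,
    389, 383, 379, 373, 367, 359, 353, 349, 347, 337, 331, 317, 313, 311, 307, 293, 283, 281,
    277, 271, 269, 263, 257, 251, 241, 239, 233, 229, 227, 223, 211, 199, 197, 193, 191, 181,
    179, 173, 167, 163, 157, 151, 149, 139, 137, 131, 127, 113, 109, 107, 103, 101, 97, 89,
    83, 79, 73, 71, 67, 61, 59, 53, 47, 43, 41, 37, 31, 29, 23, 19, 17, 13, 11, 7, 5, 3, 2]

lemma pl_prime : ∀ p ∈ pl, p.Prime := by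
  unfold pl
  simp only [List.forall_mem_cons, List.not_mem_nil, false_imp_iff, implies_true, and_true]
  norm_num

lemma pl_nodup : pl.Nodup := by
  unfold pl
  decide +kernel

lemma RR_val : 6000000000 ≤ RR pl 500 := by
  decide +kernel

lemma G500 : 60 ≤ G 500 := by
  have h1 := RR_le pl pl_prime pl_nodup 500 (by norm_num)
  have h2 : ((6000000000 : ℕ) : ℝ) ≤ (RR pl 500 : ℝ) := by exact_mod_cast RR_val
  have h3 := Gs_le_G (Q := pl.toFinset) (fun p hp => pl_prime p (List.mem_toFinset.mp hp))
    (F := step) (x := Real.log (500 : ℕ)) (fun y _ => le_refl _)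
  rw [Real.exp_log (by norm_num), Nat.floor_natCast] at h3
  push_cast at h1 h2 h3
  linarith

end Pool.Agent.Helper25
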