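import Mathlib
import Pool.Agent.Helper25.LargeN
import Pool.Agent.Helper25.Num

set_option autoImplicit false

namespace Pool.Agent.Helper25

open Finset Filter

lemma mod30 (r M N : ℕ) :
    (((Ioc M (M + N)).filter (fun x => x ≡ r [MOD 30])).card : ℝ) ≤ N / 30 + 1 := by
  have h := Nat.Ioc_filter_modEq_card M (M + N) (r := 30) (by norm_num) r
  have h1 : ((((Ioc M (M + N)).filter (fun x => x ≡ r [MOD 30])).card : ℤ) : ℚ) ≤ (N : ℚ) / 30 + 1 := by
    rw [h]
    have h2 := Int.floor_le ((((M + N : ℕ) : ℚ) - (r : ℚ)) / ((30 : ℕ) : ℚ))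
    have h3 := Int.lt_floor_add_one (((M : ℚ) - (r : ℚ)) / ((30 : ℕ) : ℚ))
    have hN : (0:ℚ) ≤ N := Nat.cast_nonneg _
    push_cast at h2 h3 ⊢
    apply max_le
    · linarith
    · linarith
  have h2 : (((Ioc M (M + N)).filter (fun x => x ≡ r [MOD 30])).card : ℚ) ≤ (N : ℚ) / 30 + 1 := by
    exact_mod_cast h1
  have h3 : ((((Ioc M (M + N)).filter (fun x => x ≡ r [MOD 30])).card : ℚ) : ℝ)
      ≤ (((N : ℚ) / 30 + 1 : ℚ) : ℝ) := by exact_mod_cast h2
  push_cast at h3
  exact h3

lemma not_dvd_of_prime {p m : ℕ} (hm : m.Prime) (hp : p ≠ 1) (hne : m ≠ p) : ¬ p ∣ m := by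
  intro h
  rcases (Nat.dvd_prime hm).mp h with h1 | h1
  · exact hp h1
  · exact hne h1.symm

lemma mod5a {n : ℕ} (h1 : ¬ 5 ∣ n) (h2 : ¬ 5 ∣ n + 2) (h3 : ¬ 5 ∣ n + 6) :
    n % 5 = 1 ∨ n % 5 = 2 := by omega

lemma mod5b {n : ℕ} (h1 : ¬ 5 ∣ n) (h2 : ¬ 5 ∣ n + 4) (h3 : ¬ 5 ∣ n + 6) :
    n % 5 = 2 ∨ n % 5 = 3 := by omega

lemma trip_mod {a n : ℕ} (ha : a = 2 ∨ a = 4) (h1 : n.Prime) (h2 : (n + a).Prime)
    (h3 : (n + 6).Prime) (h5 : n ≠ 5) :
    (a = 2 ∧ (n % 30 = 11 ∨ n % 30 = 17)) ∨ (a = 4 ∧ (n % 30 = 7 ∨ n % 30 = 13)) := by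
  have hn2 : n ≠ 2 := by
    rintro rfl
    norm_num at h3
  have hn3 : n ≠ 3 := by
    rintro rfl
    norm_num at h3
  have hn1 := h1.two_le
  have b1 : ¬ 2 ∣ n := not_dvd_of_prime h1 (by norm_num) hn2
  have b2 : ¬ 3 ∣ n := not_dvd_of_prime h1 (by norm_num) hn3
  have b3 : ¬ 5 ∣ n := not_dvd_of_prime h1 (by norm_num) h5
  have b4 : ¬ 3 ∣ n + a := not_dvd_of_prime h2 (by norm_num) (by omega)
  have b5 : ¬ 5 ∣ n + a := not_dvd_of_prime h2 (by norm_num) (by
    rcases ha with rfl | rfl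
    · omega
    · omega)
  have b6 : ¬ 5 ∣ n + 6 := not_dvd_of_prime h3 (by norm_num) (by omega)
  have m2 : n % 2 = 1 := by omega
  rcases ha with rfl | rfl
  · left
    refine ⟨rfl, ?_⟩
    have m3 : n % 3 = 2 := by omega
    have m5 := mod5a b3 b5 b6
    rcases m5 with m5 | m5
    · omega
    · omega
  · right
    refine ⟨rfl, ?_⟩
    have m3 : n % 3 = 1 := by omega
    have m5 := mod5b b3 b5 b6
    rcases m5 with m5 | m5
    · omega
    · omega

lemma trip_card_mod {a : ℕ} (ha : a = 2 ∨ a = 4) (M N : ℕ) :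
    ((trip a M N).card : ℝ) ≤ N / 15 + 3 := by
  classical
  obtain ⟨r, s, hrs⟩ : ∃ r s : ℕ, ∀ n : ℕ, n.Prime → (n + a).Prime → (n + 6).Prime → n ≠ 5 →
      n ≡ r [MOD 30] ∨ n ≡ s [MOD 30] := by
    rcases ha with rfl | rfl
    · refine ⟨11, 17, ?_⟩
      intro n h1 h2 h3 h4
      rcases trip_mod (Or.inl rfl) h1 h2 h3 h4 with ⟨_, h | h⟩ | ⟨h, _⟩
      · left; exact h
      · right; exact h
      · omega
    · refine ⟨7, 13, ?_⟩
      intro n h1 h2 h3 h4
      rcases trip_mod (Or.inr rfl) h1 h2 h3 h4 with ⟨h, _⟩ | ⟨_, h | h⟩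
      · omega
      · left; exact h
      · right; exact h
  have h1 : trip a M N ⊆ {5} ∪ ((Ioc M (M + N)).filter (fun x => x ≡ r [MOD 30]) ∪
      (Ioc M (M + N)).filter (fun x => x ≡ s [MOD 30])) := by
    intro n hn
    unfold trip at hn
    rw [mem_filter] at hn
    obtain ⟨h0, h1, h2, h3⟩ := hn
    rw [mem_union, mem_union, mem_singleton, mem_filter, mem_filter]
    by_cases h5 : n = 5
    · exact Or.inl h5
    · rcases hrs n h1 h2 h3 h5 with h | h
      · exact Or.inr (Or.inl ⟨h0, h⟩)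
      · exact Or.inr (Or.inr ⟨h0, h⟩)
  have h2 := (Finset.card_le_card h1).trans (Finset.card_union_le _ _)
  have h3 := Finset.card_union_le ((Ioc M (M + N)).filter (fun x => x ≡ r [MOD 30]))
    ((Ioc M (M + N)).filter (fun x => x ≡ s [MOD 30]))
  rw [card_singleton] at h2
  have h4 : (trip a M N).card ≤ 1 + (((Ioc M (M + N)).filter (fun x => x ≡ r [MOD 30])).card
      + ((Ioc M (M + N)).filter (fun x => x ≡ s [MOD 30])).card) := by omega
  have h5 : ((trip a M N).card : ℝ) ≤ 1 + (((Ioc M (M + N)).filter (fun x => x ≡ r [MOD 30])).card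
      + ((Ioc M (M + N)).filter (fun x => x ≡ s [MOD 30])).card) := by exact_mod_cast h4
  have h6 := mod30 r M N
  have h7 := mod30 s M N
  linarith

lemma trip_card_le (a M N : ℕ) : ((trip a M N).card : ℝ) ≤ N := by
  have h1 : (trip a M N).card ≤ (Ioc M (M + N)).card := Finset.card_filter_le _ _
  rw [Nat.card_Ioc, Nat.add_sub_cancel_left] at h1
  exact_mod_cast h1

lemma cube_ratio {A x : ℝ} (hA : 0 < A) (hA3 : 3 ≤ Real.log A) (hx : A ≤ x) :
    (Real.log x) ^ 3 * A ≤ (Real.log A) ^ 3 * x := by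
  have hx0 : 0 < x := by linarith
  set u := Real.log A with hu
  set z := Real.log x with hz
  have hu0 : 0 < u := by linarith
  have huz : u ≤ z := Real.log_le_log hA hx
  have h1 := Real.add_one_le_exp (z / u - 1)
  have h0 : 0 ≤ z / u := div_nonneg (by linarith) hu0.le
  have h2 : (z / u) ^ 3 ≤ Real.exp (z / u - 1) ^ 3 := pow_le_pow_left₀ h0 (by linarith) 3
  rw [← Real.exp_nat_mul] at h2
  have h3 : Real.exp (((3 : ℕ) : ℝ) * (z / u - 1)) ≤ Real.exp (z - u) := by
    apply Real.exp_le_exp.mpr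
    have h4 : z / u - 1 = (z - u) / u := by field_simp
    rw [h4]
    push_cast
    rw [← mul_div_assoc, div_le_iff₀ hu0]
    nlinarith
  have h4 : Real.exp (z - u) = x / A := by
    rw [Real.exp_sub, hz, hu, Real.exp_log hx0, Real.exp_log hA]
  have h5 : (z / u) ^ 3 ≤ x / A := by rw [← h4]; exact h2.trans h3
  rw [div_pow, div_le_div_iff₀ (by positivity) hA] at h5
  linarith

/-- a bound of linear shape implies the claim in a range -/
lemma range_bound {A B c d D C cA cB : ℝ} {N : ℕ} (hc : 0 ≤ c) (hd : 0 ≤ d) (hA : 0 < A)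
    (hA3 : 3 ≤ Real.log A) (hAN : A ≤ N) (hNB : Real.log N ≤ B) (hcA : (Real.log A) ^ 3 ≤ cA)
    (hcB : B ^ 3 ≤ cB) (hC : C ≤ c * N + d) (hfin : c * cB + d * cA / A < 48 * D) :
    C < 48 * D * N / (Real.log N) ^ 3 := by
  have hN0 : (0:ℝ) < N := by linarith
  have hz : 3 ≤ Real.log N := hA3.trans (Real.log_le_log hA hAN)
  have hz3 : 0 < (Real.log N) ^ 3 := by positivity
  rw [lt_div_iff₀ hz3]
  have h1 := cube_ratio hA hA3 hAN
  have h2 : (Real.log N) ^ 3 ≤ cB := (pow_le_pow_left₀ (by linarith) hNB 3).trans hcB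
  have h3 : (Real.log N) ^ 3 ≤ cA / A * N := by
    rw [div_mul_eq_mul_div, le_div_iff₀ hA]
    exact h1.trans (mul_le_mul_of_nonneg_right hcA hN0.le)
  calc C * (Real.log N) ^ 3 ≤ (c * N + d) * (Real.log N) ^ 3 :=
        mul_le_mul_of_nonneg_right hC hz3.le
    _ = c * N * (Real.log N) ^ 3 + d * (Real.log N) ^ 3 := by ring
    _ ≤ c * N * cB + d * (cA / A * N) := by
        apply add_le_add
        · exact mul_le_mul_of_nonneg_left h2 (by positivity)
        · exact mul_le_mul_of_nonneg_left h3 hd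
    _ = (c * cB + d * cA / A) * N := by ring
    _ < 48 * D * N := mul_lt_mul_of_pos_right hfin hN0

lemma trip_mid {a : ℕ} (ha : a = 2 ∨ a = 4) (M : ℕ) {N : ℕ} (hN : 0 < N) :
    ((trip a M N).card : ℝ) ≤ 1 / 60 * N + 7792 := by
  obtain ⟨Y, hY0, hY1, hY2⟩ := core ha (J := 0) (Q0 := 500) hN (by norm_num) M
  rw [zero_add, Finset.sum_range_one] at hY2
  have h1 : nn 0 500 0 = 500 := by
    unfold nn
    norm_num
  have h2 : nn 0 500 (0 + 1) = 0 := by
    unfold nn
    rw [if_neg (by omega)]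
  rw [h1, h2, G_zero, sub_zero, pow_zero] at hY2
  have h3 := G500
  have hNR : (0:ℝ) < N := by exact_mod_cast hN
  have h4 : Y * (1 / (N + 1.75 * 1 * 500 ^ 2) * 60) ≤ 1 := by
    refine le_trans ?_ hY2
    apply mul_le_mul_of_nonneg_left _ hY0
    exact mul_le_mul_of_nonneg_left h3 (by positivity)
  have h5 : Y * (1 / (N + 1.75 * 1 * 500 ^ 2) * 60) = Y * 60 / (N + 1.75 * 1 * 500 ^ 2) := by ring
  rw [h5, div_le_one (by positivity)] at h4
  norm_num at h4
  linarith

theorem small {D : ℝ} (hD2 : 2.844 ≤ D) {a : ℕ} (ha : a = 2 ∨ a = 4) (M : ℕ) {N : ℕ}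
    (hN2 : 2 ≤ N) (hN : Real.log N < 20) :
    ((trip a M N).card : ℝ) < 48 * D * N / (Real.log N) ^ 3 := by
  have hNR : (0:ℝ) < N := by positivity
  rcases le_or_gt N 170 with h | h
  · have hNb : (N : ℝ) ≤ 170 := by exact_mod_cast h
    have h1 := log_le_of_pow (t := 170) (by norm_num) (k := 12) (m := 89) (by norm_num) (by norm_num)
    have h2 : Real.log N ≤ Real.log 170 := Real.log_le_log hNR hNb
    have h3 : 0 < Real.log N := Real.log_pos (by exact_mod_cast (by omega : 1 < N))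
    have h4 : Real.log N ≤ 5.141 := by
      push_cast at h1
      norm_num at h1 ⊢
      linarith
    have h5 : (Real.log N) ^ 3 ≤ 5.141 ^ 3 := pow_le_pow_left₀ h3.le h4 3
    have h6 : 0 < (Real.log N) ^ 3 := by positivity
    rw [lt_div_iff₀ h6]
    have h7 := trip_card_le a M N
    calc ((trip a M N).card : ℝ) * (Real.log N) ^ 3 ≤ N * 5.141 ^ 3 :=
          mul_le_mul h7 h5 h6.le hNR.le
      _ < 48 * D * N := by nlinarith
  rcases le_or_gt N 300000 with h' | h'
  · have h171 : (171 : ℝ) ≤ N := by exact_mod_cast h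
    have hNb : (N : ℝ) ≤ 300000 := by exact_mod_cast h'
    have e1 := log_le_of_pow (t := 171) (by norm_num) (k := 7) (m := 52) (by norm_num) (by norm_num)
    have e2 := log_ge_of_pow (t := 171) (by norm_num) (k := 1) (m := 7) (by norm_num) (by norm_num)
    have e3 := log_le_of_pow (t := 300000) (by norm_num) (k := 5) (m := 91) (by norm_num) (by norm_num)
    have h2 : Real.log N ≤ Real.log 300000 := Real.log_le_log hNR hNb
    push_cast at e1 e2 e3
    have e4 : Real.log 171 ≤ 5.1491 := by norm_num at e1 ⊢; linarith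
    have e5 : 3 ≤ Real.log 171 := by norm_num at e2 ⊢; linarith
    have e6 : Real.log N ≤ 12.6153 := by norm_num at e3 ⊢; linarith
    have h7 := trip_card_mod ha M N
    apply range_bound (A := 171) (B := 12.6153) (c := 1 / 15) (d := 3) (cA := 136.53) (cB := 2007.75)
      (by norm_num) (by norm_num) (by norm_num) e5 h171 e6
    · calc (Real.log 171) ^ 3 ≤ 5.1491 ^ 3 := pow_le_pow_left₀ (by linarith) e4 3
        _ ≤ 136.53 := by norm_num
    · norm_num
    · linarith
    · norm_num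
      linarith
  rcases le_or_gt N 25000000 with h'' | h''
  · have hA : (300000 : ℝ) ≤ N := by exact_mod_cast h'.le
    have hNb : (N : ℝ) ≤ 25000000 := by exact_mod_cast h''
    have e1 := log_le_of_pow (t := 300000) (by norm_num) (k := 5) (m := 91) (by norm_num) (by norm_num)
    have e2 := log_ge_of_pow (t := 300000) (by norm_num) (k := 1) (m := 18) (by norm_num) (by norm_num)
    have e3 := log_le_of_pow (t := 25000000) (by norm_num) (k := 5) (m := 123) (by norm_num)
      (by norm_num)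
    have h2 : Real.log N ≤ Real.log 25000000 := Real.log_le_log hNR hNb
    push_cast at e1 e2 e3
    have e4 : Real.log 300000 ≤ 12.6153 := by norm_num at e1 ⊢; linarith
    have e5 : 3 ≤ Real.log 300000 := by norm_num at e2 ⊢; linarith
    have e6 : Real.log N ≤ 17.052 := by norm_num at e3 ⊢; linarith
    have h7 := trip_mid ha M (N := N) (by omega)
    apply range_bound (A := 300000) (B := 17.052) (c := 1 / 60) (d := 7792) (cA := 2007.75)
      (cB := 4960) (by norm_num) (by norm_num) (by norm_num) e5 hA e6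
    · calc (Real.log 300000) ^ 3 ≤ 12.6153 ^ 3 := pow_le_pow_left₀ (by linarith) e4 3
        _ ≤ 2007.75 := by norm_num
    · norm_num
    · linarith
    · norm_num
      linarith
  · have hA : (25000000 : ℝ) ≤ N := by exact_mod_cast h''.le
    have e1 := log_le_of_pow (t := 25000000) (by norm_num) (k := 5) (m := 123) (by norm_num)
      (by norm_num)
    have e2 := log_ge_of_pow (t := 25000000) (by norm_num) (k := 1) (m := 24) (by norm_num)
      (by norm_num)
    push_cast at e1 e2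
    have e4 : Real.log 25000000 ≤ 17.052 := by norm_num at e1 ⊢; linarith
    have e5 : 3 ≤ Real.log 25000000 := by norm_num at e2 ⊢; linarith
    have h7 := trip_mid ha M (N := N) (by omega)
    apply range_bound (A := 25000000) (B := 20) (c := 1 / 60) (d := 7792) (cA := 4960)
      (cB := 8000) (by norm_num) (by norm_num) (by norm_num) e5 hA hN.le
    · calc (Real.log 25000000) ^ 3 ≤ 17.052 ^ 3 := pow_le_pow_left₀ (by linarith) e4 3
        _ ≤ 4960 := by norm_num
    · norm_num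
    · linarith
    · norm_num
      linarith

end Pool.Agent.Helper25
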